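import Mathlib

/-! Calkin algebras: definitions. -/

namespace Pool.Agent.KS6_69.CB

open Filter Topology

universe u v

/-- The ideal `K(X)` of the compact operators in the algebra `L(X)` of the bounded operators on
the normed space `X` over `𝕜`. -/
def compactIdeal (𝕜 : Type) [RCLike 𝕜] (X : Type u) [NormedAddCommGroup X] [NormedSpace 𝕜 X] :
    Ideal (X →L[𝕜] X) where
  carrier := {T | IsCompactOperator T}
  add_mem' := fun hS hT => hS.add hT
  zero_mem' := isCompactOperator_zero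
  smul_mem' := fun S _ hT => hT.clm_comp S

instance compactIdeal_isTwoSided (𝕜 : Type) [RCLike 𝕜] (X : Type u) [NormedAddCommGroup X]
    [NormedSpace 𝕜 X] : (compactIdeal 𝕜 X).IsTwoSided where
  mul_mem_of_left S hT := IsCompactOperator.comp_clm hT S

/-- The Calkin algebra `L(X)/K(X)`, with the quotient norm, and `A` are isomorphic as Banach
algebras: there is an isomorphism of algebras which is bounded in both directions. -/
def CalkinIso (𝕜 : Type) [RCLike 𝕜] (X : Type u) (A : Type v) [NormedAddCommGroup X]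
    [NormedSpace 𝕜 X] [NormedRing A] [NormedAlgebra 𝕜 A] : Prop :=
  ∃ e : ((X →L[𝕜] X) ⧸ compactIdeal 𝕜 X) ≃ₐ[𝕜] A,
    (∃ C : ℝ, ∀ x, ‖e x‖ ≤ C * ‖x‖) ∧ ∃ C : ℝ, ∀ a : A, ‖e.symm a‖ ≤ C * ‖a‖

/-- The Banach algebra `A` over `𝕜` is a Calkin algebra: there is a Banach space `X` over `𝕜` such
that `L(X)/K(X)` and `A` are isomorphic as Banach algebras. -/
def IsCalkin (𝕜 : Type) [RCLike 𝕜] (A : Type v) [NormedRing A] [NormedAlgebra 𝕜 A] : Prop :=
  ∃ (X : Type v) (_ : NormedAddCommGroup X) (_ : NormedSpace 𝕜 X),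
    CompleteSpace X ∧ CalkinIso 𝕜 X A

theorem mem_compactIdeal (𝕜 : Type) [RCLike 𝕜] (X : Type u) [NormedAddCommGroup X]
    [NormedSpace 𝕜 X] (T : X →L[𝕜] X) :
    T ∈ compactIdeal 𝕜 X ↔ IsCompactOperator T := Iff.rfl

/-- From a homomorphism to an isomorphism of the quotient. -/
theorem isCalkin_of_hom {𝕜 : Type} [RCLike 𝕜] {A : Type u} [NormedRing A] [NormedAlgebra 𝕜 A]
    [CompleteSpace A]
    {X : Type u} [NormedAddCommGroup X] [NormedSpace 𝕜 X] [CompleteSpace X]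
    (φ : (X →L[𝕜] X) →ₐ[𝕜] A) (h1 : Continuous φ) (h2 : Function.Surjective φ)
    (h3 : ∀ T, φ T = 0 ↔ IsCompactOperator T) : IsCalkin 𝕜 A := by
  have hker : compactIdeal 𝕜 X = RingHom.ker φ := by
    ext T
    rw [mem_compactIdeal, RingHom.mem_ker, h3]
  let e : ((X →L[𝕜] X) ⧸ compactIdeal 𝕜 X) ≃ₐ[𝕜] A := (Ideal.quotientEquivAlgOfEq 𝕜 hker).trans
    (Ideal.quotientKerAlgEquivOfSurjective h2)
  have he : ∀ T : X →L[𝕜] X, e (Submodule.Quotient.mk T) = φ T := fun T => rfl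
  let f : (X →L[𝕜] X) →L[𝕜] A := ⟨φ.toLinearMap, h1⟩
  have hf : ∀ T, f T = φ T := fun _ => rfl
  refine ⟨X, inferInstance, inferInstance, inferInstance, e, ⟨‖f‖, fun x => ?_⟩, ?_⟩
  · refine le_of_forall_pos_le_add fun ε hε => ?_
    obtain ⟨T, hT, hT2⟩ := Submodule.Quotient.norm_mk_lt (S := compactIdeal 𝕜 X) x
      (show 0 < ε / (‖f‖ + 1) by positivity)
    rw [← hT, he, ← hf]
    refine (f.le_opNorm T).trans ?_
    rw [← hT] at hT2
    have h5 : ‖f‖ * (ε / (‖f‖ + 1)) ≤ ε := by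
      rw [mul_div_assoc', div_le_iff₀ (by positivity)]
      nlinarith [norm_nonneg f]
    calc ‖f‖ * ‖T‖ ≤ ‖f‖ * (‖(Submodule.Quotient.mk T : (X →L[𝕜] X) ⧸ compactIdeal 𝕜 X)‖ +
            ε / (‖f‖ + 1)) := by
          gcongr
      _ = ‖f‖ * ‖(Submodule.Quotient.mk T : (X →L[𝕜] X) ⧸ compactIdeal 𝕜 X)‖ +
            ‖f‖ * (ε / (‖f‖ + 1)) := by ring
      _ ≤ ‖f‖ * ‖(Submodule.Quotient.mk T : (X →L[𝕜] X) ⧸ compactIdeal 𝕜 X)‖ + ε := by linarith
  · obtain ⟨C, hC, hC2⟩ := f.exists_preimage_norm_le h2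
    refine ⟨C, fun a => ?_⟩
    obtain ⟨T, hT, hT2⟩ := hC2 a
    have h5 : e.symm a = Submodule.Quotient.mk T := by
      rw [← hT, hf, ← he, AlgEquiv.symm_apply_apply]
    rw [h5]
    exact (Submodule.Quotient.norm_mk_le (compactIdeal 𝕜 X) T).trans hT2

end Pool.Agent.KS6_69.CB
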