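import Pool.Agent.KS6_69.CB.CalkinDef

/-! Closed ideals of `L(X)`. -/

namespace Pool.Agent.KS6_69.CB

open Filter Topology

universe u

variable {𝕜 : Type} [RCLike 𝕜] {X : Type u} [NormedAddCommGroup X] [NormedSpace 𝕜 X]

/-- a finite rank operator is a finite sum of rank one operators -/
lemma exists_sum_rankOne (T : X →L[𝕜] X)
    [FiniteDimensional 𝕜 (LinearMap.range (T : X →ₗ[𝕜] X))] :
    ∃ (n : ℕ) (f : Fin n → (X →L[𝕜] 𝕜)) (u : Fin n → X), T = ∑ i, (f i).smulRight (u i) := by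
  let b := Module.finBasis 𝕜 (LinearMap.range (T : X →ₗ[𝕜] X))
  let T' : X →L[𝕜] LinearMap.range (T : X →ₗ[𝕜] X) := T.codRestrict _ (fun x => ⟨x, rfl⟩)
  refine ⟨_, fun i => (LinearMap.toContinuousLinearMap (b.coord i)) ∘L T', fun i => (b i : X), ?_⟩
  ext x
  rw [sum_apply]
  have h1 := congrArg (Subtype.val) (b.sum_repr (T' x))
  rw [AddSubmonoidClass.coe_finsetSum] at h1
  exact h1.symm

lemma exists_mem_ne_zero {I : TwoSidedIdeal (X →L[𝕜] X)} (hI : I ≠ ⊥) : ∃ T ∈ I, T ≠ 0 := by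
  by_contra h
  push Not at h
  refine hI (TwoSidedIdeal.ext fun T => ?_)
  rw [TwoSidedIdeal.mem_bot]
  constructor
  · exact h T
  · rintro rfl
    exact I.zero_mem

lemma rankOne_mem {I : TwoSidedIdeal (X →L[𝕜] X)} (hI : I ≠ ⊥) (f : X →L[𝕜] 𝕜) (u : X) :
    f.smulRight u ∈ I := by
  obtain ⟨T, hT, hT0⟩ := exists_mem_ne_zero hI
  obtain ⟨x, hx⟩ : ∃ x, T x ≠ 0 := by
    by_contra h
    push Not at h
    exact hT0 (ContinuousLinearMap.ext h)
  obtain ⟨g, -, hg⟩ := exists_dual_vector 𝕜 (T x) (norm_ne_zero_iff.2 hx)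
  have h0 : g (T x) ≠ 0 := by
    rw [hg]
    exact_mod_cast norm_ne_zero_iff.2 hx
  have h1 : f.smulRight u = (((g (T x))⁻¹ • g).smulRight u) * T * (f.smulRight x) := by
    ext z
    simp only [mul_apply_eq_comp, ContinuousLinearMap.smulRight_apply, map_smul, smul_apply,
      smul_eq_mul]
    rw [inv_mul_cancel₀ h0, one_smul]
  rw [h1]
  exact I.mul_mem_right _ _ (I.mul_mem_left _ _ hT)

lemma finrank_mem {I : TwoSidedIdeal (X →L[𝕜] X)} (hI : I ≠ ⊥) (T : X →L[𝕜] X)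
    [FiniteDimensional 𝕜 (LinearMap.range (T : X →ₗ[𝕜] X))] : T ∈ I := by
  obtain ⟨n, f, u, h⟩ := exists_sum_rankOne T
  rw [h]
  exact sum_mem fun i _ => rankOne_mem hI _ _

lemma tendsto_mul_compact (P : ℕ → (X →L[𝕜] X)) (C : ℝ) (hC : ∀ n, ‖P n‖ ≤ C)
    (hlim : ∀ x, Tendsto (fun n => P n x) atTop (𝓝 x)) {K : X →L[𝕜] X}
    (hK : IsCompactOperator K) : Tendsto (fun n => P n * K) atTop (𝓝 K) := by
  have hC0 : 0 ≤ C := (norm_nonneg (P 0)).trans (hC 0)
  rw [Metric.tendsto_atTop]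
  intro ε hε
  set δ : ℝ := ε / (2 * (C + 2)) with hδ
  have hδ0 : 0 < δ := by positivity
  obtain ⟨S, hS, hS'⟩ := hK.image_closedBall_subset_compact 1
  obtain ⟨t, ht, ht'⟩ := Metric.totallyBounded_iff.1 hS.totallyBounded δ hδ0
  have h1 : ∀ y ∈ t, ∀ᶠ n in atTop, ‖P n y - y‖ ≤ δ := by
    intro y _
    have := tendsto_iff_norm_sub_tendsto_zero.1 (hlim y)
    filter_upwards [this.eventually (gt_mem_nhds hδ0)] with n hn
    exact hn.le
  obtain ⟨N, hN⟩ := eventually_atTop.1 ((eventually_all_finite ht).2 h1)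
  refine ⟨N, fun n hn => ?_⟩
  rw [dist_eq_norm]
  have h2 : ‖P n * K - K‖ ≤ (C + 2) * δ := by
    refine ContinuousLinearMap.opNorm_le_of_unit_norm (by positivity) fun x hx => ?_
    have h3 : K x ∈ S := hS' ⟨x, by rw [mem_closedBall_zero_iff, hx], rfl⟩
    obtain ⟨y, hy, hy'⟩ := Set.mem_iUnion₂.1 (ht' h3)
    rw [mem_ball_iff_norm] at hy'
    have h4 := hN n hn y hy
    have h5 : (P n * K - K) x = P n (K x - y) + (P n y - y) + (y - K x) := by
      rw [sub_apply, mul_apply_eq_comp, map_sub]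
      abel
    rw [h5]
    have h6 : ‖P n (K x - y)‖ ≤ C * δ := ((P n).le_opNorm _).trans
      (mul_le_mul (hC n) hy'.le (norm_nonneg _) hC0)
    refine (norm_add₃_le).trans ?_
    rw [norm_sub_rev y (K x)]
    linarith
  refine h2.trans_lt ?_
  rw [hδ, mul_div_assoc', div_lt_iff₀ (by positivity)]
  nlinarith

/-- with the approximation property, a nonzero closed ideal contains the compact operators -/
lemma compact_mem (P : ℕ → (X →L[𝕜] X))
    (hfin : ∀ n, FiniteDimensional 𝕜 (LinearMap.range (P n : X →ₗ[𝕜] X)))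
    (C : ℝ) (hC : ∀ n, ‖P n‖ ≤ C)
    (hlim : ∀ x, Tendsto (fun n => P n x) atTop (𝓝 x)) {I : TwoSidedIdeal (X →L[𝕜] X)}
    (hI : I ≠ ⊥) (hcl : IsClosed (I : Set (X →L[𝕜] X))) {K : X →L[𝕜] X}
    (hK : IsCompactOperator K) : K ∈ I := by
  refine hcl.mem_of_tendsto (tendsto_mul_compact P C hC hlim hK) (Eventually.of_forall fun n => ?_)
  have := hfin n
  exact I.mul_mem_right _ _ (finrank_mem hI (P n))

/-- separability -/
lemma separable_of_proj (P : ℕ → (X →L[𝕜] X))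
    (hfin : ∀ n, FiniteDimensional 𝕜 (LinearMap.range (P n : X →ₗ[𝕜] X)))
    (hlim : ∀ x, Tendsto (fun n => P n x) atTop (𝓝 x)) : TopologicalSpace.SeparableSpace X := by
  have h1 : ∀ n, TopologicalSpace.IsSeparable (LinearMap.range (P n : X →ₗ[𝕜] X) : Set X) := by
    intro n
    have := hfin n
    have : ProperSpace (LinearMap.range (P n : X →ₗ[𝕜] X)) := FiniteDimensional.proper_rclike 𝕜 _
    exact TopologicalSpace.IsSeparable.of_subtype _
  have h2 := (TopologicalSpace.IsSeparable.iUnion h1).closure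
  have h3 : closure (⋃ n, (LinearMap.range (P n : X →ₗ[𝕜] X) : Set X)) = Set.univ := by
    refine Set.eq_univ_of_forall fun a => mem_closure_of_tendsto (hlim a) ?_
    exact Eventually.of_forall fun n => Set.mem_iUnion.2 ⟨n, a, rfl⟩
  rw [h3] at h2
  exact TopologicalSpace.isSeparable_univ_iff.1 h2

end Pool.Agent.KS6_69.CB
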