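import Pool.Agent.KS6_69.CB.Unit
import Pool.Agent.KS6_69.CB.IdealsX
import Pool.Agent.KS6_69.CB.Uncond

/-! Weighted coordinatewise products for conditional bases. -/

set_option autoImplicit false

namespace Pool.Agent.KS6_69.CB

open Filter Topology

universe u v

variable {𝕜 : Type} [RCLike 𝕜]

/-- `X` has a finite-dimensional decomposition with projections of norm at most `2`: there are
commuting finite rank projections `P n` on increasing subspaces, of norm at most `2`, which converge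
pointwise to the identity. -/
def HasFDD (𝕜 : Type) [RCLike 𝕜] (X : Type u) [NormedAddCommGroup X] [NormedSpace 𝕜 X] : Prop :=
  ∃ P : ℕ → (X →L[𝕜] X), (∀ n, FiniteDimensional 𝕜 (LinearMap.range (P n : X →ₗ[𝕜] X))) ∧
    (∀ n, ‖P n‖ ≤ 2) ∧ (∀ m n, P m * P n = P (min m n)) ∧
    (∀ x, Tendsto (fun n => P n x) atTop (𝓝 x))

/-- From a homomorphism to an isomorphism of the quotient. -/
theorem calkinIsoMul_of_hom {A : Type u} [NormedAddCommGroup A]
    [NormedSpace 𝕜 A] [CompleteSpace A] (m : A → A → A)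
    {X : Type u} [NormedAddCommGroup X] [NormedSpace 𝕜 X] [CompleteSpace X]
    (f : (X →L[𝕜] X) →L[𝕜] A) (h1 : ∀ S T, f (S * T) = m (f S) (f T))
    (h2 : Function.Surjective f) (h3 : ∀ T, f T = 0 ↔ IsCompactOperator T) :
    CalkinIsoMul 𝕜 X A m := by
  have hker : (compactIdeal 𝕜 X).restrictScalars 𝕜 = LinearMap.ker (f : (X →L[𝕜] X) →ₗ[𝕜] A) := by
    ext T
    rw [Submodule.restrictScalars_mem, mem_compactIdeal, LinearMap.mem_ker, ← h3]
    rfl
  let e₁ : ((X →L[𝕜] X) ⧸ compactIdeal 𝕜 X) ≃ₗ[𝕜]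
      ((X →L[𝕜] X) ⧸ (compactIdeal 𝕜 X).restrictScalars 𝕜) :=
    (Submodule.Quotient.restrictScalarsEquiv 𝕜 (compactIdeal 𝕜 X)).symm
  let e : ((X →L[𝕜] X) ⧸ compactIdeal 𝕜 X) ≃ₗ[𝕜] A := e₁.trans
    ((Submodule.quotEquivOfEq _ _ hker).trans (LinearMap.quotKerEquivOfSurjective _ h2))
  have he : ∀ T : X →L[𝕜] X, e (Submodule.Quotient.mk T) = f T := fun T => rfl
  refine ⟨e, ?_, ⟨‖f‖, fun x => ?_⟩, ?_⟩
  · intro S T
    obtain ⟨S, rfl⟩ := Submodule.Quotient.mk_surjective _ S
    obtain ⟨T, rfl⟩ := Submodule.Quotient.mk_surjective _ T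
    rw [he, he, ← h1]
    exact he (S * T)
  · refine le_of_forall_pos_le_add fun ε hε => ?_
    obtain ⟨T, hT, hT2⟩ := Submodule.Quotient.norm_mk_lt (S := compactIdeal 𝕜 X) x
      (show 0 < ε / (‖f‖ + 1) by positivity)
    rw [← hT, he]
    refine (f.le_opNorm T).trans ?_
    rw [← hT] at hT2
    have h5 : ‖f‖ * (ε / (‖f‖ + 1)) ≤ ε := by
      rw [mul_div_assoc', div_le_iff₀ (by positivity)]
      nlinarith [norm_nonneg f]
    calc ‖f‖ * ‖T‖ ≤ ‖f‖ * (‖(Submodule.Quotient.mk T : (X →L[𝕜] X) ⧸ compactIdeal 𝕜 X)‖ +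
            ε / (‖f‖ + 1)) := by
          gcongr
      _ = ‖f‖ * ‖(Submodule.Quotient.mk T : (X →L[𝕜] X) ⧸ compactIdeal 𝕜 X)‖ +
            ‖f‖ * (ε / (‖f‖ + 1)) := by ring
      _ ≤ ‖f‖ * ‖(Submodule.Quotient.mk T : (X →L[𝕜] X) ⧸ compactIdeal 𝕜 X)‖ + ε := by linarith
  · obtain ⟨C, hC, hC2⟩ := f.exists_preimage_norm_le h2
    refine ⟨C, fun a => ?_⟩
    obtain ⟨T, hT, hT2⟩ := hC2 a
    have h5 : e.symm a = Submodule.Quotient.mk T := by
      rw [← hT, ← he, LinearEquiv.symm_apply_apply]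
    rw [h5]
    exact (Submodule.Quotient.norm_mk_le (compactIdeal 𝕜 X) T).trans hT2

section

variable {U : Type u} [NormedAddCommGroup U] [NormedSpace 𝕜 U]
  (b : SchauderBasis 𝕜 U)

/-- The weighted coordinatewise product `∑ w_s x_s y_s b_s` is the map `f`: all these series
converge (possibly conditionally) to `f x y`. -/
def IsWeightedProduct (b : SchauderBasis 𝕜 U) (w : ℕ → 𝕜) (f : U → U → U) : Prop :=
  ∀ x y, Tendsto (fun n => ∑ s ∈ Finset.range n, (w s * b.coord s x * b.coord s y) • b s) atTop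
    (𝓝 (f x y))

variable {b} {w : ℕ → 𝕜} {f : U → U → U}

lemma cb_coord (s t : ℕ) : b.coord s (b t) = if s = t then 1 else 0 := by
  rw [b.ortho]
  by_cases h : s = t
  · subst h
    simp [Pi.single]
  · simp [Pi.single, h]

lemma cb_ext {x y : U} (h : ∀ s, b.coord s x = b.coord s y) : x = y := by
  have h1 := b.tendsto_proj x
  have h2 := b.tendsto_proj y
  simp only [SchauderBasis.proj_apply, h] at h1 h2
  exact tendsto_nhds_unique h1 h2

lemma cb_coord_lim {c : ℕ → 𝕜} {z : U}
    (h : Tendsto (fun n => ∑ s ∈ Finset.range n, c s • b s) atTop (𝓝 z)) (s : ℕ) :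
    b.coord s z = c s := by
  have h1 := ((b.coord s).continuous.tendsto z).comp h
  refine tendsto_nhds_unique h1 (tendsto_const_nhds.congr' ?_)
  filter_upwards [eventually_gt_atTop s] with n hn
  simp only [Function.comp_apply, map_sum, map_smul, cb_coord, smul_eq_mul, mul_ite, mul_one,
    mul_zero]
  rw [Finset.sum_ite_eq, if_pos (Finset.mem_range.2 hn)]

lemma cb_coord_proj (n s : ℕ) (x : U) :
    b.coord s (b.proj n x) = if s < n then b.coord s x else 0 := by
  rw [SchauderBasis.proj_apply, map_sum]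
  simp only [map_smul, cb_coord, smul_eq_mul, mul_ite, mul_one, mul_zero]
  rw [Finset.sum_ite_eq]
  simp

lemma wp_coord (hf : IsWeightedProduct b w f) (x y : U) (s : ℕ) :
    b.coord s (f x y) = w s * b.coord s x * b.coord s y := cb_coord_lim (hf x y) s

lemma exists_wprod [CompleteSpace U] (hf : IsWeightedProduct b w f) :
    ∃ m : U →L[𝕜] U →L[𝕜] U, ∀ x y, m x y = f x y := by
  have hco := wp_coord hf
  let T : U → ℕ → (U →L[𝕜] U) := fun x n =>
    ∑ s ∈ Finset.range n, (w s * b.coord s x) • (b.coord s).smulRight (b s)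
  have hT : ∀ x, Tendsto (fun n y => T x n y) atTop (𝓝 (f x)) := by
    intro x
    rw [tendsto_pi_nhds]
    intro y
    refine (hf x y).congr fun n => ?_
    simp only [T, sum_apply, smul_apply, ContinuousLinearMap.smulRight_apply, smul_smul]
  let F : U → (U →L[𝕜] U) := fun x => continuousLinearMapOfTendsto (T x) (hT x)
  have hF : ∀ x y, F x y = f x y := fun x y => rfl
  let g : U →ₗ[𝕜] (U →L[𝕜] U) :=
    { toFun := F
      map_add' := fun x x' => by
        ext y
        rw [add_apply, hF, hF, hF]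
        exact cb_ext (b := b) fun s => by simp only [hco, map_add]; ring
      map_smul' := fun c x => by
        ext y
        rw [RingHom.id_apply, smul_apply, hF, hF]
        exact cb_ext (b := b) fun s => by simp only [hco, map_smul, smul_eq_mul]; ring }
  have hg : ∀ (u : ℕ → U) (x : U) (G : U →L[𝕜] U), Tendsto u atTop (𝓝 x) →
      Tendsto (g ∘ u) atTop (𝓝 G) → G = g x := by
    intro u x G hu hG
    ext y
    have h1 : Tendsto (fun n => g (u n) y) atTop (𝓝 (G y)) :=
      ((ContinuousLinearMap.apply 𝕜 U y).continuous.tendsto G).comp hG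
    have h2 : ∀ z, f z y = f y z := fun z => cb_ext (b := b) fun s => by simp only [hco]; ring
    have h3 : Tendsto (fun n => F y (u n)) atTop (𝓝 (F y x)) :=
      ((F y).continuous.tendsto x).comp hu
    have h4 : (fun n => g (u n) y) = fun n => F y (u n) := by
      funext n
      change F (u n) y = _
      rw [hF, hF, h2]
    rw [h4] at h1
    have h5 := tendsto_nhds_unique h1 h3
    rw [h5]
    change F y x = F x y
    rw [hF, hF, h2]
  exact ⟨ContinuousLinearMap.ofSeqClosedGraph hg, fun x y => rfl⟩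

/-- The general theorem on weighted coordinatewise products. -/
theorem wprod_hom [CompleteSpace U] (hf : IsWeightedProduct b w f) :
    ∃ m : U →L[𝕜] U →L[𝕜] U, (∀ x y, m x y = f x y) ∧
    ∃ (X : Type u) (_ : NormedAddCommGroup X) (_ : NormedSpace 𝕜 X) (_ : CompleteSpace X)
      (P : ℕ → (X →L[𝕜] X)) (φ : (X →L[𝕜] X) →L[𝕜] (U × 𝕜)),
      (∀ n, FiniteDimensional 𝕜 (LinearMap.range (P n : X →ₗ[𝕜] X))) ∧
      (∀ n, ‖P n‖ ≤ 2) ∧ (∀ m n, P m * P n = P (min m n)) ∧
      (∀ x, Tendsto (fun n => P n x) atTop (𝓝 x)) ∧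
      φ 1 = (0, 1) ∧ (∀ S T, φ (S * T) = unitMul (fun a b => m a b) (φ S) (φ T)) ∧
      Function.Surjective φ ∧ ∀ T, φ T = 0 ↔ IsCompactOperator T := by
  obtain ⟨m, hm⟩ := exists_wprod hf
  have hmc : ∀ x y s, b.coord s (m x y) = w s * b.coord s x * b.coord s y := fun x y s => by
    rw [hm, wp_coord hf]
  obtain ⟨C, hC⟩ := b.exists_norm_proj_le
  refine ⟨m, hm, unit_bilin m
    (fun x y z => cb_ext (b := b) fun s => by simp only [hmc]; ring)
    (fun n => b.proj n) C hC (fun k n x => b.proj_comp k n x)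
    (fun n => ?_) (fun x => b.tendsto_proj x)
    (fun n x y => cb_ext (b := b) fun s => by
      simp only [cb_coord_proj, hmc]
      split_ifs <;> simp)⟩
  have := b.range_proj_eq_span n
  rw [this]
  exact FiniteDimensional.span_of_finite 𝕜 ((Finset.finite_toSet _).image _)

end

end Pool.Agent.KS6_69.CB
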