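import Pool.Agent.KS6_69.CB.Exact

/-! Dependent sequences: a bounded operator has no supply of bad vectors. -/

namespace Pool.Agent.KS6_69.CB

open Filter Topology

variable {𝕜 : Type*} [RCLike 𝕜] {E : Type*} [NormedAddCommGroup E] [NormedSpace 𝕜 E]
variable {X : Type*} [NormedAddCommGroup X] [NormedSpace 𝕜 X]
variable {D : Nodes 𝕜 E} {V : ℕ → Submodule 𝕜 E} {ok : ℕ → (E →L[𝕜] E) → Prop}

lemma Lam_pos (j : ℕ) : 0 < Lam j := by
  unfold Lam; have := nn_pos j; positivity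

/-- the weight of the exact pair used after the node `γ` -/
def jw (j0 γ : ℕ) : ℕ := if γ = 0 then 4 * Lam j0 + 2 else 4 * γ + 4

lemma jw_even (j0 γ : ℕ) : Even (jw j0 γ) := by
  unfold jw; split_ifs
  · exact ⟨2 * Lam j0 + 1, by ring⟩
  · exact ⟨2 * γ + 2, by ring⟩

lemma jw_ne (j0 γ : ℕ) : jw j0 γ ≠ 0 := by
  unfold jw; split_ifs <;> omega

lemma jw_inj {j0 a b : ℕ} (h : jw j0 a = jw j0 b) : a = b := by
  unfold jw at h; split_ifs at h <;> omega

lemma jw_ge {j0 γ : ℕ} (h : γ = 0 ∨ Lam j0 ≤ γ) : Lam j0 ≤ jw j0 γ := by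
  unfold jw; split_ifs <;> omega

lemma jw_gt {j0 γ : ℕ} : γ + 1 ≤ jw j0 γ := by
  unfold jw; have := Lam_pos j0; split_ifs <;> omega

namespace BD

variable {B : BD D V X} {C δ : ℝ} {T : X →L[𝕜] X} {f0 : E →L[𝕜] 𝕜}

/-- the list of properties of one step of a dependent sequence -/
structure DepStep (B : BD D V X) (T : X →L[𝕜] X) (f0 : E →L[𝕜] 𝕜) (C δ e : ℝ) (j0 γ : ℕ)
    (x : X) (η γ' : ℕ) : Prop where
  h1 : max (γ + 1) (Lam j0) ≤ η
  h2 : B.P (max (γ + 1) (Lam j0)) x = 0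
  h3 : B.P η x = x
  h4 : η ≠ 0
  h5 : η < γ'
  h6 : γ' ≠ 0
  h7 : D.par γ' = γ
  h8 : D.wt γ' = j0
  h9 : D.wt η = jw j0 γ
  h10 : ‖x‖ ≤ 12 * C
  h11 : ∀ γ1, γ1 ≠ 0 → ∀ s, D.wt γ1 ≠ jw j0 γ →
    ‖B.co γ1 (x - B.P s x)‖ ≤ 12 * C * β (min (D.wt γ1) (jw j0 γ))
  h12 : ∀ γ1, ‖B.dd γ1 x‖ ≤ 12 * C * β (jw j0 γ)
  h13 : ‖B.co η x‖ ≤ e
  h14 : δ / 2 - 2 * e ≤ (RCLike.re (f0 (B.fn γ' (T x))))
  h15 : ‖B.P (γ + 1) (T x)‖ ≤ 2 * e
  h16 : ‖T x - B.P γ' (T x)‖ ≤ e
  h17 : ∀ y, B.fn γ' y = B.co η (y - B.P (γ + 1) y)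

lemma step_odd (hD : D.Ok V ok) (hf0 : ‖f0‖ ≤ 1) (hC : 0 ≤ C) (hsup : B.Supply ok T f0 C δ)
    {j0 : ℕ} (hj0 : Odd j0) {e : ℝ} (he : 0 < e) (hδ : 0 < δ) (γ : ℕ)
    (hγ : γ = 0 ∨ (γ ≠ 0 ∧ D.wt γ = j0 ∧ D.age γ < nn j0 ∧ Lam j0 ≤ γ)) :
    ∃ (x : X) (η γ' : ℕ), B.DepStep T f0 C δ e j0 γ x η γ' := by
  obtain ⟨x, η, g1, g2, g3, g4, g5, g6, g7, g8, g9, g10, g11⟩ :=
    B.exact_pair hD hf0 hC hsup (jw_even j0 γ) (jw_ne j0 γ) (max (γ + 1) (Lam j0)) he hδ
  obtain ⟨t, ht⟩ := B.eventually_P (T x) he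
  obtain ⟨γ', k1, k2, k3, k4, k5⟩ := hD.rich_odd j0 hj0 γ η
    (by rcases hγ with h | h
        · left; exact h
        · right; exact ⟨h.1, h.2.1, h.2.2.1⟩)
    (by omega)
    (by rw [g5]; apply jw_ge; rcases hγ with h | h
        · left; exact h
        · right; exact h.2.2.2)
    (by intro h; rw [g5]; unfold jw; rw [if_pos h]; omega)
    (by intro h; rw [g5]; unfold jw; rw [if_neg h])
    (max t (η + 1))
  have hodd : Odd (D.wt γ') := by rw [k4]; exact hj0
  obtain ⟨o1, o2, o3⟩ := hD.odd_A γ' k2 hodd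
  have hfn : ∀ y, B.fn γ' y = B.co η (y - B.P (γ + 1) y) := by
    intro y
    unfold fn
    rw [Fin.sum_univ_two, o1, o2, o3, k3, k5]
    simp
  have hP : ‖B.P (γ + 1) (T x)‖ ≤ 2 * e := by
    have : B.P (γ + 1) (T x) = B.P (γ + 1) (B.P (max (γ + 1) (Lam j0)) (T x)) := by
      rw [B.P_P, min_eq_left (le_max_left _ _)]
    rw [this]
    refine (B.norm_P _ _).trans ?_
    linarith
  refine ⟨x, η, γ', ⟨g1, g2, g3, g4, by have := le_max_right t (η + 1); omega, k2, k3, k4, g5, g6,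
    g7, g8, g9, ?_, hP, ht _ ((le_max_left _ _).trans k1), hfn⟩⟩
  rw [hfn, map_sub, map_sub, sub_reK]
  have a1 := (abs_le.1 (re_f0_le hf0 (B.co η (B.P (γ + 1) (T x))))).2
  have a2 := B.norm_co η (B.P (γ + 1) (T x))
  linarith

lemma dep_seq (hD : D.Ok V ok) (hf0 : ‖f0‖ ≤ 1) (hC : 0 ≤ C) (hsup : B.Supply ok T f0 C δ)
    {j0 : ℕ} (hj0 : Odd j0) {e : ℝ} (he : 0 < e) (hδ : 0 < δ) :
    ∃ (γs ηs : ℕ → ℕ) (xs : ℕ → X), γs 0 = 0 ∧
      ∀ r < nn j0, B.DepStep T f0 C δ e j0 (γs r) (xs r) (ηs r) (γs (r + 1)) := by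
  have hstep := fun (γ : {γ : ℕ // γ = 0 ∨ (γ ≠ 0 ∧ D.wt γ = j0 ∧ D.age γ < nn j0 ∧ Lam j0 ≤ γ)}) =>
    B.step_odd hD hf0 hC hsup hj0 he hδ γ.1 γ.2
  choose X' η' γ' h using hstep
  classical
  let F : ℕ → ℕ := fun γ =>
    if h : γ = 0 ∨ (γ ≠ 0 ∧ D.wt γ = j0 ∧ D.age γ < nn j0 ∧ Lam j0 ≤ γ) then γ' ⟨γ, h⟩ else 0
  let γs : ℕ → ℕ := fun r => Nat.rec 0 (fun _ m => F m) r
  have hγ0 : γs 0 = 0 := rfl
  have hγs : ∀ r, γs (r + 1) = F (γs r) := fun _ => rfl
  have hinv : ∀ r ≤ nn j0, (γs r = 0 ∧ r = 0) ∨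
      (γs r ≠ 0 ∧ D.wt (γs r) = j0 ∧ D.age (γs r) = r ∧ Lam j0 ≤ γs r) := by
    intro r
    induction r with
    | zero => intro _; left; exact ⟨rfl, rfl⟩
    | succ r ih =>
      intro hr
      right
      have hI : γs r = 0 ∨ (γs r ≠ 0 ∧ D.wt (γs r) = j0 ∧ D.age (γs r) < nn j0 ∧ Lam j0 ≤ γs r) := by
        rcases ih (by omega) with h | h
        · left; exact h.1
        · right; exact ⟨h.1, h.2.1, by omega, h.2.2.2⟩
      have hF : γs (r + 1) = γ' ⟨γs r, hI⟩ := by rw [hγs]; simp only [F]; rw [dif_pos hI]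
      rw [hF]
      have hh := h ⟨γs r, hI⟩
      refine ⟨hh.h6, hh.h8, ?_, ?_⟩
      · rw [hD.age_succ _ hh.h6, hh.h7]
        rcases ih (by omega) with h | h
        · change D.age (γs r) + 1 = _
          rw [h.1, hD.age_zero, h.2]
        · change D.age (γs r) + 1 = _
          rw [h.2.2.1]
      · have a1 := hh.h1
        have a2 := hh.h5
        omega
  have hI : ∀ r < nn j0, γs r = 0 ∨
      (γs r ≠ 0 ∧ D.wt (γs r) = j0 ∧ D.age (γs r) < nn j0 ∧ Lam j0 ≤ γs r) := by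
    intro r hr
    rcases hinv r hr.le with h | h
    · left; exact h.1
    · right; exact ⟨h.1, h.2.1, by omega, h.2.2.2⟩
  have hF : ∀ r (hr : r < nn j0), γs (r + 1) = γ' ⟨γs r, hI r hr⟩ := by
    intro r hr; rw [hγs]; simp only [F]; rw [dif_pos (hI r hr)]
  refine ⟨γs, fun r => if hr : r < nn j0 then η' ⟨γs r, hI r hr⟩ else 0,
    fun r => if hr : r < nn j0 then X' ⟨γs r, hI r hr⟩ else 0, hγ0, ?_⟩
  intro r hr
  simp only [dif_pos hr]
  rw [hF r hr]
  exact h ⟨γs r, hI r hr⟩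

/-- The estimates on a dependent sequence. -/
lemma dep_est (hD : D.Ok V ok) (hf0 : ‖f0‖ ≤ 1) (hC : 1 ≤ C) (hsup : B.Supply ok T f0 C δ)
    (hδ : 0 < δ) {j0 : ℕ} (hj0 : Odd j0) : δ ≤ ‖T‖ * (4400 * C) * β j0 := by
  have hC0 : 0 ≤ C := by linarith
  have hβ := β_pos j0
  have hβ1 := β_le_one j0
  have hn0 : 0 < nn j0 := nn_pos j0
  have hn : (0 : ℝ) < nn j0 := by exact_mod_cast hn0
  have hj0ne : j0 ≠ 0 := by rintro rfl; simp at hj0
  obtain ⟨e, he0, he1, he2⟩ : ∃ e : ℝ, 0 < e ∧ (nn j0 : ℝ) * e ≤ 1 ∧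
      11 * e + 3 * (e / β j0) ≤ δ / 4 := by
    refine ⟨min (1 / (nn j0 : ℝ)) (δ * β j0 / 56), by positivity, ?_, ?_⟩
    · have := min_le_left (1 / (nn j0 : ℝ)) (δ * β j0 / 56)
      calc (nn j0 : ℝ) * _ ≤ (nn j0 : ℝ) * (1 / (nn j0 : ℝ)) := by gcongr
        _ = 1 := by field_simp
    · have h1 := min_le_right (1 / (nn j0 : ℝ)) (δ * β j0 / 56)
      set m := min (1 / (nn j0 : ℝ)) (δ * β j0 / 56)
      have h2 : m / β j0 ≤ δ / 56 := by
        rw [div_le_iff₀ hβ]; linarith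
      have h3 : m ≤ δ / 56 := h1.trans (by nlinarith)
      linarith
  obtain ⟨γs, ηs, xs, hγ0, prop⟩ := B.dep_seq hD hf0 hC0 hsup hj0 he0 hδ
  have hlt : ∀ r < nn j0, γs r < γs (r + 1) := fun r hr => by
    have a1 := (prop r hr).h1
    have a2 := (prop r hr).h5
    omega
  have hmono : ∀ r r', r ≤ r' → r' ≤ nn j0 → γs r ≤ γs r' := by
    intro r r' hrr' hr'
    induction r' with
    | zero => have : r = 0 := by omega
              rw [this]
    | succ k ih =>
      rcases Nat.le_succ_iff.1 hrr' with h | h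
      · exact (ih h (by omega)).trans (hlt k (by omega)).le
      · rw [h]
  have hmonolt : ∀ r r', r < r' → r' ≤ nn j0 → γs r < γs r' := fun r r' h h' =>
    (hlt r (by omega)).trans_le (hmono (r + 1) r' h h')
  have hinj : ∀ r r', r ≤ nn j0 → r' ≤ nn j0 → γs r = γs r' → r = r' := by
    intro r r' h h' heq
    rcases lt_trichotomy r r' with h1 | h1 | h1
    · have := hmonolt r r' h1 h'; omega
    · exact h1
    · have := hmonolt r' r h1 h; omega
  have hLam : ∀ r < nn j0, γs r = 0 ∨ Lam j0 ≤ γs r := by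
    intro r hr
    cases r with
    | zero => left; exact hγ0
    | succ r =>
      right
      have a1 := (prop r (by omega)).h1
      have a2 := (prop r (by omega)).h5
      omega
  -- rapid sequence
  have hRV : ∀ k < nn j0, B.RV (12 * C) (γs k + 1) (ηs k) (xs k) := by
    intro k hk
    have pk := prop k hk
    refine ⟨by have := pk.h1; omega, B.P_of_P_zero pk.h2 (le_max_left _ _), pk.h3, pk.h10, ?_⟩
    intro γ hγ hw
    have hjw : D.wt γ < jw j0 (γs k) := lt_of_lt_of_le hw jw_gt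
    have := pk.h11 γ hγ 0 hjw.ne
    rw [B.P_zero' hD, sub_zero, min_eq_left hjw.le] at this
    exact this
  have hseq : B.RSeq (12 * C) (nn j0) (fun k => γs k + 1) ηs xs := by
    refine ⟨hRV, fun k l hkl hl => ?_⟩
    have a1 := (prop k (by omega)).h5
    have a2 := hmono (k + 1) l hkl hl.le
    change ηs k ≤ γs l + 1
    omega
  have hC12 : (0:ℝ) ≤ 12 * C := by positivity
  obtain ⟨S, hS⟩ : ∃ S, S = Finset.range (nn j0) := ⟨_, rfl⟩
  have hSlt : ∀ k ∈ S, k < nn j0 := fun k hk => by rw [hS] at hk; exact Finset.mem_range.1 hk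
  have hScard : S.card = nn j0 := by rw [hS]; exact Finset.card_range _
  have hchain : ∀ r < nn j0, γs (r + 1) ≠ 0 ∧ D.par (γs (r + 1)) = γs r ∧
      D.wt (γs (r + 1)) = j0 := fun r hr => ⟨(prop r hr).h6, (prop r hr).h7, (prop r hr).h8⟩
  -- small number
  obtain ⟨κ, hκ⟩ : ∃ κ : ℝ, κ = 12 * C * β (Lam j0) := ⟨_, rfl⟩
  have hκ0 : 0 ≤ κ := by rw [hκ]; have := β_pos (Lam j0); positivity
  have hκn : 2 * ((nn j0 : ℝ) * (nn j0 : ℝ)) * κ ≤ 12 * C := by
    have h1 : β (Lam j0) * (Lam j0 : ℝ) ≤ 1 := β_lt_inv _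
    have h2 : (Lam j0 : ℝ) = 2 * (nn j0 : ℝ) ^ 2 := by unfold Lam; push_cast; ring
    rw [h2] at h1
    rw [hκ]
    calc _ = 12 * C * (β (Lam j0) * (2 * (nn j0 : ℝ) ^ 2)) := by ring
      _ ≤ 12 * C * 1 := by gcongr
      _ = _ := mul_one _
  -- special estimate, on the chain
  have hA : ∀ S' ⊆ S, ∀ m ≤ nn j0, ‖B.co (γs m) (∑ k ∈ S', xs k)‖ ≤ 12 * C := by
    intro S' hS' m hm
    classical
    obtain ⟨ys, hys⟩ : ∃ ys : ℕ → X, ∀ r, ys r = if r ∈ S' then xs r else 0 := ⟨_, fun _ => rfl⟩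
    have e1 : ∑ k ∈ S', xs k = ∑ k ∈ Finset.range (nn j0), ys k := by
      rw [← hS, ← Finset.sum_subset hS']
      · refine Finset.sum_congr rfl fun k hk => by rw [hys, if_pos hk]
      · intro k _ hk; rw [hys, if_neg hk]
    have hev := B.chain_eval hD (n := nn j0) (w := j0) (ξ := γs) (y := ys) hγ0 hchain
      (fun r hr => by
        rw [hys]
        split_ifs
        · exact ⟨B.P_of_P_zero (prop r hr).h2 (le_max_left _ _),
            B.P_of_P_eq (prop r hr).h3 (prop r hr).h5.le⟩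
        · simp) m hm
    rw [e1, hev]
    calc _ ≤ ∑ r ∈ Finset.range m, ‖(β j0 : 𝕜) • B.fn (γs (r + 1)) (ys r)‖ := norm_sum_le _ _
      _ ≤ ∑ r ∈ Finset.range m, e := Finset.sum_le_sum fun r hr => by
          have hr' : r < nn j0 := lt_of_lt_of_le (Finset.mem_range.1 hr) hm
          rw [norm_smul, norm_realK, Real.norm_eq_abs, abs_of_pos hβ]
          have : ‖B.fn (γs (r + 1)) (ys r)‖ ≤ e := by
            rw [hys]
            split_ifs
            · rw [(prop r hr').h17, B.P_of_P_zero (prop r hr').h2 (le_max_left _ _), sub_zero]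
              exact (prop r hr').h13
            · rw [fn_zero, norm_zero]; exact he0.le
          nlinarith
      _ = (m : ℝ) * e := by rw [Finset.sum_const, Finset.card_range, nsmul_eq_mul]
      _ ≤ (nn j0 : ℝ) * e := by gcongr
      _ ≤ 1 := he1
      _ ≤ 12 * C := by linarith
  -- special estimate
  have hB : ∀ S' ⊆ S, ∀ γ, γ ≠ 0 → D.wt γ = j0 → ‖B.co γ (∑ k ∈ S', xs k)‖ ≤
      4 * (12 * C) + (D.age γ : ℝ) * (2 * (nn j0 : ℝ) * κ) := by
    intro S' hS' γ
    induction γ using Nat.strong_induction_on with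
    | _ γ ih =>
      intro hγ hw
      have hodd : Odd (D.wt γ) := by rw [hw]; exact hj0
      by_cases hch : ∃ m ≤ nn j0, γ = γs m
      · obtain ⟨m, hm, rfl⟩ := hch
        refine (hA S' hS' m hm).trans ?_
        have : 0 ≤ (D.age (γs m) : ℝ) * (2 * (nn j0 : ℝ) * κ) := by positivity
        linarith
      · obtain ⟨o1, o2, o3⟩ := hD.odd_A γ hγ hodd
        obtain ⟨o4, o5⟩ := hD.odd_Lam γ hγ hodd
        rw [hw] at o4
        have hfnγ : ∀ y, B.fn γ y = B.co (D.η γ 0) (y - B.P (D.par γ + 1) y) := by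
          intro y; unfold fn; rw [Fin.sum_univ_two, o1, o2, o3]; simp
        have hS'card : (S'.card : ℝ) ≤ nn j0 := by
          rw [← hScard]; exact_mod_cast Finset.card_le_card hS'
        have hdd : ‖B.dd γ (∑ k ∈ S', xs k)‖ ≤ (nn j0 : ℝ) * κ := by
          rw [dd_sum]
          calc _ ≤ ∑ k ∈ S', ‖B.dd γ (xs k)‖ := norm_sum_le _ _
            _ ≤ ∑ k ∈ S', κ := Finset.sum_le_sum fun k hk => by
                have hk' := hSlt k (hS' hk)
                refine ((prop k hk').h12 γ).trans ?_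
                rw [hκ]
                have := β_anti (jw_ge (hLam k hk'))
                gcongr
            _ = (S'.card : ℝ) * κ := by rw [Finset.sum_const, nsmul_eq_mul]
            _ ≤ _ := by gcongr
        have hterm : ∀ k ∈ S', D.wt (D.η γ 0) ≠ jw j0 (γs k) →
            ‖B.co (D.η γ 0) (xs k - B.P (D.par γ + 1) (xs k))‖ ≤ κ := by
          intro k hk hne
          have hk' := hSlt k (hS' hk)
          refine ((prop k hk').h11 _ o5 _ hne).trans ?_
          rw [hκ]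
          have := β_anti (le_min o4 (jw_ge (hLam k hk')))
          gcongr
        have hco_eq := B.co_eq γ (∑ k ∈ S', xs k) hγ
        have hbound : ∀ M, ‖B.fn γ (∑ k ∈ S', xs k)‖ ≤ M → ‖B.co γ (∑ k ∈ S', xs k)‖ ≤
            ‖B.co (D.par γ) (∑ k ∈ S', xs k)‖ + M + (nn j0 : ℝ) * κ := by
          intro M hM
          rw [hco_eq]
          refine norm_add₃_le.trans ?_
          gcongr
          rw [norm_smul, norm_realK, Real.norm_eq_abs, abs_of_pos (β_pos _)]
          have := β_le_one (D.wt γ)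
          have h0 := norm_nonneg (B.fn γ (∑ k ∈ S', xs k))
          nlinarith
        have hage := hD.age_succ γ hγ
        by_cases hpar : ∃ m < nn j0, D.par γ = γs m
        · obtain ⟨m, hm, hpm⟩ := hpar
          -- at most one index with the same weight
          have hfnb : ‖B.fn γ (∑ k ∈ S', xs k)‖ ≤ 3 * (12 * C) + (nn j0 : ℝ) * κ := by
            rw [hfnγ]
            have e1 : B.co (D.η γ 0) (∑ k ∈ S', xs k - B.P (D.par γ + 1) (∑ k ∈ S', xs k)) =
                ∑ k ∈ S', B.co (D.η γ 0) (xs k - B.P (D.par γ + 1) (xs k)) := by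
              simp only [map_sub, map_sum, Finset.sum_sub_distrib]
            rw [e1, ← Finset.sum_filter_add_sum_filter_not S'
              (fun k => D.wt (D.η γ 0) = jw j0 (γs k))]
            refine (norm_add_le _ _).trans (add_le_add ?_ ?_)
            · refine norm_sum_le_of_unique _ _ _ (by positivity) ?_ ?_
              · intro k hk
                rw [Finset.mem_filter] at hk
                refine (B.norm_co _ _).trans ((B.norm_sub_P _ _).trans ?_)
                have := (prop k (hSlt k (hS' hk.1))).h10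
                linarith
              · intro k hk l hl hkl _ _
                rw [Finset.mem_filter] at hk hl
                have h1 := jw_inj (hk.2.symm.trans hl.2)
                have h2 := hinj k l (hSlt k (hS' hk.1)).le (hSlt l (hS' hl.1)).le h1
                omega
            · calc _ ≤ ∑ k ∈ S'.filter (fun k => ¬ D.wt (D.η γ 0) = jw j0 (γs k)),
                    ‖B.co (D.η γ 0) (xs k - B.P (D.par γ + 1) (xs k))‖ := norm_sum_le _ _
                _ ≤ ∑ k ∈ S'.filter (fun k => ¬ D.wt (D.η γ 0) = jw j0 (γs k)), κ :=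
                    Finset.sum_le_sum fun k hk => by
                      rw [Finset.mem_filter] at hk
                      exact hterm k hk.1 hk.2
                _ = ((S'.filter (fun k => ¬ D.wt (D.η γ 0) = jw j0 (γs k))).card : ℝ) * κ := by
                    rw [Finset.sum_const, nsmul_eq_mul]
                _ ≤ (S'.card : ℝ) * κ := by
                    gcongr
                    exact Finset.filter_subset _ _
                _ ≤ _ := by gcongr
          have h1 := hbound _ hfnb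
          have h2 := hA S' hS' m hm.le
          rw [hpm] at h1
          have h3 : (1 : ℝ) ≤ (D.age γ : ℝ) := by
            rw [hage]; push_cast; have : (0:ℝ) ≤ (D.age (D.par γ) : ℝ) := Nat.cast_nonneg _
            linarith
          have h4 : 1 * (2 * (nn j0 : ℝ) * κ) ≤ (D.age γ : ℝ) * (2 * (nn j0 : ℝ) * κ) := by
            gcongr
          linarith
        · push Not at hpar
          have hp0 : D.par γ ≠ 0 := by
            intro h0; exact hpar 0 hn0 (by rw [h0, hγ0])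
          have hwη := hD.odd_next γ hγ hodd hp0
          have hfnb : ‖B.fn γ (∑ k ∈ S', xs k)‖ ≤ (nn j0 : ℝ) * κ := by
            rw [hfnγ]
            have e1 : B.co (D.η γ 0) (∑ k ∈ S', xs k - B.P (D.par γ + 1) (∑ k ∈ S', xs k)) =
                ∑ k ∈ S', B.co (D.η γ 0) (xs k - B.P (D.par γ + 1) (xs k)) := by
              simp only [map_sub, map_sum, Finset.sum_sub_distrib]
            rw [e1]
            calc _ ≤ ∑ k ∈ S', ‖B.co (D.η γ 0) (xs k - B.P (D.par γ + 1) (xs k))‖ :=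
                  norm_sum_le _ _
              _ ≤ ∑ k ∈ S', κ := Finset.sum_le_sum fun k hk => by
                  apply hterm k hk
                  rw [hwη]
                  intro heq
                  have hk' := hSlt k (hS' hk)
                  have h5 := hpar k hk'
                  unfold jw at heq
                  split_ifs at heq <;> omega
              _ = (S'.card : ℝ) * κ := by rw [Finset.sum_const, nsmul_eq_mul]
              _ ≤ _ := by gcongr
          have h1 := hbound _ hfnb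
          have h2 := ih _ (hD.par_lt γ hγ) hp0 ((hD.wt_par γ hγ hp0).trans hw)
          rw [hage]
          push_cast
          linarith
  have hspecial : ∀ S' ⊆ S, ∀ γ, γ ≠ 0 → D.wt γ = j0 →
      ‖B.co γ (∑ k ∈ S', xs k)‖ ≤ 5 * (12 * C) := by
    intro S' hS' γ hγ hw
    refine (hB S' hS' γ hγ hw).trans ?_
    have hage : (D.age γ : ℝ) ≤ nn j0 := by
      have := hD.age_le γ hγ; rw [hw] at this; exact_mod_cast this
    have : (D.age γ : ℝ) * (2 * (nn j0 : ℝ) * κ) ≤ (nn j0 : ℝ) * (2 * (nn j0 : ℝ) * κ) := by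
      gcongr
    linarith
  have hupper := hseq.upper' hD hC12 hSlt (C1 := 5 * (12 * C)) (by linarith) hj0ne hScard.le hspecial
  -- lower estimate
  obtain ⟨zs, hzs⟩ : ∃ zs : ℕ → X, ∀ r, zs r = B.P (γs (r + 1)) (T (xs r)) -
      B.P (γs r + 1) (T (xs r)) := ⟨_, fun _ => rfl⟩
  have hz1 : ∀ r < nn j0, B.P (γs r + 1) (zs r) = 0 ∧ B.P (γs (r + 1)) (zs r) = zs r := by
    intro r hr
    have := hlt r hr
    constructor
    · rw [hzs, map_sub, B.P_P, B.P_P, min_self, min_eq_left (by omega), sub_self]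
    · rw [hzs, map_sub, B.P_P, B.P_P, min_self, min_eq_right (by omega)]
  have hz2 : ∀ r < nn j0, ‖T (xs r) - zs r‖ ≤ 3 * e := by
    intro r hr
    have a1 := (prop r hr).h16
    have a2 := (prop r hr).h15
    have a5 : T (xs r) - zs r = (T (xs r) - B.P (γs (r + 1)) (T (xs r))) +
        B.P (γs r + 1) (T (xs r)) := by rw [hzs]; abel
    rw [a5]
    refine (norm_add_le _ _).trans ?_
    linarith
  have hev := B.chain_eval hD (n := nn j0) (w := j0) (ξ := γs) (y := zs) hγ0 hchain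
    hz1 (nn j0) le_rfl
  rw [← hS] at hev
  have hTY : T (∑ k ∈ S, xs k) = ∑ r ∈ S, zs r + ∑ r ∈ S, (T (xs r) - zs r) := by
    rw [map_sum, ← Finset.sum_add_distrib]
    refine Finset.sum_congr rfl fun r _ => by abel
  have herr : ‖∑ r ∈ S, (T (xs r) - zs r)‖ ≤ (nn j0 : ℝ) * (3 * e) := by
    calc _ ≤ ∑ r ∈ S, ‖T (xs r) - zs r‖ := norm_sum_le _ _
      _ ≤ ∑ r ∈ S, 3 * e := Finset.sum_le_sum fun r hr => hz2 r (hSlt r hr)
      _ = _ := by rw [Finset.sum_const, nsmul_eq_mul, hScard]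
  have hmain : (nn j0 : ℝ) * (β j0 * (δ / 2 - 11 * e)) ≤
      (RCLike.re (f0 (B.co (γs (nn j0)) (∑ r ∈ S, zs r)))) := by
    rw [hev, map_sum, re_sumK]
    have : (nn j0 : ℝ) * (β j0 * (δ / 2 - 11 * e)) = ∑ r ∈ S, β j0 * (δ / 2 - 11 * e) := by
      rw [Finset.sum_const, hScard, nsmul_eq_mul]
    rw [this]
    refine Finset.sum_le_sum fun r hr => ?_
    have hr' := hSlt r hr
    rw [map_smul, smul_eq_mul, re_ofReal_mulK]
    gcongr
    have a1 := (prop r hr').h14
    have a2 : B.fn (γs (r + 1)) (zs r) = B.fn (γs (r + 1)) (T (xs r)) -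
        B.fn (γs (r + 1)) (T (xs r) - zs r) := by rw [← fn_sub]; congr 1; abel
    rw [a2, map_sub, sub_reK]
    have a3 : ‖B.fn (γs (r + 1)) (T (xs r) - zs r)‖ ≤ 9 * e := by
      refine (B.norm_fn hD (prop r hr').h6 _).trans ?_
      have := hz2 r hr'
      linarith
    have a4 := (abs_le.1 (re_f0_le hf0 (B.fn (γs (r + 1)) (T (xs r) - zs r)))).2
    linarith
  have h2 := (abs_le.1 (re_f0_le hf0 (B.co (γs (nn j0)) (∑ r ∈ S, (T (xs r) - zs r))))).1
  have h3 := (B.norm_co (γs (nn j0)) (∑ r ∈ S, (T (xs r) - zs r))).trans herr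
  have h5 : (RCLike.re (f0 (B.co (γs (nn j0)) (T (∑ k ∈ S, xs k))))) ≤
      ‖T‖ * (9 * (5 * (12 * C)) * β j0 ^ 2 * (nn j0 : ℝ)) := by
    refine (le_abs_self _).trans ((re_f0_le hf0 _).trans ((B.norm_co _ _).trans
      ((T.le_opNorm _).trans ?_)))
    gcongr
  rw [hTY, map_add, map_add, add_reK] at h5
  have h6 : (nn j0 : ℝ) * (β j0 * (δ / 2 - 11 * e)) - (nn j0 : ℝ) * (3 * e) ≤
      ‖T‖ * (9 * (5 * (12 * C)) * β j0 ^ 2 * (nn j0 : ℝ)) := by linarith
  have h7 : (nn j0 : ℝ) * (β j0 * (δ / 2 - 11 * e)) - (nn j0 : ℝ) * (3 * e) =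
      (nn j0 : ℝ) * β j0 * ((δ / 2 - 11 * e) - 3 * (e / β j0)) := by
    field_simp
  have h8 : (nn j0 : ℝ) * β j0 * (δ / 4) ≤
      (nn j0 : ℝ) * β j0 * (‖T‖ * (540 * C) * β j0) := by
    have h81 : δ / 4 ≤ (δ / 2 - 11 * e) - 3 * (e / β j0) := by linarith
    have h82 : (nn j0 : ℝ) * β j0 * (δ / 4) ≤
        (nn j0 : ℝ) * β j0 * ((δ / 2 - 11 * e) - 3 * (e / β j0)) :=
      mul_le_mul_of_nonneg_left h81 (by positivity)
    rw [← h7] at h82
    refine h82.trans (h6.trans (le_of_eq ?_))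
    ring
  have h9 := le_of_mul_le_mul_left h8 (by positivity)
  have h10 : 0 ≤ ‖T‖ * C * β j0 := by positivity
  nlinarith

/-- No bounded operator admits a supply of bad vectors. -/
theorem no_supply (hD : D.Ok V ok) (hf0 : ‖f0‖ ≤ 1) (hδ : 0 < δ)
    (hsup : B.Supply ok T f0 C δ) : False := by
  have hsup' : B.Supply ok T f0 (max C 1) δ := by
    intro N ε hε
    obtain ⟨p, q, x, s, η, A, h1, h2, h3⟩ := hsup N ε hε
    exact ⟨p, q, x, s, η, A, h1, h2.mono (le_max_left _ _), h3⟩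
  have hall : ∀ j, Odd j → δ ≤ ‖T‖ * (4400 * max C 1) * β j := fun j hj =>
    B.dep_est hD hf0 (le_max_right _ _) hsup' hδ hj
  have hlim : Tendsto (fun k : ℕ => ‖T‖ * (4400 * max C 1) * β (2 * k + 1)) atTop
      (𝓝 (‖T‖ * (4400 * max C 1) * 0)) := by
    refine Tendsto.const_mul _ (tendsto_β.comp ?_)
    exact tendsto_atTop_mono (fun k => (by omega : k ≤ 2 * k + 1)) tendsto_id
  rw [mul_zero] at hlim
  have := ge_of_tendsto hlim (Eventually.of_forall fun k => hall (2 * k + 1) ⟨k, rfl⟩)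
  linarith

end BD

end Pool.Agent.KS6_69.CB
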