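import Pool.Agent.KS6_69.CB.Defs

/-! Existence of the node data. -/

namespace Pool.Agent.KS6_69.CB

open Filter Topology

variable {𝕜 : Type*} [RCLike 𝕜] {E : Type*} [NormedAddCommGroup E] [NormedSpace 𝕜 E]

/-- The record of one node. -/
structure NodeRec (𝕜 : Type*) [RCLike 𝕜] (E : Type*) [NormedAddCommGroup E] [NormedSpace 𝕜 E] where
  par : ℕ
  wt : ℕ
  age : ℕ
  s : Fin 2 → ℕ
  η : Fin 2 → ℕ
  A : Fin 2 → (E →L[𝕜] E)

/-- Requests of even weight. -/
structure ReqE (𝔸 : Type*) where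
  j : ℕ
  ξ : ℕ
  s : Fin 2 → ℕ
  η : Fin 2 → ℕ
  A : Fin 2 → 𝔸

/-- Requests of odd weight. -/
structure ReqO where
  j : ℕ
  ξ : ℕ
  η : ℕ

instance {𝔸 : Type*} [Countable 𝔸] : Countable (ReqE 𝔸) := by
  let f : ReqE 𝔸 → ℕ × ℕ × (Fin 2 → ℕ) × (Fin 2 → ℕ) × (Fin 2 → 𝔸) :=
    fun r => (r.j, r.ξ, r.s, r.η, r.A)
  have hf : Function.Injective f := by
    intro a b h
    simp only [f, Prod.mk.injEq] at h
    obtain ⟨h1, h2, h3, h4, h5⟩ := h
    cases a; cases b; simp_all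
  exact hf.countable

instance : Countable ReqO := by
  let f : ReqO → ℕ × ℕ × ℕ := fun r => (r.j, r.ξ, r.η)
  have hf : Function.Injective f := by
    intro a b h
    simp only [f, Prod.mk.injEq] at h
    obtain ⟨h1, h2, h3⟩ := h
    cases a; cases b; simp_all
  exact hf.countable

/-- The default node. -/
noncomputable def defNode (𝕜 : Type*) [RCLike 𝕜] (E : Type*) [NormedAddCommGroup E] [NormedSpace 𝕜 E] (γ : ℕ) :
    NodeRec 𝕜 E where
  par := 0
  wt := 2 * (γ / 2)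
  age := if γ = 0 then 0 else 1
  s := fun _ => 1
  η := fun _ => 0
  A := fun _ => 0

section

variable (V : ℕ → Submodule 𝕜 E) (ok : ℕ → (E →L[𝕜] E) → Prop)

/-- the predecessor condition -/
def predOK (prev : ℕ → NodeRec 𝕜 E) (j ξ : ℕ) : Prop :=
  ξ = 0 ∨ (ξ ≠ 0 ∧ (prev ξ).wt = j ∧ (prev ξ).age < nn j)

/-- validity of an even request -/
def validE (γ : ℕ) (prev : ℕ → NodeRec 𝕜 E) {𝔸 : Set (E →L[𝕜] E)} (r : ReqE 𝔸) : Prop :=
  Even r.j ∧ r.j ≤ γ ∧ γ ≠ 0 ∧ r.ξ < γ ∧ predOK prev r.j r.ξ ∧ (∀ i, r.ξ < r.s i) ∧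
  (∀ i, r.η i < γ) ∧ (∀ i, ok (r.η i) (r.A i : E →L[𝕜] E)) ∧
  ‖(r.A 0 : E →L[𝕜] E)‖ + ‖(r.A 1 : E →L[𝕜] E)‖ ≤ 1 ∧
  (∀ i, ∀ v ∈ V (r.η i), (r.A i : E →L[𝕜] E) v ∈ V γ)

/-- validity of an odd request -/
def validO (γ : ℕ) (prev : ℕ → NodeRec 𝕜 E) (r : ReqO) : Prop :=
  Odd r.j ∧ r.j ≤ γ ∧ γ ≠ 0 ∧ r.ξ < r.η ∧ r.η < γ ∧ predOK prev r.j r.ξ ∧
  Lam r.j ≤ (prev r.η).wt ∧ (r.ξ = 0 → (prev r.η).wt % 4 = 2) ∧
  (r.ξ ≠ 0 → (prev r.η).wt = 4 * r.ξ + 4)

open Classical in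
/-- the age given by the predecessor -/
noncomputable def newAge (prev : ℕ → NodeRec 𝕜 E) (ξ : ℕ) : ℕ :=
  (if ξ = 0 then 0 else (prev ξ).age) + 1

open Classical in
/-- one step of the construction -/
noncomputable def stepNode {𝔸 : Set (E →L[𝕜] E)} (γ : ℕ) (prev : ℕ → NodeRec 𝕜 E) :
    (ReqE 𝔸 ⊕ ReqO) → NodeRec 𝕜 E
  | Sum.inl r => if validE V ok γ prev r then
      ⟨r.ξ, r.j, newAge prev r.ξ, r.s, r.η, fun i => r.A i⟩ else defNode 𝕜 E γ
  | Sum.inr r => if validO γ prev r then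
      ⟨r.ξ, r.j, newAge prev r.ξ, fun _ => r.ξ + 1, fun _ => r.η,
        ![ContinuousLinearMap.id 𝕜 E, 0]⟩ else defNode 𝕜 E γ

lemma stepNode_inl {𝔸 : Set (E →L[𝕜] E)} (γ : ℕ) (prev : ℕ → NodeRec 𝕜 E) (r : ReqE 𝔸)
    (hv : validE V ok γ prev r) : stepNode V ok γ prev (Sum.inl r) =
      ⟨r.ξ, r.j, newAge prev r.ξ, r.s, r.η, fun i => r.A i⟩ := by
  simp only [stepNode, if_pos hv]

lemma stepNode_inl' {𝔸 : Set (E →L[𝕜] E)} (γ : ℕ) (prev : ℕ → NodeRec 𝕜 E) (r : ReqE 𝔸)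
    (hv : ¬ validE V ok γ prev r) : stepNode V ok γ prev (Sum.inl r) = defNode 𝕜 E γ := by
  simp only [stepNode, if_neg hv]

lemma stepNode_inr {𝔸 : Set (E →L[𝕜] E)} (γ : ℕ) (prev : ℕ → NodeRec 𝕜 E) (r : ReqO)
    (hv : validO γ prev r) : stepNode (𝔸 := 𝔸) V ok γ prev (Sum.inr r) =
      ⟨r.ξ, r.j, newAge prev r.ξ, fun _ => r.ξ + 1, fun _ => r.η,
        ![ContinuousLinearMap.id 𝕜 E, 0]⟩ := by
  simp only [stepNode, if_pos hv]

lemma stepNode_inr' {𝔸 : Set (E →L[𝕜] E)} (γ : ℕ) (prev : ℕ → NodeRec 𝕜 E) (r : ReqO)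
    (hv : ¬ validO γ prev r) : stepNode (𝔸 := 𝔸) V ok γ prev (Sum.inr r) = defNode 𝕜 E γ := by
  simp only [stepNode, if_neg hv]

/-- The nodes. -/
noncomputable def node {𝔸 : Set (E →L[𝕜] E)} (req : ℕ → ReqE 𝔸 ⊕ ReqO) (γ : ℕ) : NodeRec 𝕜 E :=
  stepNode V ok γ (fun δ => if _h : δ < γ then node req δ else defNode 𝕜 E δ) (req γ)
termination_by γ
decreasing_by exact _h

variable {V ok}

lemma node_eq {𝔸 : Set (E →L[𝕜] E)} (req : ℕ → ReqE 𝔸 ⊕ ReqO) (γ : ℕ) :
    ∃ prev : ℕ → NodeRec 𝕜 E, (∀ δ < γ, prev δ = node V ok req δ) ∧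
      node V ok req γ = stepNode V ok γ prev (req γ) := by
  refine ⟨fun δ => if _h : δ < γ then node V ok req δ else defNode 𝕜 E δ, fun δ hδ => dif_pos hδ, ?_⟩
  rw [node]

/-- The three kinds of nodes. -/
lemma node_cases {𝔸 : Set (E →L[𝕜] E)} (req : ℕ → ReqE 𝔸 ⊕ ReqO) (γ : ℕ) :
    node V ok req γ = defNode 𝕜 E γ ∨
    (∃ r : ReqE 𝔸, validE V ok γ (node V ok req) r ∧
      node V ok req γ = ⟨r.ξ, r.j, newAge (node V ok req) r.ξ, r.s, r.η, fun i => r.A i⟩) ∨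
    (∃ r : ReqO, validO γ (node V ok req) r ∧
      node V ok req γ = ⟨r.ξ, r.j, newAge (node V ok req) r.ξ, fun _ => r.ξ + 1, fun _ => r.η,
        ![ContinuousLinearMap.id 𝕜 E, 0]⟩) := by
  obtain ⟨prev, h1, h2⟩ := node_eq (V := V) (ok := ok) req γ
  rw [h2]
  match req γ with
  | Sum.inl r =>
    by_cases hv : validE V ok γ prev r
    · right; left
      rw [stepNode_inl V ok γ prev r hv]
      have hξ := h1 _ hv.2.2.2.1
      refine ⟨r, ?_, ?_⟩
      · unfold validE predOK at hv ⊢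
        rw [hξ] at hv; exact hv
      · unfold newAge; rw [hξ]
    · left; rw [stepNode_inl' V ok γ prev r hv]
  | Sum.inr r =>
    by_cases hv : validO γ prev r
    · right; right
      rw [stepNode_inr V ok γ prev r hv]
      have hη := h1 r.η hv.2.2.2.2.1
      have hξ := h1 r.ξ (hv.2.2.2.1.trans hv.2.2.2.2.1)
      refine ⟨r, ?_, ?_⟩
      · unfold validO predOK at hv ⊢
        rw [hξ, hη] at hv; exact hv
      · unfold newAge; rw [hξ]
    · left; rw [stepNode_inr' V ok γ prev r hv]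

lemma node_of_validE {𝔸 : Set (E →L[𝕜] E)} (req : ℕ → ReqE 𝔸 ⊕ ReqO) (γ : ℕ) (r : ReqE 𝔸)
    (hr : req γ = Sum.inl r) (hv : validE V ok γ (node V ok req) r) :
    node V ok req γ = ⟨r.ξ, r.j, newAge (node V ok req) r.ξ, r.s, r.η, fun i => r.A i⟩ := by
  obtain ⟨prev, h1, h2⟩ := node_eq (V := V) (ok := ok) req γ
  have hξ := h1 _ hv.2.2.2.1
  rw [h2, hr, stepNode_inl]
  · unfold newAge; rw [hξ]
  · unfold validE predOK at hv ⊢
    rw [hξ]; exact hv

lemma node_of_validO {𝔸 : Set (E →L[𝕜] E)} (req : ℕ → ReqE 𝔸 ⊕ ReqO) (γ : ℕ) (r : ReqO)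
    (hr : req γ = Sum.inr r) (hv : validO γ (node V ok req) r) :
    node V ok req γ = ⟨r.ξ, r.j, newAge (node V ok req) r.ξ, fun _ => r.ξ + 1, fun _ => r.η,
        ![ContinuousLinearMap.id 𝕜 E, 0]⟩ := by
  obtain ⟨prev, h1, h2⟩ := node_eq (V := V) (ok := ok) req γ
  have hη := h1 r.η hv.2.2.2.2.1
  have hξ := h1 r.ξ (hv.2.2.2.1.trans hv.2.2.2.2.1)
  rw [h2, hr, stepNode_inr]
  · unfold newAge; rw [hξ]
  · unfold validO predOK at hv ⊢
    rw [hξ, hη]; exact hv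

lemma node_zero {𝔸 : Set (E →L[𝕜] E)} (req : ℕ → ReqE 𝔸 ⊕ ReqO) :
    node V ok req 0 = defNode 𝕜 E 0 := by
  rcases node_cases (V := V) (ok := ok) req 0 with h | ⟨r, hv, -⟩ | ⟨r, hv, -⟩
  · exact h
  · exact absurd rfl hv.2.2.1
  · exact absurd rfl hv.2.2.1

end

/-- Existence of node data. -/
theorem exists_nodes (V : ℕ → Submodule 𝕜 E) (hmono : Monotone V)
    (ok : ℕ → (E →L[𝕜] E) → Prop) (hcount : ∀ η, {A | ok η A}.Countable)
    (ok_zero : ∀ η, ok η 0) (ok_id : ∀ η, ok η (ContinuousLinearMap.id 𝕜 E)) :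
    ∃ D : Nodes 𝕜 E, D.Ok V ok := by
  classical
  let 𝔸 : Set (E →L[𝕜] E) := ⋃ η, {A | ok η A}
  have h𝔸 : 𝔸.Countable := Set.countable_iUnion hcount
  have : Countable 𝔸 := h𝔸.to_subtype
  have hz : (0 : E →L[𝕜] E) ∈ 𝔸 := Set.mem_iUnion.2 ⟨0, ok_zero 0⟩
  have : Nonempty ((ReqE 𝔸 ⊕ ReqO) × ℕ) := ⟨(Sum.inr ⟨0, 0, 0⟩, 0)⟩
  obtain ⟨f, hf⟩ := exists_surjective_nat ((ReqE 𝔸 ⊕ ReqO) × ℕ)
  let req : ℕ → ReqE 𝔸 ⊕ ReqO := fun n => (f n).1
  have hreq : ∀ r : ReqE 𝔸 ⊕ ReqO, ∀ N, ∃ n, N ≤ n ∧ req n = r := by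
    intro r N
    by_contra hcon
    push Not at hcon
    have hinj : ∀ k : ℕ, ∃ n, n < N ∧ f n = (r, k) := fun k => by
      obtain ⟨n, hn⟩ := hf (r, k)
      refine ⟨n, ?_, hn⟩
      by_contra hN
      exact hcon n (not_lt.1 hN) (by simp only [req, hn])
    choose g hg1 hg2 using hinj
    have hginj : Function.Injective g := by
      intro a b hab
      have h1 := hg2 a
      have h2 := hg2 b
      rw [hab, h2] at h1
      exact (Prod.ext_iff.1 h1).2.symm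
    have hfin : (Set.range g).Finite := (Set.finite_lt_nat N).subset (by
      rintro _ ⟨k, rfl⟩; exact hg1 k)
    exact Set.infinite_range_of_injective hginj hfin
  let nd := node V ok req
  let D : Nodes 𝕜 E :=
    { par := fun γ => (nd γ).par
      wt := fun γ => (nd γ).wt
      age := fun γ => (nd γ).age
      s := fun γ => (nd γ).s
      η := fun γ => (nd γ).η
      A := fun γ => (nd γ).A }
  have hcases := node_cases (V := V) (ok := ok) req
  have h0 : nd 0 = defNode 𝕜 E 0 := node_zero req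
  have hage0 : (nd 0).age = 0 := by rw [h0]; simp [defNode]
  have hnewAge : ∀ ξ, newAge nd ξ = (nd ξ).age + 1 := by
    intro ξ; unfold newAge
    split_ifs with h
    · rw [h, hage0]
    · rfl
  refine ⟨D, ?_⟩
  constructor
  · -- par_lt
    intro γ hγ
    change (nd γ).par < γ
    rcases hcases γ with h | ⟨r, hv, h⟩ | ⟨r, hv, h⟩
    · simp only [nd]; rw [h]; simp only [defNode]; omega
    · simp only [nd]; rw [h]; exact hv.2.2.2.1
    · simp only [nd]; rw [h]; exact hv.2.2.2.1.trans hv.2.2.2.2.1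
  · -- wt_par
    intro γ hγ hp
    change (nd (nd γ).par).wt = (nd γ).wt
    change (nd γ).par ≠ 0 at hp
    rcases hcases γ with h | ⟨r, hv, h⟩ | ⟨r, hv, h⟩
    · simp only [nd] at hp; rw [h] at hp; simp [defNode] at hp
    · simp only [nd] at hp ⊢; rw [h] at hp ⊢
      rcases hv.2.2.2.2.1 with h' | h'
      · exact absurd h' hp
      · exact h'.2.1
    · simp only [nd] at hp ⊢; rw [h] at hp ⊢
      rcases hv.2.2.2.2.2.1 with h' | h'
      · exact absurd h' hp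
      · exact h'.2.1
  · -- wt_le
    intro γ hγ
    change (nd γ).wt ≤ γ
    rcases hcases γ with h | ⟨r, hv, h⟩ | ⟨r, hv, h⟩
    · simp only [nd]; rw [h]; simp only [defNode]; omega
    · simp only [nd]; rw [h]; exact hv.2.1
    · simp only [nd]; rw [h]; exact hv.2.1
  · exact hage0
  · -- age_succ
    intro γ hγ
    change (nd γ).age = (nd (nd γ).par).age + 1
    rcases hcases γ with h | ⟨r, hv, h⟩ | ⟨r, hv, h⟩
    · have h' : nd γ = defNode 𝕜 E γ := h
      rw [h']; simp only [defNode]; rw [hage0, if_neg hγ]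
    · have h' : nd γ = _ := h
      rw [h']; exact hnewAge _
    · have h' : nd γ = _ := h
      rw [h']; exact hnewAge _
  · -- age_le
    intro γ hγ
    change (nd γ).age ≤ nn (nd γ).wt
    rcases hcases γ with h | ⟨r, hv, h⟩ | ⟨r, hv, h⟩
    · have h' : nd γ = defNode 𝕜 E γ := h
      rw [h']; simp only [defNode]; rw [if_neg hγ]; exact nn_pos _
    · have h' : nd γ = _ := h
      rw [h']; change newAge nd r.ξ ≤ nn r.j
      rw [hnewAge]
      rcases hv.2.2.2.2.1 with h'' | h''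
      · rw [h'', hage0]; exact nn_pos _
      · exact h''.2.2
    · have h' : nd γ = _ := h
      rw [h']; change newAge nd r.ξ ≤ nn r.j
      rw [hnewAge]
      rcases hv.2.2.2.2.2.1 with h'' | h''
      · rw [h'', hage0]; exact nn_pos _
      · exact h''.2.2
  · -- s_gt
    intro γ i hγ
    change (nd γ).par < (nd γ).s i
    rcases hcases γ with h | ⟨r, hv, h⟩ | ⟨r, hv, h⟩
    · simp only [nd]; rw [h]; simp only [defNode]; omega
    · simp only [nd]; rw [h]; exact hv.2.2.2.2.2.1 i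
    · simp only [nd]; rw [h]; exact Nat.lt_succ_self _
  · -- η_lt
    intro γ i hγ
    change (nd γ).η i < γ
    rcases hcases γ with h | ⟨r, hv, h⟩ | ⟨r, hv, h⟩
    · simp only [nd]; rw [h]; simp only [defNode]; omega
    · simp only [nd]; rw [h]; exact hv.2.2.2.2.2.2.1 i
    · simp only [nd]; rw [h]; exact hv.2.2.2.2.1
  · -- A_norm
    intro γ hγ
    change ‖(nd γ).A 0‖ + ‖(nd γ).A 1‖ ≤ 1
    rcases hcases γ with h | ⟨r, hv, h⟩ | ⟨r, hv, h⟩
    · simp only [nd]; rw [h]; simp [defNode]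
    · simp only [nd]; rw [h]; exact hv.2.2.2.2.2.2.2.2.1
    · simp only [nd]; rw [h]
      change ‖ContinuousLinearMap.id 𝕜 E‖ + ‖(0 : E →L[𝕜] E)‖ ≤ 1
      rw [norm_zero, add_zero]; exact ContinuousLinearMap.norm_id_le
  · -- A_ok
    intro γ i hγ
    change ok ((nd γ).η i) ((nd γ).A i)
    rcases hcases γ with h | ⟨r, hv, h⟩ | ⟨r, hv, h⟩
    · simp only [nd]; rw [h]; exact ok_zero _
    · simp only [nd]; rw [h]; exact hv.2.2.2.2.2.2.2.1 i
    · simp only [nd]; rw [h]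
      fin_cases i
      · exact ok_id _
      · exact ok_zero _
  · -- A_map
    intro γ i hγ
    change ∀ v ∈ V ((nd γ).η i), (nd γ).A i v ∈ V γ
    rcases hcases γ with h | ⟨r, hv, h⟩ | ⟨r, hv, h⟩
    · simp only [nd]; rw [h]; intro v _; simp [defNode]
    · simp only [nd]; rw [h]; exact hv.2.2.2.2.2.2.2.2.2 i
    · simp only [nd]; rw [h]
      fin_cases i
      · intro v hvV
        exact hmono hv.2.2.2.2.1.le hvV
      · intro v hvV
        change (0 : E →L[𝕜] E) v ∈ V γ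
        simp
  · -- odd_A
    intro γ hγ hodd
    change (nd γ).A 0 = ContinuousLinearMap.id 𝕜 E ∧ (nd γ).A 1 = 0 ∧ (nd γ).s 0 = (nd γ).par + 1
    change Odd (nd γ).wt at hodd
    rcases hcases γ with h | ⟨r, hv, h⟩ | ⟨r, hv, h⟩
    · simp only [nd] at hodd; rw [h] at hodd
      exact absurd hodd (Nat.not_odd_iff_even.2 ⟨γ / 2, by simp only [defNode]; ring⟩)
    · simp only [nd] at hodd; rw [h] at hodd
      exact absurd hodd (Nat.not_odd_iff_even.2 hv.1)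
    · simp only [nd]; rw [h]; exact ⟨rfl, rfl, rfl⟩
  · -- odd_Lam
    intro γ hγ hodd
    change Lam (nd γ).wt ≤ (nd ((nd γ).η 0)).wt ∧ (nd γ).η 0 ≠ 0
    change Odd (nd γ).wt at hodd
    rcases hcases γ with h | ⟨r, hv, h⟩ | ⟨r, hv, h⟩
    · simp only [nd] at hodd; rw [h] at hodd
      exact absurd hodd (Nat.not_odd_iff_even.2 ⟨γ / 2, by simp only [defNode]; ring⟩)
    · simp only [nd] at hodd; rw [h] at hodd
      exact absurd hodd (Nat.not_odd_iff_even.2 hv.1)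
    · simp only [nd]; rw [h]
      refine ⟨hv.2.2.2.2.2.2.1, ?_⟩
      have := hv.2.2.2.1
      change r.η ≠ 0
      omega
  · -- odd_first
    intro γ hγ hodd hp
    change (nd ((nd γ).η 0)).wt % 4 = 2
    change Odd (nd γ).wt at hodd
    change (nd γ).par = 0 at hp
    rcases hcases γ with h | ⟨r, hv, h⟩ | ⟨r, hv, h⟩
    · simp only [nd] at hodd; rw [h] at hodd
      exact absurd hodd (Nat.not_odd_iff_even.2 ⟨γ / 2, by simp only [defNode]; ring⟩)
    · simp only [nd] at hodd; rw [h] at hodd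
      exact absurd hodd (Nat.not_odd_iff_even.2 hv.1)
    · simp only [nd] at hp ⊢; rw [h] at hp ⊢
      exact hv.2.2.2.2.2.2.2.1 hp
  · -- odd_next
    intro γ hγ hodd hp
    change (nd ((nd γ).η 0)).wt = 4 * (nd γ).par + 4
    change Odd (nd γ).wt at hodd
    change (nd γ).par ≠ 0 at hp
    rcases hcases γ with h | ⟨r, hv, h⟩ | ⟨r, hv, h⟩
    · simp only [nd] at hodd; rw [h] at hodd
      exact absurd hodd (Nat.not_odd_iff_even.2 ⟨γ / 2, by simp only [defNode]; ring⟩)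
    · simp only [nd] at hodd; rw [h] at hodd
      exact absurd hodd (Nat.not_odd_iff_even.2 hv.1)
    · simp only [nd] at hp ⊢; rw [h] at hp ⊢
      exact hv.2.2.2.2.2.2.2.2 hp
  · -- rich_even
    intro j hj ξ hξ s η A hs hokA hA hM N
    obtain ⟨M, hM⟩ := hM
    let r : ReqE 𝔸 := ⟨j, ξ, s, η, fun i => ⟨A i, Set.mem_iUnion.2 ⟨η i, hokA i⟩⟩⟩
    obtain ⟨γ, hγN, hγr⟩ := hreq (Sum.inl r)
      (max (max N M) (max (max (j + 1) (ξ + 1)) (max (η 0 + 1) (η 1 + 1))))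
    have hv : validE V ok γ nd r := by
      refine ⟨hj, ?_, by omega, ?_, hξ, hs, ?_, hokA, hA, fun i v hv => hM γ (by omega) i v hv⟩
      · change j ≤ γ; omega
      · change ξ < γ; omega
      · intro i; change η i < γ
        fin_cases i
        · change η 0 < γ; omega
        · change η 1 < γ; omega
    have hnode := node_of_validE req γ r hγr hv
    refine ⟨γ, by omega, by omega, ?_, ?_, ?_, ?_, ?_⟩
    · change (nd γ).par = ξ; simp only [nd]; rw [hnode]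
    · change (nd γ).wt = j; simp only [nd]; rw [hnode]
    · change (nd γ).s = s; simp only [nd]; rw [hnode]
    · change (nd γ).η = η; simp only [nd]; rw [hnode]
    · change (nd γ).A = A; simp only [nd]; rw [hnode]
  · -- rich_odd
    intro j hj ξ η hξ hξη hLam h1 h2 N
    let r : ReqO := ⟨j, ξ, η⟩
    obtain ⟨γ, hγN, hγr⟩ := hreq (Sum.inr r) (max N (max (j + 1) (η + 1)))
    have hv : validO γ nd r := by
      refine ⟨hj, ?_, by omega, hξη, ?_, hξ, hLam, h1, h2⟩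
      · change j ≤ γ; omega
      · change η < γ; omega
    have hnode := node_of_validO req γ r hγr hv
    refine ⟨γ, by omega, by omega, ?_, ?_, ?_⟩
    · change (nd γ).par = ξ; simp only [nd]; rw [hnode]
    · change (nd γ).wt = j; simp only [nd]; rw [hnode]
    · change (nd γ).η 0 = η; simp only [nd]; rw [hnode]

end Pool.Agent.KS6_69.CB
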