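import Pool.Agent.KS6_69.CB.Defs

/-! The vector valued Bourgain-Delbaen space. -/

namespace Pool.Agent.KS6_69.CB

open Filter Topology BoundedContinuousFunction

variable {𝕜 : Type*} [RCLike 𝕜] {E : Type*} [NormedAddCommGroup E] [NormedSpace 𝕜 E]

/-- The extension: coordinate `γ` of `P_n x`. -/
noncomputable def ext (D : Nodes 𝕜 E) (γ : ℕ) (n : ℕ) : (ℕ → E) →ₗ[𝕜] E :=
  if γ < n then LinearMap.proj γ else if γ = 0 then 0 else
    (if _h : D.par γ < γ then ext D (D.par γ) n else 0) +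
    (β (D.wt γ) : 𝕜) • ∑ i : Fin 2, (if _h : D.η γ i < γ then
      ((D.A γ i : E →L[𝕜] E) : E →ₗ[𝕜] E) ∘ₗ (ext D (D.η γ i) n - ext D (D.η γ i) (min n (D.s γ i)))
      else 0)
termination_by γ
decreasing_by all_goals assumption

variable {D : Nodes 𝕜 E} {V : ℕ → Submodule 𝕜 E} {ok : ℕ → (E →L[𝕜] E) → Prop}

lemma ext_lt {γ n : ℕ} (h : γ < n) (x : ℕ → E) : ext D γ n x = x γ := by
  rw [ext, if_pos h]; rfl

lemma ext_zero_zero (x : ℕ → E) : ext D 0 0 x = 0 := by
  rw [ext]; simp

lemma ext_ge (hD : D.Ok V ok) {γ n : ℕ} (h : n ≤ γ) (hγ : γ ≠ 0) (x : ℕ → E) :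
    ext D γ n x = ext D (D.par γ) n x + (β (D.wt γ) : 𝕜) • ∑ i : Fin 2,
      D.A γ i (ext D (D.η γ i) n x - ext D (D.η γ i) (min n (D.s γ i)) x) := by
  rw [ext, if_neg (not_lt.2 h), if_neg hγ]
  rw [dif_pos (hD.par_lt γ hγ)]
  simp only [LinearMap.add_apply, LinearMap.smul_apply, LinearMap.sum_apply]
  congr 2
  refine Finset.sum_congr rfl fun i _ => ?_
  rw [dif_pos (hD.η_lt γ i hγ)]
  rfl

lemma ext_bound (hD : D.Ok V ok) {n : ℕ} {x : ℕ → E} {M : ℝ} (hM : 0 ≤ M)
    (hx : ∀ δ < n, ‖x δ‖ ≤ M) : ∀ γ, ∀ n' ≤ n, ‖ext D γ n' x‖ ≤ 2 * M := by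
  intro γ
  induction γ using Nat.strong_induction_on with
  | _ γ ih =>
    intro n' hn'
    by_cases hlt : γ < n'
    · rw [ext_lt hlt]
      have := hx γ (by omega)
      linarith
    · push Not at hlt
      by_cases hγ : γ = 0
      · subst hγ
        have : n' = 0 := by omega
        rw [this, ext_zero_zero, norm_zero]; positivity
      · rw [ext_ge hD hlt hγ]
        by_cases hp : n' ≤ D.par γ + 1
        · have : ∀ i : Fin 2, D.A γ i (ext D (D.η γ i) n' x -
              ext D (D.η γ i) (min n' (D.s γ i)) x) = 0 := by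
            intro i
            have := hD.s_gt γ i hγ
            rw [min_eq_left (by omega), sub_self, map_zero]
          simp only [this, Finset.sum_const_zero, smul_zero, add_zero]
          exact ih _ (hD.par_lt γ hγ) n' hn'
        · push Not at hp
          have h1 : ‖ext D (D.par γ) n' x‖ ≤ M := by
            rw [ext_lt (by omega)]; exact hx _ (by omega)
          have h2 : ∀ i : Fin 2, ‖ext D (D.η γ i) n' x - ext D (D.η γ i) (min n' (D.s γ i)) x‖ ≤
              4 * M := by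
            intro i
            have hi := hD.η_lt γ i hγ
            have a1 := ih _ hi n' hn'
            have a2 := ih _ hi (min n' (D.s γ i)) (by omega)
            refine (norm_sub_le _ _).trans ?_
            linarith
          have hA := hD.A_norm γ hγ
          have hβ := β_pos (D.wt γ)
          have hβ4 := β_le (D.wt γ)
          have h3 : ‖∑ i : Fin 2, D.A γ i (ext D (D.η γ i) n' x -
              ext D (D.η γ i) (min n' (D.s γ i)) x)‖ ≤ 4 * M := by
            rw [Fin.sum_univ_two]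
            refine (norm_add_le _ _).trans ?_
            have b0 := ((D.A γ 0).le_opNorm _).trans
              (mul_le_mul_of_nonneg_left (h2 0) (norm_nonneg (D.A γ 0)))
            have b1 := ((D.A γ 1).le_opNorm _).trans
              (mul_le_mul_of_nonneg_left (h2 1) (norm_nonneg (D.A γ 1)))
            nlinarith
          refine (norm_add_le _ _).trans ?_
          rw [norm_smul, norm_realK, Real.norm_eq_abs, abs_of_pos hβ]
          nlinarith [norm_nonneg (∑ i : Fin 2, D.A γ i (ext D (D.η γ i) n' x -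
              ext D (D.η γ i) (min n' (D.s γ i)) x))]

lemma ext_ext (hD : D.Ok V ok) (x : ℕ → E) (n : ℕ) : ∀ γ m,
    ext D γ m (fun δ => ext D δ n x) = ext D γ (min m n) x := by
  intro γ
  induction γ using Nat.strong_induction_on with
  | _ γ ih =>
    intro m
    by_cases hlt : γ < m
    · rw [ext_lt hlt]
      rcases le_total m n with h | h
      · rw [min_eq_left h, ext_lt hlt, ext_lt (by omega)]
      · rw [min_eq_right h]
    · push Not at hlt
      by_cases hγ : γ = 0
      · subst hγ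
        have : m = 0 := by omega
        rw [this, Nat.zero_min, ext_zero_zero, ext_zero_zero]
      · rw [ext_ge hD hlt hγ, ext_ge hD (by omega : min m n ≤ γ) hγ]
        rw [ih _ (hD.par_lt γ hγ)]
        congr 2
        refine Finset.sum_congr rfl fun i _ => ?_
        rw [ih _ (hD.η_lt γ i hγ), ih _ (hD.η_lt γ i hγ)]
        have hmm : min (min m (D.s γ i)) n = min (min m n) (D.s γ i) := by omega
        rw [hmm]

lemma ext_mem (hD : D.Ok V ok) (hmono : Monotone V) {x : ℕ → E} (hx : ∀ γ, x γ ∈ V γ) :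
    ∀ γ n, ext D γ n x ∈ V γ := by
  intro γ
  induction γ using Nat.strong_induction_on with
  | _ γ ih =>
    intro n
    by_cases hlt : γ < n
    · rw [ext_lt hlt]; exact hx γ
    · push Not at hlt
      by_cases hγ : γ = 0
      · subst hγ
        have : n = 0 := by omega
        rw [this, ext_zero_zero]; exact Submodule.zero_mem _
      · rw [ext_ge hD hlt hγ]
        refine Submodule.add_mem _ (hmono (hD.par_lt γ hγ).le (ih _ (hD.par_lt γ hγ) n))
          (Submodule.smul_mem _ _ (Submodule.sum_mem _ fun i _ => ?_))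
        exact hD.A_map γ i hγ _ (Submodule.sub_mem _ (ih _ (hD.η_lt γ i hγ) _)
          (ih _ (hD.η_lt γ i hγ) _))

/-- the projection on bounded functions -/
noncomputable def Pb (hD : D.Ok V ok) (n : ℕ) : (ℕ →ᵇ E) →L[𝕜] (ℕ →ᵇ E) :=
  LinearMap.mkContinuous
    { toFun := fun x => BoundedContinuousFunction.ofNormedAddCommGroupDiscrete
        (fun γ => ext D γ n x) (2 * ‖x‖)
        (fun γ => ext_bound hD (norm_nonneg x) (fun δ _ => x.norm_coe_le_norm δ) γ n le_rfl)
      map_add' := fun x y => by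
        refine BoundedContinuousFunction.ext fun γ => ?_
        change ext D γ n ((x : ℕ → E) + y) = ext D γ n x + ext D γ n y
        rw [map_add]
      map_smul' := fun c x => by
        refine BoundedContinuousFunction.ext fun γ => ?_
        change ext D γ n (c • (x : ℕ → E)) = c • ext D γ n x
        rw [map_smul] } 2
    (fun x => by
      refine (BoundedContinuousFunction.norm_le (by positivity)).2 fun γ => ?_
      exact ext_bound hD (norm_nonneg x) (fun δ _ => x.norm_coe_le_norm δ) γ n le_rfl)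

lemma Pb_apply (hD : D.Ok V ok) (n : ℕ) (x : ℕ →ᵇ E) (γ : ℕ) : Pb hD n x γ = ext D γ n x := rfl

lemma Pb_Pb (hD : D.Ok V ok) (m n : ℕ) (x : ℕ →ᵇ E) : Pb hD m (Pb hD n x) = Pb hD (min m n) x := by
  refine BoundedContinuousFunction.ext fun γ => ?_
  rw [Pb_apply, Pb_apply]
  exact ext_ext hD x n γ m

lemma norm_Pb_le (hD : D.Ok V ok) (n : ℕ) (x : ℕ →ᵇ E) {C : ℝ} (hC : 0 ≤ C)
    (h : ∀ γ < n, ‖x γ‖ ≤ C) : ‖Pb hD n x‖ ≤ 2 * C :=
  (BoundedContinuousFunction.norm_le (by positivity)).2 fun γ => by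
    rw [Pb_apply]; exact ext_bound hD hC h γ n le_rfl

lemma norm_Pb (hD : D.Ok V ok) (n : ℕ) (x : ℕ →ᵇ E) : ‖Pb hD n x‖ ≤ 2 * ‖x‖ :=
  norm_Pb_le hD n x (norm_nonneg _) fun γ _ => x.norm_coe_le_norm γ

/-- The space. -/
noncomputable def XX (hD : D.Ok V ok) : Submodule 𝕜 (ℕ →ᵇ E) where
  carrier := {x | (∀ γ, x γ ∈ V γ) ∧ x 0 = 0 ∧ Tendsto (fun n => Pb hD n x) atTop (𝓝 x)}
  add_mem' := by
    rintro x y ⟨h1, h2, h3⟩ ⟨g1, g2, g3⟩
    refine ⟨fun γ => ?_, ?_, ?_⟩
    · exact Submodule.add_mem _ (h1 γ) (g1 γ)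
    · change x 0 + y 0 = 0; rw [h2, g2, add_zero]
    · simp only [map_add]; exact h3.add g3
  zero_mem' := ⟨fun γ => Submodule.zero_mem _, rfl, by simp⟩
  smul_mem' := by
    rintro c x ⟨h1, h2, h3⟩
    refine ⟨fun γ => ?_, ?_, ?_⟩
    · exact Submodule.smul_mem _ _ (h1 γ)
    · change c • x 0 = 0; rw [h2, smul_zero]
    · simp only [map_smul]; exact h3.const_smul c

lemma isClosed_XX (hD : D.Ok V ok) (hfin : ∀ n, FiniteDimensional 𝕜 (V n)) :
    IsClosed (XX hD : Set (ℕ →ᵇ E)) := by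
  have h1 : IsClosed {x : ℕ →ᵇ E | ∀ γ, x γ ∈ V γ} := by
    rw [Set.ofPred_forall]
    refine isClosed_iInter fun γ => ?_
    have := hfin γ
    have hc : IsClosed (V γ : Set E) := Submodule.closed_of_finiteDimensional _
    exact hc.preimage (BoundedContinuousFunction.evalCLM 𝕜 γ).continuous
  have h2 : IsClosed {x : ℕ →ᵇ E | x 0 = 0} :=
    isClosed_eq (BoundedContinuousFunction.evalCLM 𝕜 0).continuous continuous_const
  have h3 : IsClosed {x : ℕ →ᵇ E | Tendsto (fun n => Pb hD n x) atTop (𝓝 x)} := by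
    refine isClosed_of_closure_subset fun x hx => ?_
    rw [Set.mem_ofPred_eq, Metric.tendsto_atTop]
    intro ε hε
    obtain ⟨y, hy, hxy⟩ := Metric.mem_closure_iff.1 hx (ε / 6) (by positivity)
    rw [Set.mem_ofPred_eq, Metric.tendsto_atTop] at hy
    obtain ⟨N, hN⟩ := hy (ε / 2) (by positivity)
    refine ⟨N, fun n hn => ?_⟩
    have a1 := hN n hn
    rw [dist_eq_norm] at a1 hxy ⊢
    have a2 : Pb hD n x - x = Pb hD n (x - y) + (Pb hD n y - y) - (x - y) := by
      rw [map_sub]; abel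
    rw [a2]
    have a3 := norm_Pb hD n (x - y)
    have a4 := norm_sub_le (Pb hD n (x - y) + (Pb hD n y - y)) (x - y)
    have a5 := norm_add_le (Pb hD n (x - y)) (Pb hD n y - y)
    linarith
  have : (XX hD : Set (ℕ →ᵇ E)) = {x : ℕ →ᵇ E | ∀ γ, x γ ∈ V γ} ∩ ({x : ℕ →ᵇ E | x 0 = 0} ∩
      {x : ℕ →ᵇ E | Tendsto (fun n => Pb hD n x) atTop (𝓝 x)}) := by
    ext x; rfl
  rw [this]
  exact h1.inter (h2.inter h3)

lemma Pb_mem (hD : D.Ok V ok) (hmono : Monotone V) (n : ℕ) {x : ℕ →ᵇ E}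
    (h1 : ∀ γ, x γ ∈ V γ) (h2 : x 0 = 0) : Pb hD n x ∈ XX hD := by
  refine ⟨fun γ => ext_mem hD hmono h1 γ n, ?_, ?_⟩
  · rw [Pb_apply]
    rcases Nat.eq_zero_or_pos n with h | h
    · rw [h, ext_zero_zero]
    · rw [ext_lt h]; exact h2
  · refine tendsto_const_nhds.congr' ?_
    filter_upwards [eventually_ge_atTop n] with m hm
    rw [Pb_Pb, min_eq_right hm]

/-- The projections on the space. -/
noncomputable def PX (hD : D.Ok V ok) (hmono : Monotone V) (n : ℕ) : XX hD →L[𝕜] XX hD :=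
  ((Pb hD n).comp (XX hD).subtypeL).codRestrict (XX hD)
    (fun x => Pb_mem hD hmono n x.2.1 x.2.2.1)

/-- The interface. -/
noncomputable def bd (hD : D.Ok V ok) (hmono : Monotone V) : BD D V (XX hD) where
  co γ := (BoundedContinuousFunction.evalCLM 𝕜 γ).comp (XX hD).subtypeL
  P := PX hD hmono
  co_zero x := x.2.2.1
  co_mem γ x := x.2.1 γ
  norm_co γ x := (x : ℕ →ᵇ E).norm_coe_le_norm γ
  norm_le x C hC h := (BoundedContinuousFunction.norm_le hC).2 h
  co_P n γ x h := by
    change ext D γ n (x : ℕ →ᵇ E) = (x : ℕ →ᵇ E) γ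
    rw [ext_lt h]
  P_P m n x := Subtype.ext (Pb_Pb hD m n x)
  norm_P_le n x C hC h := norm_Pb_le hD n x hC h
  P_tendsto x := by
    rw [tendsto_subtype_rng]
    exact x.2.2.2
  rec_eq γ x hγ := by
    change ext D γ γ (x : ℕ →ᵇ E) = (x : ℕ →ᵇ E) (D.par γ) + (β (D.wt γ) : 𝕜) • ∑ i,
      D.A γ i ((x : ℕ →ᵇ E) (D.η γ i) - ext D (D.η γ i) (D.s γ i) (x : ℕ →ᵇ E))
    rw [ext_ge hD le_rfl hγ, ext_lt (hD.par_lt γ hγ)]
    congr 2
    refine Finset.sum_congr rfl fun i _ => ?_
    have hi := hD.η_lt γ i hγ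
    rw [ext_lt hi]
    congr 2
    rcases le_total γ (D.s γ i) with h | h
    · rw [min_eq_left h, ext_lt hi, ext_lt (by omega)]
    · rw [min_eq_right h]
  lift q u hu hu0 := by
    let M : ℝ := ∑ γ ∈ Finset.range q, ‖u γ‖
    have hM : 0 ≤ M := Finset.sum_nonneg fun _ _ => norm_nonneg _
    have hMu : ∀ γ < q, ‖u γ‖ ≤ M := fun γ hγ =>
      Finset.single_le_sum (f := fun γ => ‖u γ‖) (fun _ _ => norm_nonneg _)
        (Finset.mem_range.2 hγ)
    let y : ℕ →ᵇ E := BoundedContinuousFunction.ofNormedAddCommGroupDiscrete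
      (fun γ => ext D γ q u) (2 * M) (fun γ => ext_bound hD hM hMu γ q le_rfl)
    have hy : ∀ γ, y γ = ext D γ q u := fun _ => rfl
    have hPy : Pb hD q y = y := by
      refine BoundedContinuousFunction.ext fun γ => ?_
      rw [Pb_apply]
      change ext D γ q (fun δ => ext D δ q u) = ext D γ q u
      rw [ext_ext hD, min_self]
    have hmem : y ∈ XX hD := by
      rw [← hPy]
      refine Pb_mem hD hmono q (fun γ => ext_mem hD hmono hu γ q) ?_
      rw [hy]
      rcases Nat.eq_zero_or_pos q with h | h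
      · rw [h, ext_zero_zero]
      · rw [ext_lt h]; exact hu0
    refine ⟨⟨y, hmem⟩, Subtype.ext hPy, fun γ hγ => ?_⟩
    change y γ = u γ
    rw [hy, ext_lt hγ]

lemma bd_co_apply (hD : D.Ok V ok) (hmono : Monotone V) (γ : ℕ) (x : XX hD) :
    (bd hD hmono).co γ x = (x : ℕ →ᵇ E) γ := rfl

lemma bd_P_apply (hD : D.Ok V ok) (hmono : Monotone V) (n : ℕ) (x : XX hD) :
    ((bd hD hmono).P n x : ℕ →ᵇ E) = Pb hD n x := rfl

/-- Completeness. -/
lemma complete_XX (hD : D.Ok V ok) (hfin : ∀ n, FiniteDimensional 𝕜 (V n)) [CompleteSpace E] :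
    CompleteSpace (XX hD) := (isClosed_XX hD hfin).completeSpace_coe

/-- Coordinatewise multiplication with an operator `Φ` of `E` which commutes with the operators
of the nodes. -/
theorem exists_mulOp (hD : D.Ok V ok) (hmono : Monotone V) (Φ : E →L[𝕜] E) (N : ℕ)
    (hΦ : ∀ γ, N ≤ γ → ∀ v ∈ V γ, Φ v ∈ V γ)
    (hcomm : ∀ γ i, γ ≠ 0 → N ≤ D.η γ i → ∀ v ∈ V (D.η γ i), Φ (D.A γ i v) = D.A γ i (Φ v)) :
    ∃ T : XX hD →L[𝕜] XX hD, ∀ x γ, (bd hD hmono).co γ (T x) =
      Φ ((bd hD hmono).co γ (x - (bd hD hmono).P N x)) := by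
  set B := bd hD hmono with hB
  -- the map on bounded functions
  let L : (ℕ →ᵇ E) →L[𝕜] (ℕ →ᵇ E) := LinearMap.mkContinuous
    { toFun := fun x => BoundedContinuousFunction.ofNormedAddCommGroupDiscrete
        (fun γ => Φ (x γ)) (‖Φ‖ * ‖x‖)
        (fun γ => (Φ.le_opNorm _).trans (by gcongr; exact x.norm_coe_le_norm γ))
      map_add' := fun x y => BoundedContinuousFunction.ext fun γ => map_add Φ _ _
      map_smul' := fun c x => BoundedContinuousFunction.ext fun γ => map_smul Φ _ _ } ‖Φ‖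
    (fun x => (BoundedContinuousFunction.norm_le (by positivity)).2 fun γ =>
      (Φ.le_opNorm _).trans (by gcongr; exact x.norm_coe_le_norm γ))
  have hL : ∀ (x : ℕ →ᵇ E) γ, L x γ = Φ (x γ) := fun _ _ => rfl
  -- commutation
  have key : ∀ y : XX hD, B.P N y = 0 → ∀ γ n, ext D γ n (L (y : ℕ →ᵇ E)) =
      Φ (ext D γ n (y : ℕ →ᵇ E)) := by
    intro y hy γ
    have hy0 : ∀ δ < N, (y : ℕ →ᵇ E) δ = 0 := fun δ hδ => B.co_of_P_zero hy hδ
    induction γ using Nat.strong_induction_on with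
    | _ γ ih =>
      intro n
      by_cases hlt : γ < n
      · rw [ext_lt hlt, ext_lt hlt, hL]
      · push Not at hlt
        by_cases hγ : γ = 0
        · subst hγ
          have : n = 0 := by omega
          rw [this, ext_zero_zero, ext_zero_zero, map_zero]
        · rw [ext_ge hD hlt hγ, ext_ge hD hlt hγ, ih _ (hD.par_lt γ hγ)]
          rw [map_add, map_smul, map_sum]
          congr 2
          refine Finset.sum_congr rfl fun i _ => ?_
          have hi := hD.η_lt γ i hγ
          rw [ih _ hi, ih _ hi, ← map_sub]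
          set v := ext D (D.η γ i) n (y : ℕ →ᵇ E) -
            ext D (D.η γ i) (min n (D.s γ i)) (y : ℕ →ᵇ E) with hv
          have hvV : v ∈ V (D.η γ i) := Submodule.sub_mem _ (ext_mem hD hmono y.2.1 _ _)
            (ext_mem hD hmono y.2.1 _ _)
          by_cases hη : N ≤ D.η γ i
          · exact (hcomm γ i hγ hη v hvV).symm
          · push Not at hη
            have hv0 : ∀ m, ext D (D.η γ i) m (y : ℕ →ᵇ E) = 0 := by
              intro m
              have h1 : ext D (D.η γ i) m (y : ℕ →ᵇ E) = B.co (D.η γ i) (B.P m y) := rfl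
              rw [h1]
              refine B.co_of_P_zero (n := N) ?_ hη
              rw [B.P_P, min_comm, ← B.P_P, hy, map_zero]
            rw [hv, hv0, hv0, sub_zero, map_zero, map_zero, map_zero]
  have hmemL : ∀ y : XX hD, B.P N y = 0 → L (y : ℕ →ᵇ E) ∈ XX hD := by
    intro y hy
    refine ⟨fun γ => ?_, ?_, ?_⟩
    · rw [hL]
      by_cases hγ : N ≤ γ
      · exact hΦ γ hγ _ (y.2.1 γ)
      · push Not at hγ
        have : (y : ℕ →ᵇ E) γ = 0 := B.co_of_P_zero hy hγ
        rw [this, map_zero]; exact Submodule.zero_mem _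
    · rw [hL, y.2.2.1, map_zero]
    · have h1 : ∀ n, Pb hD n (L (y : ℕ →ᵇ E)) = L (Pb hD n (y : ℕ →ᵇ E)) := by
        intro n
        refine BoundedContinuousFunction.ext fun γ => ?_
        rw [Pb_apply, hL, Pb_apply]
        exact key y hy γ n
      simp only [h1]
      exact (L.continuous.tendsto _).comp y.2.2.2
  have hPN : ∀ x : XX hD, B.P N (x - B.P N x) = 0 := by
    intro x; rw [map_sub, B.P_P, min_self, sub_self]
  refine ⟨(L.comp ((XX hD).subtypeL.comp (ContinuousLinearMap.id 𝕜 (XX hD) - B.P N))).codRestrict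
    (XX hD) (fun x => hmemL (x - B.P N x) (hPN x)), fun x γ => rfl⟩

end Pool.Agent.KS6_69.CB
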