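import Pool.Agent.KS6_69.CB.Asym
import Pool.Agent.KS6_69.CB.NodeEx
import Pool.Agent.KS6_69.CB.Space

/-! The kit: the coordinate space is the dual of `L(H)`. -/

namespace Pool.Agent.KS6_69.CB

open Filter Topology

variable {𝕜 : Type*} [RCLike 𝕜] {H : Type*} [NormedAddCommGroup H] [NormedSpace 𝕜 H]

/-- the dual of `L(H)` -/
abbrev EE (𝕜 : Type*) [RCLike 𝕜] (H : Type*) [NormedAddCommGroup H] [NormedSpace 𝕜 H] :=
  (H →L[𝕜] H) →L[𝕜] 𝕜

noncomputable instance instE1 : NormedAddCommGroup ((H →L[𝕜] H) →L[𝕜] 𝕜) := inferInstance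

noncomputable instance instE2 : NormedSpace 𝕜 ((H →L[𝕜] H) →L[𝕜] 𝕜) := inferInstance

/-- two sided action: `(act L R v)(b) = v (R b L)` -/
noncomputable def act (L R : H →L[𝕜] H) : EE 𝕜 H →L[𝕜] EE 𝕜 H :=
  (ContinuousLinearMap.compL 𝕜 (H →L[𝕜] H) (H →L[𝕜] H) 𝕜).flip
    (ContinuousLinearMap.mulLeftRight 𝕜 (H →L[𝕜] H) R L)

@[simp] lemma act_apply (L R : H →L[𝕜] H) (v : EE 𝕜 H) (b : H →L[𝕜] H) :
    act L R v b = v (R * b * L) := rfl

lemma norm_act_apply (L R : H →L[𝕜] H) (v : EE 𝕜 H) : ‖act L R v‖ ≤ ‖L‖ * ‖R‖ * ‖v‖ := by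
  refine ContinuousLinearMap.opNorm_le_bound _ (by positivity) fun b => ?_
  rw [act_apply]
  refine (v.le_opNorm _).trans ?_
  have h1 : ‖R * b * L‖ ≤ ‖R‖ * ‖b‖ * ‖L‖ :=
    (norm_mul_le _ _).trans (mul_le_mul_of_nonneg_right (norm_mul_le _ _) (norm_nonneg _))
  calc ‖v‖ * ‖R * b * L‖ ≤ ‖v‖ * (‖R‖ * ‖b‖ * ‖L‖) := by gcongr
    _ = _ := by ring

lemma norm_act (L R : H →L[𝕜] H) : ‖act L R‖ ≤ ‖L‖ * ‖R‖ :=
  ContinuousLinearMap.opNorm_le_bound _ (by positivity) fun v => norm_act_apply L R v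

lemma act_act (L R L' R' : H →L[𝕜] H) (v : EE 𝕜 H) :
    act L R (act L' R' v) = act (L * L') (R' * R) v := by
  ext b
  simp only [act_apply, mul_assoc]

lemma act_one : act (1 : H →L[𝕜] H) 1 = ContinuousLinearMap.id 𝕜 (EE 𝕜 H) := by
  ext v b
  simp

lemma act_sub_left (L L' R : H →L[𝕜] H) (v : EE 𝕜 H) :
    act (L - L') R v = act L R v - act L' R v := by
  ext b; simp [mul_sub]

lemma act_add_left (L L' R : H →L[𝕜] H) (v : EE 𝕜 H) :
    act (L + L') R v = act L R v + act L' R v := by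
  ext b; simp [mul_add]

lemma act_smul_left (z : 𝕜) (L R : H →L[𝕜] H) (v : EE 𝕜 H) :
    act (z • L) R v = z • act L R v := by
  ext b; simp

/-- A system: increasing finite rank projections and countable sets of contractions. -/
structure HSys (𝕜 : Type*) [RCLike 𝕜] (H : Type*) [NormedAddCommGroup H] [NormedSpace 𝕜 H] where
  Q : ℕ → (H →L[𝕜] H)
  W : ℕ → Set (H →L[𝕜] H)
  mul : ∀ m n, Q m * Q n = Q (min m n)
  norm : ∀ n, ‖Q n‖ ≤ 1
  fin : ∀ n, FiniteDimensional 𝕜 (LinearMap.range (Q n : H →ₗ[𝕜] H))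
  lim : ∀ x, Tendsto (fun n => Q n x) atTop (𝓝 x)
  W_count : ∀ n, (W n).Countable
  W_norm : ∀ n, ∀ w ∈ W n, ‖w‖ ≤ 1
  W_one : ∀ n, 1 ∈ W n
  W_map : ∀ n, ∀ w ∈ W n, ∃ M, Q M * (w * Q n) = w * Q n

namespace HSys

variable (S : HSys 𝕜 H)

/-- the coordinate spaces -/
def V (n : ℕ) : Submodule 𝕜 (EE 𝕜 H) where
  carrier := {v | ∀ b, v (S.Q n * b * S.Q n) = v b}
  add_mem' := by
    intro v w hv hw b
    simp only [add_apply, hv b, hw b]
  zero_mem' := by intro b; simp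
  smul_mem' := by
    intro c v hv b
    simp only [smul_apply, hv b]

lemma mem_V {n : ℕ} {v : EE 𝕜 H} : v ∈ S.V n ↔ ∀ b, v (S.Q n * b * S.Q n) = v b := Iff.rfl

/-- the corners -/
def SS (n : ℕ) : Submodule 𝕜 (H →L[𝕜] H) where
  carrier := {b | S.Q n * b * S.Q n = b}
  add_mem' := by
    intro v w hv hw
    change S.Q n * (v + w) * S.Q n = v + w
    change S.Q n * v * S.Q n = v at hv
    change S.Q n * w * S.Q n = w at hw
    rw [mul_add, add_mul, hv, hw]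
  zero_mem' := by change S.Q n * 0 * S.Q n = 0; simp
  smul_mem' := by
    intro c v hv
    change S.Q n * (c • v) * S.Q n = c • v
    change S.Q n * v * S.Q n = v at hv
    rw [mul_smul_comm, smul_mul_assoc, hv]

lemma mem_SS {n : ℕ} {b : H →L[𝕜] H} : b ∈ S.SS n ↔ S.Q n * b * S.Q n = b := Iff.rfl

lemma QQ (n : ℕ) : S.Q n * S.Q n = S.Q n := by rw [S.mul, min_self]

lemma QQ_le {m n : ℕ} (h : m ≤ n) : S.Q m * S.Q n = S.Q m := by rw [S.mul, min_eq_left h]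

lemma QQ_ge {m n : ℕ} (h : m ≤ n) : S.Q n * S.Q m = S.Q m := by rw [S.mul, min_eq_right h]

lemma corner_mem (n : ℕ) (b : H →L[𝕜] H) : S.Q n * b * S.Q n ∈ S.SS n := by
  rw [mem_SS]
  calc S.Q n * (S.Q n * b * S.Q n) * S.Q n = (S.Q n * S.Q n) * b * (S.Q n * S.Q n) := by
        simp only [mul_assoc]
    _ = _ := by rw [S.QQ]

lemma norm_corner (n : ℕ) (b : H →L[𝕜] H) : ‖S.Q n * b * S.Q n‖ ≤ ‖b‖ := by
  have h1 : ‖S.Q n * b * S.Q n‖ ≤ ‖S.Q n‖ * ‖b‖ * ‖S.Q n‖ :=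
    (norm_mul_le _ _).trans (mul_le_mul_of_nonneg_right (norm_mul_le _ _) (norm_nonneg _))
  have h2 := S.norm n
  have h3 := norm_nonneg (S.Q n)
  have h4 := norm_nonneg b
  calc _ ≤ ‖S.Q n‖ * ‖b‖ * ‖S.Q n‖ := h1
    _ ≤ 1 * ‖b‖ * 1 := by gcongr
    _ = ‖b‖ := by ring

lemma left_of_mem {n : ℕ} {b : H →L[𝕜] H} (h : b ∈ S.SS n) : S.Q n * b = b := by
  rw [mem_SS] at h
  calc S.Q n * b = S.Q n * (S.Q n * b * S.Q n) := by rw [h]
    _ = (S.Q n * S.Q n) * b * S.Q n := by simp only [mul_assoc]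
    _ = b := by rw [S.QQ, h]

lemma right_of_mem {n : ℕ} {b : H →L[𝕜] H} (h : b ∈ S.SS n) : b * S.Q n = b := by
  rw [mem_SS] at h
  calc b * S.Q n = (S.Q n * b * S.Q n) * S.Q n := by rw [h]
    _ = S.Q n * b * (S.Q n * S.Q n) := by simp only [mul_assoc]
    _ = b := by rw [S.QQ, h]

lemma SS_mono : Monotone S.SS := by
  intro m n h b hb
  rw [mem_SS]
  have h1 := S.left_of_mem hb
  have h2 := S.right_of_mem hb
  calc S.Q n * b * S.Q n = S.Q n * (S.Q m * b * S.Q m) * S.Q n := by rw [S.mem_SS.1 hb]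
    _ = (S.Q n * S.Q m) * b * (S.Q m * S.Q n) := by simp only [mul_assoc]
    _ = S.Q m * b * S.Q m := by rw [S.QQ_ge h, S.QQ_le h]
    _ = b := S.mem_SS.1 hb

lemma V_mono : Monotone S.V := by
  intro m n h v hv b
  rw [mem_V] at hv
  rw [← hv (S.Q n * b * S.Q n), ← hv b]
  congr 1
  calc S.Q m * (S.Q n * b * S.Q n) * S.Q m = (S.Q m * S.Q n) * b * (S.Q n * S.Q m) := by
        simp only [mul_assoc]
    _ = _ := by rw [S.QQ_le h, S.QQ_ge h]

instance fin_SS (n : ℕ) : FiniteDimensional 𝕜 (S.SS n) := by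
  have := S.fin n
  let f : S.SS n →ₗ[𝕜] (LinearMap.range (S.Q n : H →ₗ[𝕜] H) →ₗ[𝕜]
      LinearMap.range (S.Q n : H →ₗ[𝕜] H)) :=
    { toFun := fun b => LinearMap.codRestrict _ ((b.1 : H →ₗ[𝕜] H).comp (Submodule.subtype _))
        (fun x => ⟨b.1 x.1, by
          have := S.left_of_mem b.2
          exact DFunLike.congr_fun this x.1⟩)
      map_add' := fun b c => by ext x; rfl
      map_smul' := fun z b => by ext x; rfl }
  refine FiniteDimensional.of_injective f ?_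
  intro b c hbc
  apply Subtype.ext
  ext x
  have h1 := DFunLike.congr_fun hbc ⟨S.Q n x, ⟨x, rfl⟩⟩
  have h2 : b.1 (S.Q n x) = c.1 (S.Q n x) := congrArg Subtype.val h1
  have h3 := DFunLike.congr_fun (S.right_of_mem b.2) x
  have h4 := DFunLike.congr_fun (S.right_of_mem c.2) x
  rw [← h3, ← h4]
  exact h2

instance fin_V (n : ℕ) : FiniteDimensional 𝕜 (S.V n) := by
  let f : S.V n →ₗ[𝕜] (Module.Dual 𝕜 (S.SS n)) :=
    { toFun := fun v => (v.1 : (H →L[𝕜] H) →ₗ[𝕜] 𝕜).comp (Submodule.subtype _)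
      map_add' := fun b c => by ext x; rfl
      map_smul' := fun z b => by ext x; rfl }
  refine FiniteDimensional.of_injective f ?_
  intro v w hvw
  apply Subtype.ext
  ext b
  have h1 := DFunLike.congr_fun hvw ⟨_, S.corner_mem n b⟩
  have h2 : v.1 (S.Q n * b * S.Q n) = w.1 (S.Q n * b * S.Q n) := h1
  rw [← S.mem_V.1 v.2, h2, S.mem_V.1 w.2]

lemma exists_C : ∃ C : Set (H →L[𝕜] H), C.Countable ∧ (∀ c ∈ C, ‖c‖ ≤ 1 ∧ ∃ M, c ∈ S.SS M) ∧
    ∀ m, ∀ b ∈ S.SS m, ‖b‖ ≤ 1 → ∀ ε > 0, ∃ c ∈ C, c ∈ S.SS m ∧ ‖c - b‖ ≤ ε := by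
  have h1 : ∀ m, ∃ C : Set (H →L[𝕜] H), C.Countable ∧ C ⊆ {b | b ∈ S.SS m ∧ ‖b‖ ≤ 1} ∧
      {b | b ∈ S.SS m ∧ ‖b‖ ≤ 1} ⊆ closure C := by
    intro m
    have hs : TopologicalSpace.IsSeparable {b | b ∈ S.SS m ∧ ‖b‖ ≤ 1} := by
      have h2 : TopologicalSpace.IsSeparable (S.SS m : Set (H →L[𝕜] H)) := by
        have : ProperSpace (S.SS m) := FiniteDimensional.proper 𝕜 _
        have : TopologicalSpace.SeparableSpace (S.SS m) := inferInstance
        exact TopologicalSpace.IsSeparable.of_subtype _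
      exact h2.mono fun b hb => hb.1
    obtain ⟨c, hc1, hc2, hc3⟩ := hs.exists_countable_dense_subset
    exact ⟨c, hc2, hc1, hc3⟩
  choose C hC1 hC2 hC3 using h1
  refine ⟨⋃ m, C m, Set.countable_iUnion hC1, ?_, ?_⟩
  · intro c hc
    obtain ⟨m, hm⟩ := Set.mem_iUnion.1 hc
    exact ⟨(hC2 m hm).2, m, (hC2 m hm).1⟩
  · intro m b hb hb1 ε hε
    obtain ⟨c, hc, hcb⟩ := Metric.mem_closure_iff.1 (hC3 m ⟨hb, hb1⟩) ε hε
    refine ⟨c, Set.mem_iUnion.2 ⟨m, hc⟩, (hC2 m hc).1, ?_⟩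
    rw [dist_comm, dist_eq_norm] at hcb
    exact hcb.le

/-- a countable dense set in the unit balls of the corners -/
noncomputable def C : Set (H →L[𝕜] H) := S.exists_C.choose

lemma C_count : S.C.Countable := S.exists_C.choose_spec.1

lemma C_norm {c : H →L[𝕜] H} (h : c ∈ S.C) : ‖c‖ ≤ 1 := (S.exists_C.choose_spec.2.1 c h).1

lemma C_mem {c : H →L[𝕜] H} (h : c ∈ S.C) : ∃ M, c ∈ S.SS M := (S.exists_C.choose_spec.2.1 c h).2

lemma C_dense {m : ℕ} {b : H →L[𝕜] H} (hb : b ∈ S.SS m) (hb1 : ‖b‖ ≤ 1) {ε : ℝ} (hε : 0 < ε) :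
    ∃ c ∈ S.C, c ∈ S.SS m ∧ ‖c - b‖ ≤ ε := S.exists_C.choose_spec.2.2 m b hb hb1 ε hε

/-- the functionals -/
def R : Set (EE 𝕜 H →L[𝕜] EE 𝕜 H) := {r | ∃ c ∈ S.C, r = (1 / 2 : 𝕜) • act 1 c}

/-- the operators which commute asymptotically with all operators -/
def K (η : ℕ) : Set (EE 𝕜 H →L[𝕜] EE 𝕜 H) := {k | ∃ w ∈ S.W η, ∃ c, (c ∈ S.C ∨ c = 1) ∧ k = act w c}

/-- the allowed operators -/
def ok (η : ℕ) (A : EE 𝕜 H →L[𝕜] EE 𝕜 H) : Prop :=
  A = 0 ∨ A = ContinuousLinearMap.id 𝕜 (EE 𝕜 H) ∨ ∃ w ∈ S.W η, ∃ c ∈ S.C, ∃ c',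
    (c' ∈ S.C ∨ c' = 1) ∧ A = (1 / 2 : 𝕜) • act w (c' * c)

lemma ok_count (η : ℕ) : {A | S.ok η A}.Countable := by
  have h1 : {A | S.ok η A} = {0} ∪ ({ContinuousLinearMap.id 𝕜 (EE 𝕜 H)} ∪
      (fun t : (H →L[𝕜] H) × (H →L[𝕜] H) × (H →L[𝕜] H) => (1 / 2 : 𝕜) • act t.1 (t.2.2 * t.2.1)) ''
        (S.W η ×ˢ S.C ×ˢ (insert 1 S.C))) := by
    ext A
    constructor
    · rintro (h | h | ⟨w, hw, c, hc, c', hc', h⟩)
      · exact Or.inl h
      · exact Or.inr (Or.inl h)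
      · refine Or.inr (Or.inr ⟨(w, c, c'), ⟨hw, hc, ?_⟩, h.symm⟩)
        exact hc'.elim Or.inr Or.inl
    · rintro (h | h | ⟨⟨w, c, c'⟩, ⟨hw, hc, hc'⟩, h⟩)
      · exact Or.inl h
      · exact Or.inr (Or.inl h)
      · exact Or.inr (Or.inr ⟨w, hw, c, hc, c', hc'.elim Or.inr Or.inl, h.symm⟩)
  rw [h1]
  refine (Set.countable_singleton _).union ((Set.countable_singleton _).union ?_)
  exact ((S.W_count η).prod (S.C_count.prod (S.C_count.insert _))).image _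

lemma act_mem {m M : ℕ} {c w : H →L[𝕜] H} (h1 : S.Q m * c * S.Q M = S.Q m * c)
    (h2 : S.Q M * (w * S.Q m) = w * S.Q m) {v : EE 𝕜 H} (hv : v ∈ S.V m) :
    act w c v ∈ S.V M := by
  rw [mem_V] at hv ⊢
  intro b
  rw [act_apply, act_apply, ← hv (c * (S.Q M * b * S.Q M) * w), ← hv (c * b * w)]
  congr 1
  calc S.Q m * (c * (S.Q M * b * S.Q M) * w) * S.Q m
      = (S.Q m * c * S.Q M) * b * (S.Q M * (w * S.Q m)) := by simp only [mul_assoc]
    _ = S.Q m * (c * b * w) * S.Q m := by rw [h1, h2]; simp only [mul_assoc]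

/-- evaluation at the unit -/
noncomputable def f0 (_S : HSys 𝕜 H) : EE 𝕜 H →L[𝕜] 𝕜 := ContinuousLinearMap.apply 𝕜 𝕜 (1 : H →L[𝕜] H)

lemma f0_apply (v : EE 𝕜 H) : S.f0 v = v 1 := rfl

lemma norm_apply_le {v : EE 𝕜 H} {m : ℕ} (hv : v ∈ S.V m) {M : ℝ} (hM : 0 ≤ M)
    (h : ∀ b ∈ S.SS m, ‖b‖ ≤ 1 → ‖v b‖ ≤ M) : ‖v‖ ≤ M := by
  refine ContinuousLinearMap.opNorm_le_bound _ hM fun b => ?_
  by_cases hb : ‖b‖ = 0
  · rw [norm_eq_zero] at hb; rw [hb]; simp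
  have hpos : 0 < ‖b‖ := lt_of_le_of_ne (norm_nonneg _) (Ne.symm hb)
  rw [← S.mem_V.1 hv b]
  have h1 := h (((‖b‖ : ℝ) : 𝕜)⁻¹ • (S.Q m * b * S.Q m)) (Submodule.smul_mem _ _ (S.corner_mem m b))
    (by
      rw [norm_smul, norm_inv, norm_realK, norm_norm, inv_mul_le_iff₀ hpos, mul_one]
      exact S.norm_corner m b)
  rw [map_smul, norm_smul, norm_inv, norm_realK, norm_norm, inv_mul_le_iff₀ hpos] at h1
  linarith

lemma exists_norming {v : EE 𝕜 H} {m : ℕ} (hv : v ∈ S.V m) :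
    ∃ c ∈ S.C, ‖v‖ / 2 ≤ (RCLike.re (v c)) := by
  by_cases hv0 : ‖v‖ = 0
  · rw [norm_eq_zero] at hv0
    obtain ⟨c, hc, -⟩ := S.C_dense (m := m) (b := 0) (Submodule.zero_mem _) (by simp) one_pos
    exact ⟨c, hc, by rw [hv0]; simp⟩
  have hpos : 0 < ‖v‖ := lt_of_le_of_ne (norm_nonneg _) (Ne.symm hv0)
  by_contra hcon
  push Not at hcon
  have : ‖v‖ ≤ 3 / 4 * ‖v‖ := by
    refine S.norm_apply_le hv (by positivity) fun b hb hb1 => ?_
    -- rotate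
    obtain ⟨z, hz1, hz2⟩ : ∃ z : 𝕜, ‖z‖ = 1 ∧ z * v b = (‖v b‖ : 𝕜) := by
      by_cases h0 : v b = 0
      · exact ⟨1, by simp, by simp [h0]⟩
      · refine ⟨(‖v b‖ : 𝕜) / v b, ?_, ?_⟩
        · rw [norm_div, norm_realK, norm_norm, div_self (norm_ne_zero_iff.2 h0)]
        · field_simp
    obtain ⟨c, hc, -, hcb⟩ := S.C_dense (m := m) (b := z • b) (Submodule.smul_mem _ _ hb)
      (by rw [norm_smul, hz1, one_mul]; exact hb1) (ε := 1 / 4) (by norm_num)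
    have h1 := hcon c hc
    have h2 : ‖v (c - z • b)‖ ≤ ‖v‖ * (1 / 4) := (v.le_opNorm _).trans (by gcongr)
    have h3 : v c = (‖v b‖ : 𝕜) + v (c - z • b) := by
      rw [map_sub, map_smul, smul_eq_mul, hz2]; ring
    have h4 : (RCLike.re (v c)) = ‖v b‖ + (RCLike.re (v (c - z • b))) := by rw [h3]; simp
    have h5 := (abs_le.1 ((abs_re_le_normK (v (c - z • b))).trans h2)).1
    linarith
  linarith

lemma norm_one_le : ‖(1 : H →L[𝕜] H)‖ ≤ 1 := ContinuousLinearMap.norm_id_le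

lemma norm_half : ‖(1 / 2 : 𝕜)‖ = 1 / 2 := by norm_num

lemma kit : Kit S.V S.ok S.f0 S.R S.K where
  mono := S.V_mono
  fin := fun n => inferInstance
  f0_norm := by
    refine ContinuousLinearMap.opNorm_le_bound _ zero_le_one fun v => ?_
    rw [f0_apply, one_mul]
    refine (v.le_opNorm _).trans ?_
    have := norm_one_le (𝕜 := 𝕜) (H := H)
    have := norm_nonneg v
    nlinarith
  ok_zero := fun η => Or.inl rfl
  ok_R := by
    rintro η r ⟨c, hc, rfl⟩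
    refine Or.inr (Or.inr ⟨1, S.W_one η, c, hc, 1, Or.inr rfl, ?_⟩)
    rw [one_mul]
  ok_RK := by
    rintro η r ⟨c, hc, rfl⟩ k ⟨w, hw, c', hc', rfl⟩
    refine Or.inr (Or.inr ⟨w, hw, c, hc, c', hc', ?_⟩)
    ext v b
    simp only [ContinuousLinearMap.comp_apply, smul_apply, act_act, one_mul]
  norm_R := by
    rintro r ⟨c, hc, rfl⟩
    rw [norm_smul, norm_half]
    have h1 := norm_act (1 : H →L[𝕜] H) c
    have h2 := norm_one_le (𝕜 := 𝕜) (H := H)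
    have h3 := S.C_norm hc
    have h4 := norm_nonneg c
    have h5 := norm_nonneg (1 : H →L[𝕜] H)
    nlinarith
  norm_K := by
    rintro η k ⟨w, hw, c, hc, rfl⟩
    have h1 := norm_act w c
    have h2 := S.W_norm η w hw
    have h3 : ‖c‖ ≤ 1 := by
      rcases hc with hc | rfl
      · exact S.C_norm hc
      · exact norm_one_le
    have h4 := norm_nonneg c
    have h5 := norm_nonneg w
    nlinarith
  map_R := by
    rintro r ⟨c, hc, rfl⟩ m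
    obtain ⟨M, hM⟩ := S.C_mem hc
    refine ⟨max m M, fun v hv => ?_⟩
    refine Submodule.smul_mem _ _ (S.act_mem ?_ ?_ hv)
    · rw [mul_assoc, S.right_of_mem (S.SS_mono (le_max_right m M) hM)]
    · rw [one_mul, S.QQ_ge (le_max_left m M)]
  map_K := by
    rintro η k ⟨w, hw, c, hc, rfl⟩
    obtain ⟨M, hM⟩ := S.W_map η w hw
    have hM' : ∀ n, M ≤ n → S.Q n * (w * S.Q η) = w * S.Q η := by
      intro n hn
      calc S.Q n * (w * S.Q η) = S.Q n * (S.Q M * (w * S.Q η)) := by rw [hM]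
        _ = (S.Q n * S.Q M) * (w * S.Q η) := by simp only [mul_assoc]
        _ = w * S.Q η := by rw [S.QQ_ge hn, hM]
    rcases hc with hc | rfl
    · obtain ⟨M', hM''⟩ := S.C_mem hc
      refine ⟨max M M', fun v hv => S.act_mem ?_ (hM' _ (le_max_left _ _)) hv⟩
      rw [mul_assoc, S.right_of_mem (S.SS_mono (le_max_right _ _) hM'')]
    · refine ⟨max M η, fun v hv => S.act_mem ?_ (hM' _ (le_max_left _ _)) hv⟩
      rw [mul_one, S.QQ_le (le_max_right _ _)]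
  norming := by
    intro m v hv
    obtain ⟨c, hc, h⟩ := S.exists_norming hv
    refine ⟨(1 / 2 : 𝕜) • act 1 c, ⟨c, hc, rfl⟩, ?_⟩
    rw [f0_apply, smul_apply, smul_apply, act_apply,
      mul_one, mul_one, smul_eq_mul]
    have : (RCLike.re ((1 / 2 : 𝕜) * v c)) = (RCLike.re (v c)) / 2 := by
      have h2 : (1 / 2 : 𝕜) = ((1 / 2 : ℝ) : 𝕜) := by push_cast; rfl
      rw [h2, re_ofReal_mulK]; ring
    rw [this]
    linarith
  id_K := fun η => ⟨1, S.W_one η, 1, Or.inr rfl, act_one.symm⟩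

end HSys

end Pool.Agent.KS6_69.CB
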