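import Mathlib

/-! The abstract isomorphism theorem. -/

namespace Pool.Agent.KS6_69.CB

open Filter Topology

variable {𝕜 : Type*} [RCLike 𝕜] {E : Type*} [NormedAddCommGroup E] [NormedSpace 𝕜 E]

theorem calkin_iso_abs {Z : Type*} [NormedAddCommGroup Z] [NormedSpace 𝕜 Z] [CompleteSpace Z]
    {𝔸 : Type*} [NormedRing 𝔸] [NormedAlgebra 𝕜 𝔸] [CompleteSpace 𝔸] (UU : ℕ → Submodule 𝕜 E)
    (lam : 𝔸 →ₐ[𝕜] (E →L[𝕜] E)) (C : ℝ) (hC : 0 < C) (hlam : ∀ a, ‖lam a‖ ≤ C * ‖a‖)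
    (hlam' : ∀ a M, 0 ≤ M → (∀ t, ∀ v ∈ UU t, ‖lam a v‖ ≤ M * ‖v‖) → ‖a‖ ≤ C * M)
    (R : (Z →L[𝕜] Z) → (E →L[𝕜] E) → Prop)
    (Radd : ∀ T T' Φ Φ', R T Φ → R T' Φ' → R (T + T') (Φ + Φ'))
    (Rsmul : ∀ (c : 𝕜) T Φ, R T Φ → R (c • T) (c • Φ))
    (Rone : R 1 1)
    (Rmul : ∀ T T' Φ Φ', R T Φ → R T' Φ' → R (T * T') (Φ * Φ'))
    (Rbound : ∀ T Φ, R T Φ → ∀ t, ∀ v ∈ UU t, ‖Φ v‖ ≤ 2 * ‖T‖ * ‖v‖)
    (Rsmall : ∀ T Φ, R T Φ → ∀ ε : ℝ, 0 < ε → ∃ T', R T' Φ ∧ ‖T'‖ ≤ 9 * ‖Φ‖ + ε)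
    (Rcz : ∀ T, R T 0 → IsCompactOperator T)
    (Rzc : ∀ T Φ, R T Φ → IsCompactOperator T → ∀ t, ∀ v ∈ UU t, Φ v = 0)
    (H1 : ∀ T : Z →L[𝕜] Z, ∃ a, R T (lam a))
    (G : Set 𝔸) (hG : closure (Algebra.adjoin 𝕜 G : Set 𝔸) = Set.univ)
    (H2 : ∀ g ∈ G, ∃ T : Z →L[𝕜] Z, R T (lam g)) :
    ∃ φ : (Z →L[𝕜] Z) →ₐ[𝕜] 𝔸, Continuous φ ∧ Function.Surjective φ ∧
      ∀ T, φ T = 0 ↔ IsCompactOperator T := by
  classical
  have uniq : ∀ (T : Z →L[𝕜] Z) (a b : 𝔸), R T (lam a) → R T (lam b) → a = b := by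
    intro T a b h1 h2
    have h3 := Radd _ _ _ _ h1 (Rsmul (-1) _ _ h2)
    have e1 : T + (-1 : 𝕜) • T = 0 := by rw [neg_one_smul, add_neg_cancel]
    have e2 : lam a + (-1 : 𝕜) • lam b = lam (a - b) := by
      rw [neg_one_smul, map_sub, sub_eq_add_neg]
    rw [e1, e2] at h3
    have h4 := Rbound _ _ h3
    have h5 := hlam' (a - b) 0 le_rfl fun t v hv => by
      have := h4 t v hv
      rwa [norm_zero, mul_zero] at this
    rw [mul_zero] at h5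
    exact sub_eq_zero.1 (norm_le_zero_iff.1 h5)
  choose f hf using H1
  have f_add : ∀ T T', f (T + T') = f T + f T' := fun T T' =>
    uniq _ _ _ (hf _) (by rw [map_add]; exact Radd _ _ _ _ (hf T) (hf T'))
  have f_smul : ∀ (c : 𝕜) T, f (c • T) = c • f T := fun c T =>
    uniq _ _ _ (hf _) (by rw [map_smul]; exact Rsmul c _ _ (hf T))
  have f_one : f 1 = 1 := uniq _ _ _ (hf _) (by rw [map_one]; exact Rone)
  have f_mul : ∀ T T', f (T * T') = f T * f T' := fun T T' =>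
    uniq _ _ _ (hf _) (by rw [map_mul]; exact Rmul _ _ _ _ (hf T) (hf T'))
  let φ : (Z →L[𝕜] Z) →ₐ[𝕜] 𝔸 :=
    AlgHom.ofLinearMap { toFun := f, map_add' := f_add, map_smul' := f_smul } f_one f_mul
  have hφ : ∀ T, φ T = f T := fun _ => rfl
  have hbd : ∀ T, ‖φ T‖ ≤ (C * 2) * ‖T‖ := fun T => by
    have := hlam' (f T) (2 * ‖T‖) (by positivity) (Rbound _ _ (hf T))
    rw [hφ]; linarith
  refine ⟨φ, AddMonoidHomClass.continuous_of_bound φ (C * 2) hbd, ?_, ?_⟩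
  · have hsmall : ∀ b ∈ φ.range, ∃ T, φ T = b ∧ ‖T‖ ≤ (9 * C + 1) * ‖b‖ := by
      intro b hb0
      rcases eq_or_ne b 0 with rfl | hb
      · exact ⟨0, map_zero φ, by simp⟩
      · obtain ⟨T, hT⟩ := hb0
        have hb' : 0 < ‖b‖ := norm_pos_iff.2 hb
        have h1 : R T (lam b) := by
          have hT' : f T = b := hT
          rw [← hT']; exact hf T
        obtain ⟨T', h2, h3⟩ := Rsmall _ _ h1 _ hb'
        refine ⟨T', uniq _ _ _ (hf _) h2, h3.trans ?_⟩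
        have := hlam b
        nlinarith
    let g : NormedAddGroupHom (Z →L[𝕜] Z) 𝔸 :=
      { toFun := φ
        map_add' := map_add φ
        bound' := ⟨C * 2, hbd⟩ }
    let K : AddSubgroup 𝔸 := φ.range.toSubring.toAddSubgroup
    have hK : g.SurjectiveOnWith K (9 * C + 1) := fun b hb => hsmall b hb
    have h2 := controlled_closure_of_complete (by positivity : (0 : ℝ) < 9 * C + 1) zero_lt_one hK
    intro a
    have hGle : Algebra.adjoin 𝕜 G ≤ φ.range := by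
      refine Algebra.adjoin_le fun x hx => ?_
      obtain ⟨T, hT⟩ := H2 x hx
      exact ⟨T, uniq _ _ _ (hf _) hT⟩
    have ha : a ∈ K.topologicalClosure := by
      have h3 : a ∈ closure (Algebra.adjoin 𝕜 G : Set 𝔸) := by rw [hG]; trivial
      exact closure_mono hGle h3
    obtain ⟨T, hT, -⟩ := h2 a ha
    exact ⟨T, hT⟩
  · intro T
    constructor
    · intro h
      have h1 := hf T
      rw [← hφ, h, map_zero] at h1
      exact Rcz _ h1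
    · intro h
      have h1 := Rzc _ _ (hf T) h
      have h2 := hlam' (f T) 0 le_rfl fun t v hv => by rw [h1 t v hv]; simp
      rw [mul_zero] at h2
      exact norm_le_zero_iff.1 h2

end Pool.Agent.KS6_69.CB
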