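import Pool.Agent.KS6_69.CB.Cond

/-! The closed ideals of `L(X)`. -/

set_option autoImplicit false

namespace Pool.Agent.KS6_69.CB

open Filter Topology OnePoint

universe u v

variable {𝕜 : Type} [RCLike 𝕜]

/-- The nonzero closed two-sided ideals of `L(X)`, ordered by inclusion. -/
abbrev NonzeroClosedIdeals (𝕜 : Type) [RCLike 𝕜] (X : Type u) [NormedAddCommGroup X]
    [NormedSpace 𝕜 X] : Type u :=
  {I : TwoSidedIdeal (X →L[𝕜] X) // I ≠ ⊥ ∧ IsClosed (I : Set (X →L[𝕜] X))}

section

variable {U : Type u} [NormedAddCommGroup U] [NormedSpace 𝕜 U]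

/-- The characters. -/
noncomputable def chi (b : SchauderBasis 𝕜 U) (w : ℕ → 𝕜) (a : U × 𝕜) (p : OnePoint ℕ) : 𝕜 :=
  p.elim a.2 fun s => w s * b.coord s a.1 + a.2

variable {b : SchauderBasis 𝕜 U} {w : ℕ → 𝕜}

@[simp] lemma chi_infty (a : U × 𝕜) : chi b w a ∞ = a.2 := rfl

@[simp] lemma chi_coe (a : U × 𝕜) (s : ℕ) : chi b w a (s : OnePoint ℕ) =
    w s * b.coord s a.1 + a.2 := rfl

lemma chi_add (a a' : U × 𝕜) (p : OnePoint ℕ) : chi b w (a + a') p = chi b w a p + chi b w a' p := by
  induction p using OnePoint.rec with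
  | infty => simp
  | coe s => simp only [chi_coe, Prod.fst_add, Prod.snd_add, map_add]; ring

lemma chi_smul (c : 𝕜) (a : U × 𝕜) (p : OnePoint ℕ) : chi b w (c • a) p = c * chi b w a p := by
  induction p using OnePoint.rec with
  | infty => simp
  | coe s => simp only [chi_coe, Prod.smul_fst, Prod.smul_snd, _root_.map_smul, smul_eq_mul]; ring

lemma chi_mul (m : U →L[𝕜] U →L[𝕜] U)
    (hmc : ∀ x y s, b.coord s (m x y) = w s * b.coord s x * b.coord s y)
    (a a' : U × 𝕜) (p : OnePoint ℕ) :
    chi b w (unitMul (fun x y => m x y) a a') p = chi b w a p * chi b w a' p := by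
  induction p using OnePoint.rec with
  | infty => simp [unitMul]
  | coe s =>
    simp only [chi_coe, unitMul, map_add, _root_.map_smul, hmc, smul_eq_mul]
    ring

lemma chi_tendsto (m : U →L[𝕜] U →L[𝕜] U)
    (hmc : ∀ x y s, b.coord s (m x y) = w s * b.coord s x * b.coord s y) (x : U) :
    Tendsto (fun s => w s * b.coord s x) atTop (𝓝 0) := by
  have h1 : ∀ s z, ‖w s * b.coord s z‖ ≤ ‖m‖ * ‖z‖ := by
    intro s z
    have h2 : m (b s) z = (w s * b.coord s z) • b s := cb_ext (b := b) fun t => by
      rw [hmc, _root_.map_smul, cb_coord]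
      split_ifs with h
      · subst h; simp
      · simp
    have h3 : ‖m (b s) z‖ ≤ ‖m‖ * ‖b s‖ * ‖z‖ := m.le_opNorm₂ _ _
    rw [h2, norm_smul] at h3
    have h4 : 0 < ‖b s‖ := by
      rw [norm_pos_iff]
      intro h0
      have := cb_coord (b := b) s s
      rw [h0, map_zero, if_pos rfl] at this
      exact zero_ne_one this
    nlinarith
  have h2 : Tendsto (fun n => ‖m‖ * ‖x - b.proj n x‖) atTop (𝓝 0) := by
    have h3 : Tendsto (fun n => ‖x - b.proj n x‖) atTop (𝓝 0) := by
      have := (tendsto_const_nhds (x := x)).sub (b.tendsto_proj x)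
      rw [sub_self] at this
      simpa using this.norm
    simpa using h3.const_mul ‖m‖
  refine squeeze_zero_norm (fun n => ?_) h2
  have h3 := h1 n (x - b.proj n x)
  rwa [map_sub, cb_coord_proj, if_neg (lt_irrefl n), sub_zero] at h3

lemma chi_continuous (m : U →L[𝕜] U →L[𝕜] U)
    (hmc : ∀ x y s, b.coord s (m x y) = w s * b.coord s x * b.coord s y) (a : U × 𝕜) :
    Continuous (chi b w a) := by
  rw [OnePoint.continuous_iff_from_nat]
  have := (chi_tendsto m hmc a.1).add_const a.2
  simpa using this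

/-- The data of a Calkin algebra representation of the unitization. -/
theorem ideals_iso [CompleteSpace U] {X : Type u} [NormedAddCommGroup X] [NormedSpace 𝕜 X]
    [CompleteSpace X] (P : ℕ → (X →L[𝕜] X))
    (hfin : ∀ n, FiniteDimensional 𝕜 (LinearMap.range (P n : X →ₗ[𝕜] X)))
    (C : ℝ) (hC : ∀ n, ‖P n‖ ≤ C) (hlim : ∀ x, Tendsto (fun n => P n x) atTop (𝓝 x))
    (m : U →L[𝕜] U →L[𝕜] U)
    (hmc : ∀ x y s, b.coord s (m x y) = w s * b.coord s x * b.coord s y) (hw : ∀ s, w s ≠ 0)
    (φ : (X →L[𝕜] X) →L[𝕜] (U × 𝕜)) (h1 : φ 1 = (0, 1))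
    (hmul : ∀ S T, φ (S * T) = unitMul (fun a b => m a b) (φ S) (φ T))
    (hsurj : Function.Surjective φ) (hker : ∀ T, φ T = 0 ↔ IsCompactOperator T) :
    Nonempty (NonzeroClosedIdeals 𝕜 X ≃o (TopologicalSpace.Closeds (OnePoint ℕ))ᵒᵈ) := by
  classical
  -- the hull
  let h : TwoSidedIdeal (X →L[𝕜] X) → Set (OnePoint ℕ) := fun I =>
    {p | ∀ T ∈ I, chi b w (φ T) p = 0}
  have hcl : ∀ I, IsClosed (h I) := by
    intro I
    have : h I = ⋂ T ∈ I, {p | chi b w (φ T) p = 0} := by
      ext p
      simp [h]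
    rw [this]
    exact isClosed_biInter fun T _ => isClosed_eq (chi_continuous m hmc _) continuous_const
  -- the kernel
  let k : Set (OnePoint ℕ) → TwoSidedIdeal (X →L[𝕜] X) := fun F =>
    TwoSidedIdeal.mk' {T | ∀ p ∈ F, chi b w (φ T) p = 0}
      (fun p _ => by
        rw [_root_.map_zero]
        induction p using OnePoint.rec with
        | infty => rfl
        | coe s => simp)
      (fun {S T} hS hT p hp => by
        rw [map_add, chi_add, hS p hp, hT p hp, add_zero])
      (fun {S} hS p hp => by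
        have : φ (-S) = (-1 : 𝕜) • φ S := by rw [map_neg, neg_one_smul]
        rw [this, chi_smul, hS p hp, mul_zero])
      (fun {S T} hT p hp => by
        rw [hmul, chi_mul m hmc, hT p hp, mul_zero])
      (fun {S T} hS p hp => by
        rw [hmul, chi_mul m hmc, hS p hp, zero_mul])
  have hk : ∀ F T, T ∈ k F ↔ ∀ p ∈ F, chi b w (φ T) p = 0 := by
    intro F T
    exact TwoSidedIdeal.mem_mk' _ _ _ _ _ _ _
  have hkcl : ∀ F, IsClosed (k F : Set (X →L[𝕜] X)) := by
    intro F
    have : (k F : Set (X →L[𝕜] X)) = ⋂ p ∈ F, {T | chi b w (φ T) p = 0} := by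
      ext T
      rw [SetLike.mem_coe, hk]
      simp
    rw [this]
    refine isClosed_biInter fun p _ => isClosed_eq ?_ continuous_const
    induction p using OnePoint.rec with
    | infty => exact continuous_snd.comp φ.continuous
    | coe s =>
      simp only [chi_coe]
      have := φ.continuous
      fun_prop
  have hX : Nontrivial X := by
    by_contra hn
    rw [not_nontrivial_iff_subsingleton] at hn
    have h2 : (1 : X →L[𝕜] X) = 0 := by
      ext x
      exact Subsingleton.elim _ _
    rw [h2, map_zero] at h1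
    exact zero_ne_one (congrArg Prod.snd h1)
  have hcomp : ∀ F (T : X →L[𝕜] X), IsCompactOperator T → T ∈ k F := by
    intro F T hT
    rw [hk]
    intro p _
    rw [(hker T).2 hT]
    induction p using OnePoint.rec with
    | infty => rfl
    | coe s => simp
  have hkne : ∀ F, k F ≠ ⊥ := by
    intro F hF
    obtain ⟨x, hx⟩ := exists_ne (0 : X)
    have h2 : ∃ n, P n ≠ 0 := by
      by_contra hn
      push Not at hn
      have h3 := hlim x
      simp only [hn, zero_apply] at h3
      exact hx (tendsto_nhds_unique h3 tendsto_const_nhds)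
    obtain ⟨n, hn⟩ := h2
    have h4 := hcomp F (P n) (isCompactOperator_of_finite_range (P n) (hfin n))
    rw [hF, TwoSidedIdeal.mem_bot] at h4
    exact hn h4
  have hkh : ∀ I : TwoSidedIdeal (X →L[𝕜] X), I ≠ ⊥ → IsClosed (I : Set (X →L[𝕜] X)) →
      ∀ T, T ∈ k (h I) → T ∈ I := by
    intro I hI hIc
    -- the elements of `U × 𝕜` in the image of `I`
    let J : Set (U × 𝕜) := {a | ∃ T ∈ I, φ T = a}
    have hJ : ∀ T, φ T ∈ J → T ∈ I := by
      rintro T ⟨S, hS, hST⟩
      have h2 : IsCompactOperator (T - S) := by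
        rw [← hker, map_sub, hST, sub_self]
      have h3 := compact_mem P hfin C hC hlim hI hIc h2
      have h4 := I.add_mem h3 hS
      rwa [sub_add_cancel] at h4
    have hJadd : ∀ a ∈ J, ∀ a' ∈ J, a + a' ∈ J := by
      rintro _ ⟨S, hS, rfl⟩ _ ⟨T, hT, rfl⟩
      exact ⟨S + T, I.add_mem hS hT, map_add _ _ _⟩
    have hJsmul : ∀ (c : 𝕜), ∀ a ∈ J, c • a ∈ J := by
      rintro c _ ⟨S, hS, rfl⟩
      refine ⟨(c • 1) * S, I.mul_mem_left _ _ hS, ?_⟩
      rw [smul_mul_assoc, one_mul, _root_.map_smul]
    have hJmul : ∀ a, ∀ a' ∈ J, unitMul (fun x y => m x y) a a' ∈ J := by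
      rintro a _ ⟨S, hS, rfl⟩
      obtain ⟨T, rfl⟩ := hsurj a
      exact ⟨T * S, I.mul_mem_left _ _ hS, hmul _ _⟩
    have hJcl : ∀ (u : ℕ → U × 𝕜) a, (∀ n, u n ∈ J) → Tendsto u atTop (𝓝 a) → a ∈ J := by
      intro u a hu hua
      obtain ⟨T, rfl⟩ := hsurj a
      obtain ⟨K, hK, hK2⟩ := φ.exists_preimage_norm_le hsurj
      choose R hR1 hR2 using fun n => hK2 (u n - φ T)
      have h3 : Tendsto R atTop (𝓝 0) := by
        refine squeeze_zero_norm hR2 ?_
        have h4 := (tendsto_iff_norm_sub_tendsto_zero.1 hua).const_mul K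
        simpa using h4
      have h4 : Tendsto (fun n => T + R n) atTop (𝓝 T) := by simpa using h3.const_add T
      have h5 : ∀ n, T + R n ∈ (I : Set (X →L[𝕜] X)) := by
        intro n
        refine hJ _ ?_
        rw [map_add, hR1, add_sub_cancel]
        exact hu n
      exact ⟨T, hIc.mem_of_tendsto h4 (Eventually.of_forall h5), rfl⟩
    have hJb : ∀ s : ℕ, (s : OnePoint ℕ) ∉ h I → (b s, (0 : 𝕜)) ∈ J := by
      intro s hs
      simp only [h, Set.mem_ofPred_eq, not_forall] at hs
      obtain ⟨T, hT, hTs⟩ := hs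
      have h3 := hJmul (b s, 0) (φ T) ⟨T, hT, rfl⟩
      have h4 : unitMul (fun x y => m x y) (b s, (0 : 𝕜)) (φ T) =
          chi b w (φ T) (s : OnePoint ℕ) • (b s, (0 : 𝕜)) := by
        refine Prod.ext ?_ ?_
        · refine cb_ext (b := b) fun t => ?_
          simp only [unitMul, chi_coe, map_add, _root_.map_smul, hmc, cb_coord, Prod.smul_fst,
            smul_eq_mul, zero_mul, add_zero]
          split_ifs with hts
          · subst hts; ring
          · ring
        · simp [unitMul]
      rw [h4] at h3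
      have h5 := hJsmul (chi b w (φ T) (s : OnePoint ℕ))⁻¹ _ h3
      rwa [smul_smul, inv_mul_cancel₀ hTs, one_smul] at h5
    have hJ0 : ((0 : U), (0 : 𝕜)) ∈ J := ⟨0, I.zero_mem, by rw [map_zero]; rfl⟩
    have hJU : ∀ x : U, (∀ s : ℕ, (s : OnePoint ℕ) ∈ h I → b.coord s x = 0) → (x, (0 : 𝕜)) ∈ J := by
      intro x hx
      refine hJcl (fun n => (b.proj n x, 0)) _ (fun n => ?_)
        ((b.tendsto_proj x).prodMk_nhds tendsto_const_nhds)
      induction n with
      | zero => simpa using hJ0
      | succ n ih =>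
        have h3 : (b.proj (n + 1) x, (0 : 𝕜)) = (b.proj n x, (0 : 𝕜)) +
            b.coord n x • (b n, (0 : 𝕜)) := by
          rw [SchauderBasis.proj_apply, SchauderBasis.proj_apply, Finset.sum_range_succ]
          simp
        rw [h3]
        refine hJadd _ ih _ ?_
        by_cases hn : (n : OnePoint ℕ) ∈ h I
        · rw [hx n hn, zero_smul]
          exact hJ0
        · exact hJsmul _ _ (hJb n hn)
    intro T hT
    rw [hk] at hT
    refine hJ T ?_
    by_cases hlam : (φ T).2 = 0
    · have h3 := hJU (φ T).1 fun s hs => by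
        have := hT _ hs
        rw [chi_coe, hlam, add_zero] at this
        exact (mul_eq_zero.1 this).resolve_left (hw s)
      have h4 : φ T = ((φ T).1, (0 : 𝕜)) := Prod.ext rfl hlam
      rw [h4]
      exact h3
    · have h3 : (∞ : OnePoint ℕ) ∉ h I := fun h4 => hlam (hT _ h4)
      simp only [h, Set.mem_ofPred_eq, not_forall] at h3
      obtain ⟨S, hS, hS2⟩ := h3
      rw [chi_infty] at hS2
      set c : 𝕜 := (φ T).2 * ((φ S).2)⁻¹ with hc
      have h4 : c • φ S ∈ J := hJsmul c _ ⟨S, hS, rfl⟩
      have h5 : φ T + (-1 : 𝕜) • (c • φ S) ∈ J := by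
        have h6 : (φ T + (-1 : 𝕜) • (c • φ S)).2 = 0 := by
          simp only [Prod.snd_add, Prod.smul_snd, smul_eq_mul, hc]
          field_simp
          ring
        have h7 := hJU (φ T + (-1 : 𝕜) • (c • φ S)).1 fun s hs => by
          have h8 : chi b w (φ T + (-1 : 𝕜) • (c • φ S)) (s : OnePoint ℕ) = 0 := by
            rw [chi_add, chi_smul, chi_smul, hT _ hs, hs S hS]
            ring
          rw [chi_coe, h6, add_zero] at h8
          exact (mul_eq_zero.1 h8).resolve_left (hw s)
        have h9 : φ T + (-1 : 𝕜) • (c • φ S) = ((φ T + (-1 : 𝕜) • (c • φ S)).1, (0 : 𝕜)) :=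
          Prod.ext rfl h6
        rw [h9]
        exact h7
      have h10 := hJadd _ h5 _ h4
      rwa [neg_one_smul, neg_add_cancel_right] at h10
  have hhk : ∀ F, IsClosed F → h (k F) ⊆ F := by
    intro F hF p hp
    by_contra hpF
    have key : ∀ a : U × 𝕜, (∀ q ∈ F, chi b w a q = 0) → chi b w a p = 0 := by
      intro a ha
      obtain ⟨T, rfl⟩ := hsurj a
      exact hp T ((hk F T).2 ha)
    induction p using OnePoint.rec with
    | infty =>
      have h3 := ((OnePoint.isClosed_iff_of_notMem hpF).1 hF).2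
      have h4 : ((↑) ⁻¹' F : Set ℕ).Finite := isCompact_iff_finite.1 h3
      have h5 := key (∑ s ∈ h4.toFinset, (-(w s)⁻¹) • b s, 1) fun q hq => by
        induction q using OnePoint.rec with
        | infty => exact absurd hq hpF
        | coe t =>
          simp only [chi_coe, map_sum, _root_.map_smul, cb_coord, smul_eq_mul, mul_ite, mul_one,
            mul_zero]
          rw [Finset.sum_ite_eq, if_pos (h4.mem_toFinset.2 hq), mul_neg, mul_inv_cancel₀ (hw t)]
          ring
      rw [chi_infty] at h5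
      exact one_ne_zero h5
    | coe s =>
      have h5 := key (b s, 0) fun q hq => by
        induction q using OnePoint.rec with
        | infty => rfl
        | coe t =>
          have hts : t ≠ s := by
            rintro rfl
            exact hpF hq
          simp only [chi_coe, cb_coord, if_neg hts, mul_zero, add_zero]
      simp only [chi_coe, cb_coord, if_true, mul_one, add_zero] at h5
      exact hw s h5
  refine ⟨{ toFun := fun I => OrderDual.toDual ⟨h I.1, hcl I.1⟩
            invFun := fun F => ⟨k (OrderDual.ofDual F).1, hkne _, hkcl _⟩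
            left_inv := fun I => ?_
            right_inv := fun F => ?_
            map_rel_iff' := fun {I I'} => ?_ }⟩
  · refine Subtype.ext (le_antisymm (fun T hT => ?_) fun T hT => ?_)
    · exact hkh I.1 I.2.1 I.2.2 T hT
    · exact (hk _ _).2 fun p hp => hp T hT
  · refine OrderDual.ofDual.injective (TopologicalSpace.Closeds.ext ?_)
    refine Set.Subset.antisymm (hhk _ (OrderDual.ofDual F).2) fun p hp T hT => ?_
    exact (hk _ _).1 hT p hp
  · constructor
    · intro h3 T hT
      refine hkh I'.1 I'.2.1 I'.2.2 T ((hk _ _).2 fun p hp => ?_)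
      exact h3 hp T hT
    · intro h3 p hp T hT
      exact hp T (h3 hT)

end

end Pool.Agent.KS6_69.CB
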