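import Pool.Agent.KS6_69.CB.Iso
import Pool.Agent.KS6_69.CB.Rel
import Pool.Agent.KS6_69.CB.Symbol

/-! The main theorem. -/

namespace Pool.Agent.KS6_69.CB

open Filter Topology

universe u v

variable {𝕜 : Type*} [RCLike 𝕜] {H : Type*} [NormedAddCommGroup H] [NormedSpace 𝕜 H]

namespace HSys

variable (S : HSys 𝕜 H)

/-- `Q n` fixes what a smaller projection fixes -/
lemma Q_fix {m n : ℕ} (h : m ≤ n) {α : H} (hα : S.Q m α = α) : S.Q n α = α := by
  have := DFunLike.congr_fun (S.QQ_ge h) α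
  rw [mul_apply_eq_comp, hα] at this
  exact this

lemma norm_Q_apply (n : ℕ) (x : H) : ‖S.Q n x‖ ≤ ‖x‖ := by
  refine ((S.Q n).le_opNorm x).trans ?_
  have := S.norm n
  have := norm_nonneg x
  nlinarith

variable {X : Type*} [NormedAddCommGroup X] [NormedSpace 𝕜 X] {D : Nodes 𝕜 (EE 𝕜 H)}

/-- the symbol -/
theorem exists_sym [CompleteSpace H] (hD : D.Ok S.V S.ok) (B : BD D S.V X) (T : X →L[𝕜] X) :
    ∃ s : H →L[𝕜] H, ‖s‖ ≤ 2 * ‖T‖ ∧
      (∀ δ > 0, ∃ N, ∀ γ, γ ≠ 0 → N ≤ D.wt γ → ∀ h ∈ S.V γ, ‖h‖ ≤ 1 →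
        ‖B.F T γ h - act s 1 h‖ ≤ δ) ∧
      (∀ δ > 0, ∃ N, ∀ γ, γ ≠ 0 → N ≤ D.wt γ → ∀ w ∈ S.W γ,
        ‖(s * w - w * s) * S.Q γ‖ ≤ δ) := by
  classical
  obtain ⟨s, hs1, hs2, hs3, hs4⟩ := S.exists_symbol hD B T
  have hex : ∀ k : ℕ, ∃ γ, k ≤ γ ∧ γ ≠ 0 ∧ k ≤ D.wt γ := fun k =>
    BD.exists_wt hD (fun η => Or.inl rfl) k k
  choose g hg1 hg2 hg3 using hex
  have hTn : 0 ≤ ‖T‖ := norm_nonneg T
  -- the difference on the range of `Q γ`
  have hdiff : ∀ δ > 0, ∃ N, ∀ γ γ', γ ≠ 0 → γ ≤ γ' → N ≤ D.wt γ → N ≤ D.wt γ' →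
      ∀ α, S.Q γ α = α → ‖(s γ' - s γ) α‖ ≤ δ * ‖α‖ := by
    intro δ hδ
    obtain ⟨N, hN⟩ := hs4 δ hδ
    refine ⟨N, fun γ γ' h1 h2 h3 h4 α hα => ?_⟩
    have h5 := hN γ γ' h1 h2 h3 h4 1 (S.W_one γ) (by rw [one_mul, S.QQ_ge h2])
    rw [mul_one, one_mul] at h5
    have h6 : (s γ' - s γ) α = ((s γ' - s γ) * S.Q γ) α := by rw [mul_apply_eq_comp, hα]
    rw [h6]
    exact (ContinuousLinearMap.le_opNorm _ _).trans (by gcongr)
  have hcauchy : ∀ x, CauchySeq (fun k => s (g k) x) := by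
    intro x
    rw [Metric.cauchySeq_iff]
    intro ε hε
    have h1 : 0 < ε / (8 * (‖T‖ + 1)) := by positivity
    obtain ⟨t, ht⟩ := ((tendsto_iff_norm_sub_tendsto_zero.1 (S.lim x)).eventually
      (gt_mem_nhds h1)).exists
    set α : H := S.Q t x with hα
    have hδ : 0 < ε / (12 * (‖α‖ + 1)) := by positivity
    obtain ⟨N, hN⟩ := hdiff _ hδ
    have hQt : S.Q t α = α := DFunLike.congr_fun (S.QQ t) x
    have key : ∀ k l, max N t ≤ k → max N t ≤ l → g k ≤ g l → ‖s (g k) x - s (g l) x‖ < ε := by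
      intro k l hk hl hkl
      have e1 := hN (g k) (g l) (hg2 k) hkl ((le_max_left _ _).trans (hk.trans (hg3 k)))
        ((le_max_left _ _).trans (hl.trans (hg3 l))) α
        (S.Q_fix ((le_max_right _ _).trans (hk.trans (hg1 k))) hQt)
      have e2 : ‖(s (g k) - s (g l)) (x - α)‖ ≤ 4 * ‖T‖ * ‖x - α‖ := by
        refine ((s (g k) - s (g l)).le_opNorm _).trans ?_
        have : ‖s (g k) - s (g l)‖ ≤ 4 * ‖T‖ := by
          refine (norm_sub_le _ _).trans ?_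
          have := hs2 (g k)
          have := hs2 (g l)
          linarith
        exact mul_le_mul_of_nonneg_right this (norm_nonneg _)
      have e3 : s (g k) x - s (g l) x = -((s (g l) - s (g k)) α) + (s (g k) - s (g l)) (x - α) := by
        simp only [sub_apply, map_sub]; abel
      have e4 : ‖x - α‖ < ε / (8 * (‖T‖ + 1)) := by rw [norm_sub_rev]; exact ht
      have e5 : 4 * ‖T‖ * ‖x - α‖ ≤ ε / 2 := by
        have : 4 * ‖T‖ * ‖x - α‖ ≤ 4 * (‖T‖ + 1) * (ε / (8 * (‖T‖ + 1))) := by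
          apply mul_le_mul _ e4.le (norm_nonneg _) (by positivity)
          linarith
        refine this.trans (le_of_eq ?_)
        field_simp
        ring
      have e6 : (ε / (12 * (‖α‖ + 1))) * ‖α‖ ≤ ε / 4 := by
        have h7 : ‖α‖ ≤ ‖α‖ + 1 := by linarith
        have : (ε / (12 * (‖α‖ + 1))) * ‖α‖ ≤ (ε / (12 * (‖α‖ + 1))) * (‖α‖ + 1) :=
          mul_le_mul_of_nonneg_left h7 (by positivity)
        have h8 : (ε / (12 * (‖α‖ + 1))) * (‖α‖ + 1) = ε / 12 := by field_simp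
        linarith
      rw [e3]
      refine lt_of_le_of_lt (norm_add_le _ _) ?_
      rw [norm_neg]
      linarith
    refine ⟨max N t, fun k hk l hl => ?_⟩
    rw [dist_eq_norm]
    rcases le_total (g k) (g l) with h | h
    · exact key k l hk hl h
    · rw [norm_sub_rev]; exact key l k hl hk h
  choose L hL using fun x => cauchySeq_tendsto_of_complete (hcauchy x)
  have hbound : ∀ x, ‖L x‖ ≤ 2 * ‖T‖ * ‖x‖ := by
    intro x
    refine le_of_tendsto ((hL x).norm) (Eventually.of_forall fun k => ?_)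
    exact ((s (g k)).le_opNorm x).trans
      (mul_le_mul_of_nonneg_right (hs2 _) (norm_nonneg _))
  let f : H →ₗ[𝕜] H :=
    { toFun := L
      map_add' := fun x y => by
        refine tendsto_nhds_unique (hL (x + y)) ?_
        simpa only [map_add] using (hL x).add (hL y)
      map_smul' := fun c x => by
        refine tendsto_nhds_unique (hL (c • x)) ?_
        simpa only [map_smul, RingHom.id_apply] using (hL x).const_smul c }
  obtain ⟨s', hs', hlim⟩ : ∃ s' : H →L[𝕜] H, ‖s'‖ ≤ 2 * ‖T‖ ∧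
      ∀ x, Tendsto (fun k => s (g k) x) atTop (𝓝 (s' x)) :=
    ⟨f.mkContinuous (2 * ‖T‖) hbound, f.mkContinuous_norm_le (by positivity) hbound,
      fun x => hL x⟩
  -- the limit is uniformly close
  have hclose : ∀ δ > 0, ∃ N, ∀ γ, γ ≠ 0 → N ≤ D.wt γ → ‖(s' - s γ) * S.Q γ‖ ≤ δ := by
    intro δ hδ
    obtain ⟨N, hN⟩ := hdiff δ hδ
    refine ⟨N, fun γ h1 h2 => ContinuousLinearMap.opNorm_le_bound _ hδ.le fun x => ?_⟩
    have h3 : Tendsto (fun k => ‖(s (g k) - s γ) (S.Q γ x)‖) atTop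
        (𝓝 ‖(s' - s γ) (S.Q γ x)‖) := by
      refine Tendsto.norm ?_
      simp only [sub_apply]
      exact (hlim _).sub tendsto_const_nhds
    rw [mul_apply_eq_comp]
    refine le_of_tendsto h3 ?_
    filter_upwards [eventually_ge_atTop (max N γ)] with k hk
    have h4 := hN γ (g k) h1 ((le_max_right _ _).trans (hk.trans (hg1 k))) h2
      ((le_max_left _ _).trans (hk.trans (hg3 k))) (S.Q γ x) (DFunLike.congr_fun (S.QQ γ) x)
    refine h4.trans ?_
    gcongr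
    exact S.norm_Q_apply γ x
  refine ⟨s', hs', ?_, ?_⟩
  · intro δ hδ
    obtain ⟨N1, hN1⟩ := hs3 (δ / 2) (half_pos hδ)
    obtain ⟨N2, hN2⟩ := hclose (δ / 2) (half_pos hδ)
    refine ⟨max N1 N2, fun γ hγ hw h hh hh1 => ?_⟩
    have h1 := hN1 γ hγ ((le_max_left _ _).trans hw) h hh hh1
    have h2 := hN2 γ hγ ((le_max_right _ _).trans hw)
    have h3 : act (s γ) 1 h - act s' 1 h = - act ((s' - s γ) * S.Q γ) 1 h := by
      ext b
      rw [sub_apply, neg_apply, act_apply, act_apply, act_apply]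
      rw [← S.mem_V.1 hh (1 * b * s γ), ← S.mem_V.1 hh (1 * b * s'),
        ← S.mem_V.1 hh (1 * b * ((s' - s γ) * S.Q γ)), ← map_sub, ← map_neg]
      congr 1
      have : S.Q γ * (1 * b * ((s' - s γ) * S.Q γ)) * S.Q γ =
          S.Q γ * (1 * b * (s' - s γ)) * (S.Q γ * S.Q γ) := by simp only [mul_assoc]
      rw [this, S.QQ]
      simp only [mul_sub, sub_mul, neg_sub]
    have h4 : ‖act (s γ) 1 h - act s' 1 h‖ ≤ δ / 2 := by
      rw [h3, norm_neg]
      refine (norm_act_apply _ _ _).trans ?_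
      have := norm_one_le (𝕜 := 𝕜) (H := H)
      have := norm_nonneg ((s' - s γ) * S.Q γ)
      have := norm_nonneg (1 : H →L[𝕜] H)
      calc ‖(s' - s γ) * S.Q γ‖ * ‖(1 : H →L[𝕜] H)‖ * ‖h‖ ≤ (δ / 2) * 1 * 1 := by gcongr
        _ = _ := by ring
    have h5 : B.F T γ h - act s' 1 h = (B.F T γ h - act (s γ) 1 h) +
        (act (s γ) 1 h - act s' 1 h) := by abel
    rw [h5]
    refine (norm_add_le _ _).trans ?_
    linarith
  · intro δ hδ
    obtain ⟨N1, hN1⟩ := hs4 (δ / 3) (by positivity)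
    obtain ⟨N2, hN2⟩ := hclose (δ / 3) (by positivity)
    refine ⟨max N1 N2, fun γ hγ hw w hwW => ?_⟩
    obtain ⟨M, hM⟩ := S.W_map γ w hwW
    obtain ⟨γ', g1, g2, g3⟩ := BD.exists_wt hD (fun η => Or.inl rfl) (max N1 N2) (max γ M)
    have hM' : S.Q γ' * (w * S.Q γ) = w * S.Q γ := by
      calc S.Q γ' * (w * S.Q γ) = S.Q γ' * (S.Q M * (w * S.Q γ)) := by rw [hM]
        _ = (S.Q γ' * S.Q M) * (w * S.Q γ) := by simp only [mul_assoc]
        _ = w * S.Q γ := by rw [S.QQ_ge ((le_max_right _ _).trans g1), hM]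
    have h1 := hN1 γ γ' hγ ((le_max_left _ _).trans g1) ((le_max_left _ _).trans hw)
      ((le_max_left _ _).trans g3) w hwW hM'
    have h2 := hN2 γ hγ ((le_max_right _ _).trans hw)
    have h3 := hN2 γ' g2 ((le_max_right _ _).trans g3)
    have hwn := S.W_norm γ w hwW
    have hQn := S.norm γ
    have e : (s' * w - w * s') * S.Q γ = ((s' - s γ') * S.Q γ') * (w * S.Q γ) -
        w * ((s' - s γ) * S.Q γ) + (s γ' * w - w * s γ) * S.Q γ := by
      have : ((s' - s γ') * S.Q γ') * (w * S.Q γ) = (s' - s γ') * (w * S.Q γ) := by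
        rw [mul_assoc, hM']
      rw [this]
      simp only [sub_mul, mul_sub, mul_assoc]
      abel
    rw [e]
    have t1 : ‖((s' - s γ') * S.Q γ') * (w * S.Q γ)‖ ≤ δ / 3 := by
      refine (norm_mul_le _ _).trans ?_
      have a1 : ‖w * S.Q γ‖ ≤ 1 := by
        refine (norm_mul_le _ _).trans ?_
        have := norm_nonneg w
        have := norm_nonneg (S.Q γ)
        nlinarith
      have := norm_nonneg (w * S.Q γ)
      have := norm_nonneg ((s' - s γ') * S.Q γ')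
      nlinarith
    have t2 : ‖w * ((s' - s γ) * S.Q γ)‖ ≤ δ / 3 := by
      refine (norm_mul_le _ _).trans ?_
      have := norm_nonneg w
      have := norm_nonneg ((s' - s γ) * S.Q γ)
      nlinarith
    have t3 := norm_sub_le (((s' - s γ') * S.Q γ') * (w * S.Q γ)) (w * ((s' - s γ) * S.Q γ))
    refine (norm_add_le _ _).trans ?_
    linarith

/-- the norm of an operator is seen by the functionals -/
lemma norm_of_act (T : H →L[𝕜] H) {M : ℝ} (hM : 0 ≤ M)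
    (h : ∀ t, ∀ v ∈ S.V t, ‖act T 1 v‖ ≤ M * ‖v‖) : ‖T‖ ≤ M := by
  have key : ∀ t (x : H), S.Q t x = x → ‖x‖ = 1 → ‖T x‖ ≤ M := by
    intro t x hx hx1
    by_cases hx0 : ‖T x‖ = 0
    · rw [hx0]; exact hM
    obtain ⟨f, hf1, hfα, hfQ⟩ := S.exists_norming_functional hx hx1
    obtain ⟨g, hg1, hg2⟩ := exists_dual_vector 𝕜 (T x) hx0
    have h1 := h t _ (S.om_mem hfQ hx)
    have h2 := norm_om_le f x
    have h3 : act T 1 (om f x) (ro g x) = ((‖T x‖ : ℝ) : 𝕜) := by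
      rw [act_apply, om_apply, one_mul, mul_apply_eq_comp, ro_apply, hg2, map_smul, hfα]
      simp
    have h4 := (act T 1 (om f x)).le_opNorm (ro g x)
    rw [h3, norm_realK, norm_norm] at h4
    have h5 := norm_ro_le g x
    rw [hg1, hx1] at h5
    rw [hx1] at h2
    have h6 : ‖om f x‖ ≤ 1 := by linarith
    have h7 : ‖act T 1 (om f x)‖ ≤ M := h1.trans (by nlinarith)
    have h8 := norm_nonneg (act T 1 (om f x))
    have h9 := norm_nonneg (ro g x)
    nlinarith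
  have key2 : ∀ t (x : H), S.Q t x = x → ‖T x‖ ≤ M * ‖x‖ := by
    intro t x hx
    by_cases hx0 : ‖x‖ = 0
    · rw [norm_eq_zero] at hx0
      rw [hx0, map_zero, norm_zero, mul_zero]
    have hpos : 0 < ‖x‖ := lt_of_le_of_ne (norm_nonneg _) (Ne.symm hx0)
    have h1 := key t (((‖x‖ : ℝ) : 𝕜)⁻¹ • x) (by rw [map_smul, hx])
      (by rw [norm_smul, norm_inv, norm_realK, norm_norm, inv_mul_cancel₀ hx0])
    rw [map_smul, norm_smul, norm_inv, norm_realK, norm_norm, inv_mul_le_iff₀ hpos] at h1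
    linarith
  refine ContinuousLinearMap.opNorm_le_bound _ hM fun x => ?_
  have h1 : Tendsto (fun t => ‖T (S.Q t x)‖) atTop (𝓝 ‖T x‖) :=
    ((T.continuous.tendsto _).comp (S.lim x)).norm
  refine le_of_tendsto h1 (Eventually.of_forall fun t => ?_)
  have h2 := key2 t (S.Q t x) (DFunLike.congr_fun (S.QQ t) x)
  refine h2.trans ?_
  gcongr
  exact S.norm_Q_apply t x

end HSys

/-- left multiplication on the dual -/
noncomputable def lam {𝔸 : Type*} [Ring 𝔸] [Algebra 𝕜 𝔸] (π : 𝔸 →ₐ[𝕜] (H →L[𝕜] H)) :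
    𝔸 →ₐ[𝕜] (EE 𝕜 H →L[𝕜] EE 𝕜 H) where
  toFun a := act (π a) 1
  map_one' := by rw [map_one]; exact act_one
  map_mul' a b := by
    ext v x
    rw [map_mul, mul_apply_eq_comp, act_act, one_mul]
  map_zero' := by
    ext v x
    simp
  map_add' a b := by
    ext v x
    rw [map_add, act_add_left]
    rfl
  commutes' z := by
    ext v x
    rw [AlgHomClass.commutes, Algebra.algebraMap_eq_smul_one, Algebra.algebraMap_eq_smul_one,
      act_smul_left, act_one]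
    rfl

lemma lam_apply {𝔸 : Type*} [Ring 𝔸] [Algebra 𝕜 𝔸] (π : 𝔸 →ₐ[𝕜] (H →L[𝕜] H)) (a : 𝔸) :
    lam π a = act (π a) 1 := rfl

/-- The general theorem. -/
theorem main {𝕜 : Type} [RCLike 𝕜] {H : Type u} [NormedAddCommGroup H] [NormedSpace 𝕜 H]
    (S : HSys 𝕜 H) [CompleteSpace H]
    {𝔸 : Type v} [NormedRing 𝔸] [NormedAlgebra 𝕜 𝔸] [CompleteSpace 𝔸]
    (π : 𝔸 →ₐ[𝕜] (H →L[𝕜] H)) (C : ℝ) (hC : 0 < C)
    (hπ : ∀ a, ‖π a‖ ≤ C * ‖a‖) (hπ' : ∀ a, ‖a‖ ≤ C * ‖π a‖)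
    (hsym : ∀ s : H →L[𝕜] H, (∀ δ > 0, ∀ N, ∃ n, N ≤ n ∧ ∀ w ∈ S.W n,
      ‖(s * w - w * s) * S.Q n‖ ≤ δ) → s ∈ Set.range π)
    (G : Set 𝔸) (hG : closure (Algebra.adjoin 𝕜 G : Set 𝔸) = Set.univ)
    (hGQ : ∀ g ∈ G, ∃ N, ∀ n, N ≤ n → S.Q n * (π g * S.Q n) = π g * S.Q n ∧
      ∀ w ∈ S.W n, π g * w = w * π g) :
    ∃ (X : Type u) (_ : NormedAddCommGroup X) (_ : NormedSpace 𝕜 X) (_ : CompleteSpace X)
      (P : ℕ → (X →L[𝕜] X)) (φ : (X →L[𝕜] X) →ₐ[𝕜] 𝔸),
      (∀ n, FiniteDimensional 𝕜 (LinearMap.range (P n : X →ₗ[𝕜] X))) ∧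
      (∀ n, ‖P n‖ ≤ 2) ∧ (∀ m n, P m * P n = P (min m n)) ∧
      (∀ x, Tendsto (fun n => P n x) atTop (𝓝 x)) ∧
      Continuous φ ∧ Function.Surjective φ ∧ ∀ T, φ T = 0 ↔ IsCompactOperator T := by
  have hk := S.kit
  obtain ⟨D, hD⟩ := exists_nodes S.V S.V_mono S.ok S.ok_count (fun η => Or.inl rfl)
    (fun η => Or.inr (Or.inl rfl))
  have hX : CompleteSpace (XX hD) := complete_XX hD hk.fin
  set B := bd hD S.V_mono with hB
  have H1 : ∀ T : XX hD →L[𝕜] XX hD, ∃ a, Rel B T (lam π a) := by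
    intro T
    obtain ⟨s, hs, hs1, hs2⟩ := S.exists_sym hD B T
    have hmem : s ∈ Set.range π := by
      refine hsym s fun δ hδ N => ?_
      obtain ⟨N1, hN1⟩ := hs2 δ hδ
      obtain ⟨γ, h1, h2, h3⟩ := BD.exists_wt hD (fun η => Or.inl rfl) N1 N
      exact ⟨γ, h1, fun w hw => hN1 γ h2 h3 w hw⟩
    obtain ⟨a, rfl⟩ := hmem
    refine ⟨a, fun ε hε => ?_⟩
    obtain ⟨N, hN⟩ := B.tail_of_sv hD hk T (act (π a) 1) hs1 hε
    exact ⟨N, fun x hx γ => hN x hx γ⟩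
  have H2 : ∀ g ∈ G, ∃ T : XX hD →L[𝕜] XX hD, Rel B T (lam π g) := by
    intro g hg
    obtain ⟨N, hN⟩ := hGQ g hg
    have hmem : ∀ γ, N ≤ γ → ∀ v ∈ S.V γ, act (π g) 1 v ∈ S.V γ := by
      intro γ hγ v hv
      refine S.act_mem ?_ (hN γ hγ).1 hv
      rw [mul_one, S.QQ]
    have hcomm : ∀ γ i, γ ≠ 0 → N ≤ D.η γ i → ∀ v ∈ S.V (D.η γ i),
        act (π g) 1 (D.A γ i v) = D.A γ i (act (π g) 1 v) := by
      intro γ i hγ hη v hv
      rcases hD.A_ok γ i hγ with h | h | ⟨w, hw, c, hc, c', hc', h⟩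
      · rw [h]; simp
      · rw [h]; rfl
      · have h1 := (hN _ hη).2 w hw
        rw [h, smul_apply, smul_apply, map_smul, act_act, act_act, h1, mul_one, one_mul]
    obtain ⟨T, hT⟩ := exists_mulOp hD S.V_mono (act (π g) 1) N hmem hcomm
    refine ⟨T, fun ε hε => ⟨N, fun x hx γ => ?_⟩⟩
    have h1 : B.co γ (T x) = act (π g) 1 (B.co γ (x - B.P N x)) := hT x γ
    rw [h1, hx, sub_zero, lam_apply, sub_self, norm_zero]
    positivity
  obtain ⟨φ, h1, h2, h3⟩ := calkin_iso_abs S.V (lam π) C hC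
    (fun a => by
      rw [lam_apply]
      have h1 := norm_act (π a) 1
      have h2 := HSys.norm_one_le (𝕜 := 𝕜) (H := H)
      have h3 := hπ a
      have h4 := norm_nonneg (π a)
      have h5 := norm_nonneg (1 : H →L[𝕜] H)
      nlinarith)
    (fun a M hM h => by
      have h4 := S.norm_of_act (π a) hM h
      have h5 := hπ' a
      exact h5.trans (mul_le_mul_of_nonneg_left h4 hC.le))
    (fun T Φ => Rel B T Φ)
    (fun _ _ _ _ h h' => Rel.add h h') (fun c _ _ h => Rel.smul c h) Rel.one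
    (fun _ _ _ _ h h' => Rel.mul h h')
    (fun _ _ h => Rel.bound S.V_mono h)
    (fun _ _ h _ hε => Rel.small h hε)
    (fun _ h => Rel.compact_of_zero hk.fin h)
    (fun _ _ h hT => Rel.zero_of_compact S.V_mono h hT) H1 G hG H2
  refine ⟨XX hD, inferInstance, inferInstance, hX, B.P, φ, fun n => finite_range_P hk.fin n,
    fun n => ?_, fun m n => ?_, B.P_tendsto, h1, h2, h3⟩
  · exact ContinuousLinearMap.opNorm_le_bound _ (by norm_num) fun x => B.norm_P n x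
  · ext x
    rw [mul_apply_eq_comp, B.P_P]

end Pool.Agent.KS6_69.CB
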