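import Pool.Agent.KS6_69.CB.Bilin
import Pool.Agent.KS6_69.CB.CalkinDef

/-! Unitizations as Calkin algebras. -/

namespace Pool.Agent.KS6_69.CB

open Filter Topology

universe u v

/-- The map `e` carries the multiplication of `E` to the multiplication `m` of `F`. -/
def CarriesMul {E : Type u} {F : Type v} [Mul E] (e : E → F) (m : F → F → F) : Prop :=
  ∀ S T, e (S * T) = m (e S) (e T)

/-- The map `f` is bounded: `‖f x‖ ≤ C ‖x‖` for a constant `C`. -/
def BoundedMap {E : Type u} {F : Type v} [Norm E] [Norm F] (f : E → F) : Prop :=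
  ∃ C : ℝ, ∀ x, ‖f x‖ ≤ C * ‖x‖

/-- There is a linear bijection from `L(X)/K(X)`, with the quotient norm, onto `A`, bounded in both
directions, which carries the multiplication of `L(X)/K(X)` to `m`. -/
def CalkinIsoMul (𝕜 : Type) [RCLike 𝕜] (X : Type u) (A : Type v) [NormedAddCommGroup X]
    [NormedSpace 𝕜 X] [NormedAddCommGroup A] [NormedSpace 𝕜 A] (m : A → A → A) : Prop :=
  ∃ e : ((X →L[𝕜] X) ⧸ compactIdeal 𝕜 X) ≃ₗ[𝕜] A,
    CarriesMul e m ∧ BoundedMap e ∧ BoundedMap e.symm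

/-- The Banach space `A` over `𝕜` with the multiplication `m` is a Calkin algebra: there are a
Banach space `X` over `𝕜` and a linear bijection from `L(X)/K(X)`, with the quotient norm, onto
`A`, bounded in both directions, which carries the multiplication of `L(X)/K(X)` to `m`. -/
def IsCalkinMul (𝕜 : Type) [RCLike 𝕜] (A : Type v) [NormedAddCommGroup A] [NormedSpace 𝕜 A]
    (m : A → A → A) : Prop :=
  ∃ (X : Type v) (_ : NormedAddCommGroup X) (_ : NormedSpace 𝕜 X), CompleteSpace X ∧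
    CalkinIsoMul 𝕜 X A m

/-- The multiplication `(x, a)(y, b) = (xy + a y + b x, a b)` of the unitization `U ⊕ 𝕜` of the
algebra `U` with the multiplication `m`. -/
def unitMul {𝕜 : Type} {U : Type u} [Mul 𝕜] [Add U] [SMul 𝕜 U]
    (m : U → U → U) (x y : U × 𝕜) : U × 𝕜 :=
  (m x.1 y.1 + x.2 • y.1 + y.2 • x.1, x.2 * y.2)

/-- From a homomorphism to an isomorphism of the quotient. -/
theorem isCalkinMul_of_hom {𝕜 : Type} [RCLike 𝕜] {A : Type u} [NormedAddCommGroup A]
    [NormedSpace 𝕜 A] [CompleteSpace A] (m : A → A → A)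
    {X : Type u} [NormedAddCommGroup X] [NormedSpace 𝕜 X] [CompleteSpace X]
    (f : (X →L[𝕜] X) →L[𝕜] A) (h1 : ∀ S T, f (S * T) = m (f S) (f T))
    (h2 : Function.Surjective f) (h3 : ∀ T, f T = 0 ↔ IsCompactOperator T) :
    IsCalkinMul 𝕜 A m := by
  have hker : (compactIdeal 𝕜 X).restrictScalars 𝕜 = LinearMap.ker (f : (X →L[𝕜] X) →ₗ[𝕜] A) := by
    ext T
    rw [Submodule.restrictScalars_mem, mem_compactIdeal, LinearMap.mem_ker, ← h3]
    rfl
  let e₁ : ((X →L[𝕜] X) ⧸ compactIdeal 𝕜 X) ≃ₗ[𝕜]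
      ((X →L[𝕜] X) ⧸ (compactIdeal 𝕜 X).restrictScalars 𝕜) :=
    (Submodule.Quotient.restrictScalarsEquiv 𝕜 (compactIdeal 𝕜 X)).symm
  let e : ((X →L[𝕜] X) ⧸ compactIdeal 𝕜 X) ≃ₗ[𝕜] A := e₁.trans
    ((Submodule.quotEquivOfEq _ _ hker).trans (LinearMap.quotKerEquivOfSurjective _ h2))
  have he : ∀ T : X →L[𝕜] X, e (Submodule.Quotient.mk T) = f T := fun T => rfl
  refine ⟨X, inferInstance, inferInstance, inferInstance, e, ?_, ⟨‖f‖, fun x => ?_⟩, ?_⟩
  · intro S T
    obtain ⟨S, rfl⟩ := Submodule.Quotient.mk_surjective _ S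
    obtain ⟨T, rfl⟩ := Submodule.Quotient.mk_surjective _ T
    rw [he, he, ← h1]
    exact he (S * T)
  · refine le_of_forall_pos_le_add fun ε hε => ?_
    obtain ⟨T, hT, hT2⟩ := Submodule.Quotient.norm_mk_lt (S := compactIdeal 𝕜 X) x
      (show 0 < ε / (‖f‖ + 1) by positivity)
    rw [← hT, he]
    refine (f.le_opNorm T).trans ?_
    rw [← hT] at hT2
    have h5 : ‖f‖ * (ε / (‖f‖ + 1)) ≤ ε := by
      rw [mul_div_assoc', div_le_iff₀ (by positivity)]
      nlinarith [norm_nonneg f]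
    calc ‖f‖ * ‖T‖ ≤ ‖f‖ * (‖(Submodule.Quotient.mk T : (X →L[𝕜] X) ⧸ compactIdeal 𝕜 X)‖ +
            ε / (‖f‖ + 1)) := by
          gcongr
      _ = ‖f‖ * ‖(Submodule.Quotient.mk T : (X →L[𝕜] X) ⧸ compactIdeal 𝕜 X)‖ +
            ‖f‖ * (ε / (‖f‖ + 1)) := by ring
      _ ≤ ‖f‖ * ‖(Submodule.Quotient.mk T : (X →L[𝕜] X) ⧸ compactIdeal 𝕜 X)‖ + ε := by linarith
  · obtain ⟨C, hC, hC2⟩ := f.exists_preimage_norm_le h2
    refine ⟨C, fun a => ?_⟩
    obtain ⟨T, hT, hT2⟩ := hC2 a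
    have h5 : e.symm a = Submodule.Quotient.mk T := by
      rw [← hT, ← he, LinearEquiv.symm_apply_apply]
    rw [h5]
    exact (Submodule.Quotient.norm_mk_le (compactIdeal 𝕜 X) T).trans hT2

section

variable {𝕜 : Type} [RCLike 𝕜] {U : Type u} [NormedAddCommGroup U] [NormedSpace 𝕜 U]

/-- the multiplication of the unitization as a bounded bilinear map -/
noncomputable def unitMulL (m : U →L[𝕜] U →L[𝕜] U) : (U × 𝕜) →L[𝕜] (U × 𝕜) →L[𝕜] (U × 𝕜) :=
  LinearMap.mkContinuous₂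
    (LinearMap.mk₂ 𝕜 (fun x y : U × 𝕜 => unitMul (fun a b => m a b) x y)
      (fun x x' y => by
        ext <;> simp [unitMul, add_smul]
        · abel
        · ring)
      (fun c x y => by
        ext
        · simp [unitMul, smul_smul, mul_comm]
        · simp [unitMul]
          ring)
      (fun x y y' => by
        ext <;> simp [unitMul, add_smul]
        · abel
        · ring)
      (fun c x y => by
        ext
        · simp [unitMul, smul_smul, mul_comm]
        · simp [unitMul]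
          ring))
    (‖m‖ + 2)
    (fun x y => by
      have hx1 := norm_fst_le x
      have hx2 := norm_snd_le x
      have hy1 := norm_fst_le y
      have hy2 := norm_snd_le y
      have a1 := norm_nonneg x.1
      have a2 := norm_nonneg x.2
      have a3 := norm_nonneg y.1
      have a4 := norm_nonneg y.2
      have a5 := norm_nonneg x
      have a6 := norm_nonneg y
      have a7 := norm_nonneg m
      have h1 : ‖m x.1 y.1‖ ≤ ‖m‖ * ‖x‖ * ‖y‖ := (m.le_opNorm₂ _ _).trans (by gcongr)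
      have h2 : ‖x.2 • y.1‖ ≤ ‖x‖ * ‖y‖ := by rw [norm_smul]; gcongr
      have h3 : ‖y.2 • x.1‖ ≤ ‖x‖ * ‖y‖ := by rw [norm_smul, mul_comm]; gcongr
      have h4 : ‖x.2 * y.2‖ ≤ ‖x‖ * ‖y‖ := by rw [norm_mul]; gcongr
      change ‖(m x.1 y.1 + x.2 • y.1 + y.2 • x.1, x.2 * y.2)‖ ≤ _
      rw [Prod.norm_mk]
      refine max_le ?_ ?_
      · refine (norm_add₃_le).trans ?_
        nlinarith
      · refine h4.trans ?_
        have : 0 ≤ ‖x‖ * ‖y‖ := by positivity
        nlinarith [mul_nonneg a7 this])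

@[simp] lemma unitMulL_apply (m : U →L[𝕜] U →L[𝕜] U) (x y : U × 𝕜) :
    unitMulL m x y = unitMul (fun a b => m a b) x y := rfl

/-- The unitization of a Banach algebra with an approximating sequence of commuting finite rank
projections whose ranges are subalgebras. -/
theorem unit_bilin [CompleteSpace U] (m : U →L[𝕜] U →L[𝕜] U)
    (hassoc : ∀ a b c, m (m a b) c = m a (m b c))
    (p : ℕ → (U →L[𝕜] U)) (C : ℝ) (hC : ∀ n, ‖p n‖ ≤ C)
    (hpp : ∀ m n a, p m (p n a) = p (min m n) a)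
    (hfin : ∀ n, FiniteDimensional 𝕜 (LinearMap.range (p n : U →ₗ[𝕜] U)))
    (hlim : ∀ a, Tendsto (fun n => p n a) atTop (𝓝 a))
    (hmul : ∀ n a b, p n (m (p n a) (p n b)) = m (p n a) (p n b)) :
    ∃ (X : Type u) (_ : NormedAddCommGroup X) (_ : NormedSpace 𝕜 X) (_ : CompleteSpace X)
      (P : ℕ → (X →L[𝕜] X)) (φ : (X →L[𝕜] X) →L[𝕜] (U × 𝕜)),
      (∀ n, FiniteDimensional 𝕜 (LinearMap.range (P n : X →ₗ[𝕜] X))) ∧
      (∀ n, ‖P n‖ ≤ 2) ∧ (∀ m n, P m * P n = P (min m n)) ∧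
      (∀ x, Tendsto (fun n => P n x) atTop (𝓝 x)) ∧
      φ 1 = (0, 1) ∧ (∀ S T, φ (S * T) = unitMul (fun a b => m a b) (φ S) (φ T)) ∧
      Function.Surjective φ ∧ ∀ T, φ T = 0 ↔ IsCompactOperator T := by
  refine bilin (A := U × 𝕜) (unitMulL m) ?_ (0, 1) ?_ ?_
    (fun n => (p n).prodMap (ContinuousLinearMap.id 𝕜 𝕜)) (max C 1) ?_ ?_ ?_ ?_ ?_
  · intro a b c
    simp only [unitMulL_apply, unitMul]
    ext
    · simp only [map_add, map_smul, add_apply, smul_apply, hassoc, smul_add, smul_smul]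
      rw [mul_comm c.2 a.2, mul_comm c.2 b.2]
      abel
    · simp only
      ring
  · intro a
    simp [unitMul]
  · intro a
    simp [unitMul]
  · intro n
    refine ContinuousLinearMap.opNorm_le_bound _ (by positivity) fun x => ?_
    change ‖(p n x.1, x.2)‖ ≤ _
    rw [Prod.norm_mk]
    have hC1 : C ≤ max C 1 := le_max_left _ _
    have hC2 : 1 ≤ max C 1 := le_max_right _ _
    have h0 := norm_nonneg x
    have h1 := norm_nonneg x.1
    have h3 := hC n
    refine max_le ?_ ?_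
    · refine ((p n).le_opNorm _).trans ?_
      calc ‖p n‖ * ‖x.1‖ ≤ max C 1 * ‖x.1‖ := by gcongr; linarith
        _ ≤ _ := by gcongr; exact norm_fst_le x
    · have := norm_snd_le x
      nlinarith
  · intro k n a
    ext
    · exact hpp k n a.1
    · rfl
  · intro n
    have := hfin n
    have h : LinearMap.range (((p n).prodMap (ContinuousLinearMap.id 𝕜 𝕜) :
        (U × 𝕜) →L[𝕜] (U × 𝕜)) : (U × 𝕜) →ₗ[𝕜] (U × 𝕜)) ≤
        LinearMap.range ((LinearMap.range (p n : U →ₗ[𝕜] U)).subtype.prodMap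
          (LinearMap.id : 𝕜 →ₗ[𝕜] 𝕜)) := by
      rintro _ ⟨x, rfl⟩
      exact ⟨(⟨p n x.1, ⟨x.1, rfl⟩⟩, x.2), rfl⟩
    exact Submodule.finiteDimensional_of_le h
  · intro a
    exact (hlim a.1).prodMk_nhds tendsto_const_nhds
  · intro n a b
    ext
    · change p n (m (p n a.1) (p n b.1) + a.2 • p n b.1 + b.2 • p n a.1) =
        m (p n a.1) (p n b.1) + a.2 • p n b.1 + b.2 • p n a.1
      rw [map_add, map_add, map_smul, map_smul, hmul, hpp, hpp, min_self]
    · rfl

end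

end Pool.Agent.KS6_69.CB
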