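import Pool.Agent.KS6_69.CB.Upper

/-! Rapid block sequences are weakly null; evaluation along chains; single coordinate vectors. -/

namespace Pool.Agent.KS6_69.CB

open Filter Topology

variable {𝕜 : Type*} [RCLike 𝕜] {E : Type*} [NormedAddCommGroup E] [NormedSpace 𝕜 E]
variable {X : Type*} [NormedAddCommGroup X] [NormedSpace 𝕜 X]
variable {D : Nodes 𝕜 E} {V : ℕ → Submodule 𝕜 E} {ok : ℕ → (E →L[𝕜] E) → Prop}

lemma sep_of_succ {p q : ℕ → ℕ} (hpq : ∀ k, p k ≤ q k) (hs : ∀ k, q k ≤ p (k + 1)) :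
    ∀ k l, k < l → q k ≤ p l := by
  intro k l hkl
  induction l with
  | zero => omega
  | succ l ih =>
    rcases Nat.lt_succ_iff_lt_or_eq.1 hkl with h | h
    · exact (ih h).trans ((hpq l).trans (hs l))
    · rw [h]; exact hs l

namespace BD

variable {B : BD D V X} {C : ℝ} {N : ℕ} {p q : ℕ → ℕ} {x : ℕ → X}

lemma RV.mono {C C' : ℝ} (h : C ≤ C') {a b : ℕ} {y : X} (hy : B.RV C a b y) : B.RV C' a b y := by
  obtain ⟨h1, h2, h3, h4, h5⟩ := hy
  refine ⟨h1, h2, h3, h4.trans h, fun γ hγ hw => (h5 γ hγ hw).trans ?_⟩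
  have := β_pos (D.wt γ)
  gcongr

lemma RV.mono_p {C : ℝ} {a a' b : ℕ} {y : X} (ha : a' ≤ a) (hy : B.RV C a b y) :
    B.RV C a' b y := by
  obtain ⟨h1, h2, h3, h4, h5⟩ := hy
  exact ⟨ha.trans h1, B.P_of_P_zero h2 ha, h3, h4, fun γ hγ hw => h5 γ hγ (by omega)⟩

lemma RV.mono_q {C : ℝ} {a b b' : ℕ} {y : X} (hb : b ≤ b') (hy : B.RV C a b y) :
    B.RV C a b' y := by
  obtain ⟨h1, h2, h3, h4, h5⟩ := hy
  exact ⟨h1.trans hb, h2, B.P_of_P_eq h3 hb, h4, h5⟩

lemma RV.add {C C' : ℝ} {a b : ℕ} {y z : X} (hy : B.RV C a b y) (hz : B.RV C' a b z) :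
    B.RV (C + C') a b (y + z) := by
  obtain ⟨h1, h2, h3, h4, h5⟩ := hy
  obtain ⟨g1, g2, g3, g4, g5⟩ := hz
  refine ⟨h1, by rw [map_add, h2, g2, add_zero], by rw [map_add, h3, g3],
    (norm_add_le _ _).trans (add_le_add h4 g4), fun γ hγ hw => ?_⟩
  rw [map_add]
  refine (norm_add_le _ _).trans ?_
  have := h5 γ hγ hw
  have := g5 γ hγ hw
  linarith

lemma RV.neg {C : ℝ} {a b : ℕ} {y : X} (hy : B.RV C a b y) : B.RV C a b (-y) := by
  obtain ⟨h1, h2, h3, h4, h5⟩ := hy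
  refine ⟨h1, by rw [map_neg, h2, neg_zero], by rw [map_neg, h3], by rwa [norm_neg],
    fun γ hγ hw => by rw [map_neg, norm_neg]; exact h5 γ hγ hw⟩

lemma RV.sub {C C' : ℝ} {a b : ℕ} {y z : X} (hy : B.RV C a b y) (hz : B.RV C' a b z) :
    B.RV (C + C') a b (y - z) := by
  rw [sub_eq_add_neg]; exact hy.add hz.neg

/-- Averages of rapid block sequences go to zero. -/
lemma weak_null_aux (hD : D.Ok V ok) (hfin : ∀ n, FiniteDimensional 𝕜 (V n)) (T : X →L[𝕜] X)
    (γ : ℕ) {ε : ℝ} (hε : 0 < ε) (hC : 0 ≤ C) :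
    ∃ M, ∀ a b y, M ≤ a → B.RV C a b y → ‖B.co γ (T y)‖ ≤ ε := by
  by_contra hcon
  push Not at hcon
  choose a b y hMa hRV hbig using hcon
  -- the sequence
  let M : ℕ → ℕ := fun k => Nat.rec 0 (fun _ m => b m) k
  have hM : ∀ k, M (k + 1) = b (M k) := fun k => rfl
  let p : ℕ → ℕ := fun k => a (M k)
  let q : ℕ → ℕ := fun k => b (M k)
  let x : ℕ → X := fun k => y (M k)
  have hpq : ∀ k, p k ≤ q k := fun k => (hRV (M k)).1
  have hs : ∀ k, q k ≤ p (k + 1) := fun k => by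
    have := hMa (M (k + 1)); rw [hM] at this
    exact this
  have hsep := sep_of_succ hpq hs
  have := hfin γ
  have : ProperSpace (V γ) := FiniteDimensional.proper 𝕜 (V γ)
  let v : ℕ → V γ := fun k => ⟨B.co γ (T (x k)), B.co_mem γ _⟩
  have hvb : ∀ k, v k ∈ Metric.closedBall (0 : V γ) (‖T‖ * C) := by
    intro k
    rw [mem_closedBall_zero_iff]
    change ‖B.co γ (T (x k))‖ ≤ _
    refine (B.norm_co _ _).trans ((T.le_opNorm _).trans ?_)
    gcongr
    exact (hRV (M k)).2.2.2.1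
  obtain ⟨v0, -, φ, hφ, hlim⟩ := (isCompact_closedBall (0 : V γ) (‖T‖ * C)).tendsto_subseq hvb
  have hv0 : ε ≤ ‖v0‖ := by
    refine ge_of_tendsto hlim.norm (Eventually.of_forall fun k => ?_)
    exact (hbig _).le
  -- tail
  have hev : ∀ᶠ k in atTop, ‖v (φ k) - v0‖ ≤ ε / 2 := by
    have := (tendsto_iff_norm_sub_tendsto_zero.1 hlim)
    exact (this.eventually (ge_mem_nhds (by positivity : (0:ℝ) < ε / 2)))
  obtain ⟨K, hK⟩ := eventually_atTop.1 hev
  -- estimate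
  have hall : ∀ j, j ≠ 0 → ε / 2 ≤ ‖T‖ * (9 * C) * β j := by
    intro j hj
    have hseq : B.RSeq C (nn j) (fun k => p (φ (K + k))) (fun k => q (φ (K + k)))
        (fun k => x (φ (K + k))) :=
      ⟨fun k _ => hRV _, fun k l hkl _ => hsep _ _ (hφ (by omega))⟩
    have hup := (hseq.upper hD hC (S := Finset.range (nn j))
      (fun k hk => Finset.mem_range.1 hk) hj (by rw [Finset.card_range])).1
    have hlow : (nn j : ℝ) * (ε / 2) ≤ ‖B.co γ (T (∑ k ∈ Finset.range (nn j), x (φ (K + k))))‖ := by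
      have e1 : B.co γ (T (∑ k ∈ Finset.range (nn j), x (φ (K + k)))) =
          (nn j : 𝕜) • (v0 : E) + ∑ k ∈ Finset.range (nn j), ((v (φ (K + k)) - v0 : V γ) : E) := by
        rw [map_sum, map_sum]
        have : ∀ k, ((v (φ (K + k)) - v0 : V γ) : E) = B.co γ (T (x (φ (K + k)))) - (v0 : E) :=
          fun k => rfl
        simp only [this, Finset.sum_sub_distrib, Finset.sum_const, Finset.card_range]
        rw [Nat.cast_smul_eq_nsmul 𝕜]
        abel
      rw [e1]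
      have e2 : ‖∑ k ∈ Finset.range (nn j), ((v (φ (K + k)) - v0 : V γ) : E)‖ ≤
          (nn j : ℝ) * (ε / 2) := by
        calc _ ≤ ∑ k ∈ Finset.range (nn j), ‖((v (φ (K + k)) - v0 : V γ) : E)‖ := norm_sum_le _ _
          _ ≤ ∑ k ∈ Finset.range (nn j), (ε / 2) :=
            Finset.sum_le_sum fun k _ => hK (K + k) (Nat.le_add_right _ _)
          _ = _ := by rw [Finset.sum_const, Finset.card_range, nsmul_eq_mul]
      have e3 : ‖(nn j : 𝕜) • (v0 : E)‖ = (nn j : ℝ) * ‖v0‖ := by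
        rw [norm_smul, RCLike.norm_natCast]; rfl
      have e4 : (nn j : ℝ) * ε ≤ (nn j : ℝ) * ‖v0‖ := by gcongr
      have := norm_sub_norm_le ((nn j : 𝕜) • (v0 : E))
        (-∑ k ∈ Finset.range (nn j), ((v (φ (K + k)) - v0 : V γ) : E))
      rw [sub_neg_eq_add, norm_neg] at this
      rw [e3] at this
      linarith
    have hT : ‖B.co γ (T (∑ k ∈ Finset.range (nn j), x (φ (K + k))))‖ ≤
        ‖T‖ * (9 * C * β j * (nn j : ℝ)) :=
      (B.norm_co _ _).trans ((T.le_opNorm _).trans (by gcongr))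
    have hnn : (0 : ℝ) < nn j := by exact_mod_cast nn_pos j
    have := hlow.trans hT
    have h2 : (nn j : ℝ) * (ε / 2) ≤ (nn j : ℝ) * (‖T‖ * (9 * C) * β j) := by
      calc _ ≤ _ := this
        _ = _ := by ring
    exact le_of_mul_le_mul_left h2 hnn
  have hlim0 : Tendsto (fun j => ‖T‖ * (9 * C) * β j) atTop (𝓝 (‖T‖ * (9 * C) * 0)) :=
    tendsto_β.const_mul _
  rw [mul_zero] at hlim0
  have : ε / 2 ≤ 0 := by
    refine ge_of_tendsto hlim0 ?_
    filter_upwards [eventually_ne_atTop 0] with j hj using hall j hj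
  linarith

lemma weak_null (hD : D.Ok V ok) (hfin : ∀ n, FiniteDimensional 𝕜 (V n)) (T : X →L[𝕜] X)
    (N : ℕ) {ε : ℝ} (hε : 0 < ε) (hC : 0 ≤ C) :
    ∃ M, ∀ a b y, M ≤ a → B.RV C a b y → ‖B.P N (T y)‖ ≤ ε := by
  choose M hM using fun γ => B.weak_null_aux hD hfin T γ (ε := ε / 2) (by positivity) hC
  refine ⟨(Finset.range N).sup M, fun a b y ha hy => ?_⟩
  have := B.norm_P_le N (T y) (ε / 2) (by positivity) fun γ hγ =>
    hM γ a b y ((Finset.le_sup (f := M) (Finset.mem_range.2 hγ)).trans ha) hy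
  linarith

/-- Evaluation along a chain of nodes. -/
lemma chain_eval (hD : D.Ok V ok) {n w : ℕ} {ξ : ℕ → ℕ} {y : ℕ → X} (h0 : ξ 0 = 0)
    (hξ : ∀ r < n, ξ (r + 1) ≠ 0 ∧ D.par (ξ (r + 1)) = ξ r ∧ D.wt (ξ (r + 1)) = w)
    (hy : ∀ r < n, B.P (ξ r + 1) (y r) = 0 ∧ B.P (ξ (r + 1)) (y r) = y r) :
    ∀ m ≤ n, B.co (ξ m) (∑ r ∈ Finset.range n, y r) =
      ∑ r ∈ Finset.range m, (β w : 𝕜) • B.fn (ξ (r + 1)) (y r) := by
  have hlt : ∀ r < n, ξ r < ξ (r + 1) := fun r hr => by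
    have := hD.par_lt (ξ (r + 1)) (hξ r hr).1
    rw [(hξ r hr).2.1] at this; exact this
  have hmono : ∀ r r', r ≤ r' → r' ≤ n → ξ r ≤ ξ r' := by
    intro r r' hrr' hr'
    induction r' with
    | zero => have : r = 0 := by omega
              rw [this]
    | succ k ih =>
      rcases Nat.le_succ_iff.1 hrr' with h | h
      · exact (ih h (by omega)).trans (hlt k (by omega)).le
      · rw [h]
  intro m
  induction m with
  | zero => intro _; rw [h0, B.co_zero]; simp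
  | succ m ih =>
    intro hm
    have hm' : m < n := by omega
    obtain ⟨g1, g2, g3⟩ := hξ m hm'
    rw [B.co_eq _ _ g1, g2, g3, ih (by omega), Finset.sum_range_succ]
    have hdd : B.dd (ξ (m + 1)) (∑ r ∈ Finset.range n, y r) = 0 := by
      rw [dd_sum]
      refine Finset.sum_eq_zero fun r hr => ?_
      rw [Finset.mem_range] at hr
      obtain ⟨e1, e2⟩ := hy r hr
      rcases Nat.lt_or_ge m r with h | h
      · refine B.dd_eq_zero_of_P_zero e1 ?_
        have := hmono (m + 1) r h hr.le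
        omega
      · exact B.dd_eq_zero_of_P_eq e2 (hmono _ _ (by omega) hm)
    have hfn : B.fn (ξ (m + 1)) (∑ r ∈ Finset.range n, y r) = B.fn (ξ (m + 1)) (y m) := by
      rw [fn_sum]
      refine Finset.sum_eq_single_of_mem m (Finset.mem_range.2 hm') ?_
      intro r hr hrm
      rw [Finset.mem_range] at hr
      obtain ⟨e1, e2⟩ := hy r hr
      rcases lt_or_gt_of_ne hrm with h | h
      · refine B.fn_eq_zero_of_P_eq hD g1 e2 ?_
        rw [g2]
        have := hmono (r + 1) m h (by omega)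
        omega
      · refine B.fn_eq_zero_of_P_zero hD g1 e1 ?_
        have := hmono (m + 1) r h hr.le
        omega
    rw [hdd, add_zero, hfn]

/-- `x - P_s x` for a block sum -/
lemma RSeq.tail (h : B.RSeq C N p q x) (hC : 0 ≤ C) {S : Finset ℕ} (hS : ∀ k ∈ S, k < N)
    (s : ℕ) : ∃ e : X, ‖e‖ ≤ 3 * C ∧ ∑ k ∈ S, x k - B.P s (∑ k ∈ S, x k) =
      ∑ k ∈ S.filter (fun k => s ≤ p k), x k + e := by
  refine ⟨∑ k ∈ S.filter (fun k => ¬ s ≤ p k), (x k - B.P s (x k)), ?_, ?_⟩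
  · refine norm_sum_le_of_unique _ _ _ (by positivity) ?_ ?_
    · intro k hk
      rw [Finset.mem_filter] at hk
      refine (B.norm_sub_P _ _).trans ?_
      have := (h.rv k (hS k hk.1)).2.2.2.1
      linarith
    · intro k hk l hl hkl hk0 hl0
      rw [Finset.mem_filter] at hk hl
      have := h.sep k l hkl (hS l hl.1)
      apply hk0
      rw [B.P_of_P_eq (h.rv k (hS k hk.1)).2.2.1 (by omega), sub_self]
  · rw [map_sum, ← Finset.sum_sub_distrib,
      ← Finset.sum_filter_add_sum_filter_not S (fun k => s ≤ p k)]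
    congr 1
    refine Finset.sum_congr rfl fun k hk => ?_
    rw [Finset.mem_filter] at hk
    rw [B.P_of_P_zero (h.rv k (hS k hk.1)).2.1 hk.2, sub_zero]

end BD

end Pool.Agent.KS6_69.CB
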