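import Pool.Agent.KS6_69.CB.Lattice

/-! The general theorems, and weights for unconditional bases. -/

set_option autoImplicit false

namespace Pool.Agent.KS6_69.CB

open Filter Topology

universe u v

variable {𝕜 : Type} [RCLike 𝕜]

/-- The Banach space `A` over `𝕜` with the multiplication `m` is isomorphic, as a Banach algebra, to
the Calkin algebra `L(X)/K(X)` of a Banach space `X` with a finite-dimensional decomposition with
projections of norm at most `2`. -/
def IsCalkinWithFDD (𝕜 : Type) [RCLike 𝕜] (A : Type u) [NormedAddCommGroup A] [NormedSpace 𝕜 A]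
    (m : A → A → A) : Prop :=
  ∃ (X : Type u) (_ : NormedAddCommGroup X) (_ : NormedSpace 𝕜 X), CompleteSpace X ∧
    HasFDD 𝕜 X ∧ CalkinIsoMul 𝕜 X A m

/-- As `IsCalkinWithFDD`, and the lattice of the nonzero closed two-sided ideals of `L(X)` is
anti-isomorphic to the lattice of the closed subsets of the one-point compactification of `ℕ`. -/
def IsCalkinWithIdeals (𝕜 : Type) [RCLike 𝕜] (A : Type u) [NormedAddCommGroup A] [NormedSpace 𝕜 A]
    (m : A → A → A) : Prop :=
  ∃ (X : Type u) (_ : NormedAddCommGroup X) (_ : NormedSpace 𝕜 X), CompleteSpace X ∧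
    HasFDD 𝕜 X ∧ CalkinIsoMul 𝕜 X A m ∧
    Nonempty (NonzeroClosedIdeals 𝕜 X ≃o (TopologicalSpace.Closeds (OnePoint ℕ))ᵒᵈ)

/-- The unitization of the Banach space `U` with the product `f` is a Calkin algebra as in
`IsCalkinWithFDD`, and even as in `IsCalkinWithIdeals` if `s` holds. -/
def UnitizationIsCalkin (𝕜 : Type) [RCLike 𝕜] (U : Type u) [NormedAddCommGroup U]
    [NormedSpace 𝕜 U] (f : U → U → U) (s : Prop) : Prop :=
  IsCalkinWithFDD 𝕜 (U × 𝕜) (unitMul f) ∧ (s → IsCalkinWithIdeals 𝕜 (U × 𝕜) (unitMul f))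

/-- The terms `w_s x_s y_s b_s` of the weighted coordinatewise product of `x` and `y`. -/
def wterm {U : Type u} [NormedAddCommGroup U] [NormedSpace 𝕜 U]
    (b : UnconditionalSchauderBasis ℕ 𝕜 U) (w : ℕ → 𝕜) (x y : U) (s : ℕ) : U :=
  (w s * b.coord s x * b.coord s y) • b s

/-- `(p n)` is a finite-dimensional decomposition of `A` by subalgebras: the `p n` are commuting
finite rank projections on increasing subspaces, they converge pointwise to the identity, and the
range of each of them is closed under the multiplication `m`. -/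
structure SubalgebraFDD {A : Type u} [NormedAddCommGroup A] [NormedSpace 𝕜 A]
    (m : A →L[𝕜] A →L[𝕜] A) (p : ℕ → (A →L[𝕜] A)) : Prop where
  fin : ∀ n, FiniteDimensional 𝕜 (LinearMap.range (p n : A →ₗ[𝕜] A))
  mul : ∀ k n, p k * p n = p (min k n)
  lim : ∀ a, Tendsto (fun n => p n a) atTop (𝓝 a)
  alg : ∀ n a b, p n a = a → p n b = b → p n (m a b) = m a b

theorem general {A : Type u} [NormedAddCommGroup A] [NormedSpace 𝕜 A] [CompleteSpace A]
    (m : A →L[𝕜] A →L[𝕜] A) (p : ℕ → (A →L[𝕜] A)) (hm : ∀ a b c, m (m a b) c = m a (m b c))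
    (hp : SubalgebraFDD m p) :
    IsCalkinWithFDD 𝕜 (A × 𝕜) (unitMul fun a b => m a b) ∧
      ((∃ e, ∀ a, m e a = a ∧ m a e = a) → IsCalkinWithFDD 𝕜 A (fun a b => m a b)) := by
  have hC : ∃ C, ∀ n, ‖p n‖ ≤ C := by
    apply banach_steinhaus
    intro x
    obtain ⟨M, hM⟩ := isBounded_iff_forall_norm_le.mp
      (Metric.isBounded_range_of_tendsto (fun n ↦ p n x) (hp.lim x))
    exact ⟨M, Set.forall_mem_range.mp hM⟩
  obtain ⟨C, hC⟩ := hC
  have hpp : ∀ k n a, p k (p n a) = p (min k n) a := by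
    intro k n a
    rw [← hp.mul]
    rfl
  have halg : ∀ n a b, p n (m (p n a) (p n b)) = m (p n a) (p n b) := by
    intro n a b
    refine hp.alg n _ _ ?_ ?_ <;> rw [hpp, min_self]
  constructor
  · obtain ⟨X, i1, i2, i3, P, φ, g1, g2, g3, g4, f1, f2, f3, f4⟩ :=
      unit_bilin m hm p C hC hpp hp.fin hp.lim halg
    exact ⟨X, i1, i2, i3, ⟨P, g1, g2, g3, g4⟩, calkinIsoMul_of_hom _ φ f2 f3 f4⟩
  · rintro ⟨e, he⟩
    obtain ⟨X, i1, i2, i3, P, φ, g1, g2, g3, g4, f1, f2, f3, f4⟩ :=
      bilin m hm e (fun a => (he a).1) (fun a => (he a).2) p C hC hpp hp.fin hp.lim halg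
    exact ⟨X, i1, i2, i3, ⟨P, g1, g2, g3, g4⟩, calkinIsoMul_of_hom _ φ f2 f3 f4⟩

theorem weighted {U : Type u} [NormedAddCommGroup U] [NormedSpace 𝕜 U] [CompleteSpace U]
    (b : SchauderBasis 𝕜 U) (w : ℕ → 𝕜) (f : U → U → U) (hf : IsWeightedProduct b w f) :
    IsCalkinWithFDD 𝕜 (U × 𝕜) (unitMul f) ∧
      ((∀ s, w s ≠ 0) → IsCalkinWithIdeals 𝕜 (U × 𝕜) (unitMul f)) := by
  obtain ⟨m, hm, X, i1, i2, i3, P, φ, g1, g2, g3, g4, f1, f2, f3, f4⟩ := wprod_hom hf
  have hmf : (fun a b => m a b) = f := by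
    funext a b
    exact hm a b
  have f2' := f2
  rw [hmf] at f2'
  refine ⟨⟨X, i1, i2, i3, ⟨P, g1, g2, g3, g4⟩, calkinIsoMul_of_hom _ φ f2' f3 f4⟩, fun hw =>
    ⟨X, i1, i2, i3, ⟨P, g1, g2, g3, g4⟩, calkinIsoMul_of_hom _ φ f2' f3 f4, ?_⟩⟩
  exact ideals_iso (b := b) P g1 2 g2 g4 m (fun x y s => by rw [hm, wp_coord hf]) hw φ f1 f2 f3 f4

section

variable {U : Type u} [NormedAddCommGroup U] [NormedSpace 𝕜 U]

/-- An unconditional basis is a Schauder basis. -/
noncomputable def toSchauder (b : UnconditionalSchauderBasis ℕ 𝕜 U) : SchauderBasis 𝕜 U where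
  basis := b.basis
  coord := b.coord
  ortho := b.ortho
  expansion x := by
    have h := b.expansion x
    unfold HasSum at h ⊢
    rw [SummationFilter.conditional_filter_eq_map_range, Filter.tendsto_map'_iff]
    rw [SummationFilter.unconditional_filter] at h
    exact h.comp tendsto_finset_range

lemma summable_iff [CompleteSpace U] (b : UnconditionalSchauderBasis ℕ 𝕜 U) (w : ℕ → 𝕜) :
    (∃ C : ℝ, ∀ s, ‖w s‖ ≤ C * ‖b s‖) ↔
      ∀ x y, Summable fun s => (w s * b.coord s x * b.coord s y) • b s := by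
  constructor
  · rintro ⟨C, hC⟩ x y
    obtain ⟨K, hK⟩ := b.exists_norm_proj_le
    have hK0 : 0 ≤ K := (norm_nonneg _).trans (hK ∅)
    have hco : ∀ s x, ‖w s * b.coord s x‖ ≤ |C| * (K * ‖x‖) := by
      intro s x
      have h1 : ‖b.coord s x‖ * ‖b s‖ = ‖b.proj {s} x‖ := by
        rw [GeneralSchauderBasis.proj_apply, Finset.sum_singleton, norm_smul]
      have h2 := ((b.proj {s}).le_opNorm x).trans
        (mul_le_mul_of_nonneg_right (hK _) (norm_nonneg _))
      rw [← h1] at h2
      rw [norm_mul]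
      calc ‖w s‖ * ‖b.coord s x‖ ≤ (|C| * ‖b s‖) * ‖b.coord s x‖ := by
            gcongr
            exact (hC s).trans (mul_le_mul_of_nonneg_right (le_abs_self C) (norm_nonneg _))
        _ = |C| * (‖b.coord s x‖ * ‖b s‖) := by ring
        _ ≤ |C| * (K * ‖x‖) := by gcongr
    have h1 := summable_smul (b.expansion y).summable (fun s => w s * b.coord s x)
      (|C| * (K * ‖x‖)) (by positivity) fun s => hco s x
    simpa only [smul_smul] using h1
  · intro h
    have hf : IsWeightedProduct (toSchauder b) w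
        (fun x y => ∑' s, (w s * b.coord s x * b.coord s y) • b s) := by
      intro x y
      exact (h x y).hasSum.comp tendsto_finset_range
    obtain ⟨m, hm⟩ := exists_wprod hf
    refine ⟨‖m‖, fun s => ?_⟩
    have h1 : m (b s) (b s) = w s • b s := cb_ext (b := toSchauder b) fun t => by
      rw [hm, wp_coord hf]
      change w t * b.coord t (b s) * b.coord t (b s) = b.coord t (w s • b s)
      rw [map_smul, coord_basis]
      split_ifs with hts
      · subst hts; simp
      · simp
    have h2 := m.le_opNorm₂ (b s) (b s)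
    rw [h1, norm_smul] at h2
    have h3 : 0 < ‖b s‖ := by
      rw [norm_pos_iff]
      intro h0
      have := coord_basis b s s
      rw [h0, map_zero, if_pos rfl] at this
      exact zero_ne_one this
    nlinarith

theorem unconditional [CompleteSpace U] (b : UnconditionalSchauderBasis ℕ 𝕜 U) (w : ℕ → 𝕜)
    (hw : ∀ x y, Summable fun s => (w s * b.coord s x * b.coord s y) • b s) :
    IsCalkinWithFDD 𝕜 (U × 𝕜)
      (unitMul fun x y => ∑' s, (w s * b.coord s x * b.coord s y) • b s) ∧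
    ((∀ s, w s ≠ 0) → IsCalkinWithIdeals 𝕜 (U × 𝕜)
      (unitMul fun x y => ∑' s, (w s * b.coord s x * b.coord s y) • b s)) :=
  weighted (toSchauder b) w _ fun x y => (hw x y).hasSum.comp tendsto_finset_range

end

end Pool.Agent.KS6_69.CB
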